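import Pool.Agent.Lib.MP_a05699_co.Paths

set_option autoImplicit false
set_option linter.unusedSectionVars false

namespace Pool.Agent.A05699

variable {ι : Type*} [DecidableEq ι]

/-- vertex weights after suppressing `x` and `y` -/
noncomputable def om (x y : ι) : ι → ℝ := fun a => if a = x ∨ a = y then 1 else zz

lemma om_nonneg (x y a : ι) : 0 ≤ om x y a := by
  have := zz_pos
  unfold om
  split_ifs <;> linarith

/-- total change, on the level of paths -/
noncomputable def DD (e : ι → ι → ℕ) (o : ι → ℕ) (V : Finset ι) (l : List ι) : ℝ :=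
  ∑ x ∈ V, ∑ y ∈ V, (e x y : ℝ) *
    (wt (fun _ => zz) e (fun a => (o a : ℝ)) l - wt (om x y) (delE e x y) (fun a => (o a : ℝ)) l)

/-- the value of the change -/
noncomputable def SS (e : ι → ι → ℕ) (V : Finset ι) (l : List ι) : ℝ :=
  (2 + zz) * (usum e l : ℝ) - 2 * zz * ((cc e l.toFinset V : ℤ) : ℝ) -
    (1 - zz) * ((cc e l.toFinset l.toFinset : ℤ) : ℝ)

lemma DD_eq {e : ι → ι → ℕ} (hs : ∀ x y, e x y = e y x) (hi : ∀ x, e x x = 0) (o : ι → ℕ)
    (V : Finset ι) (l : List ι) (hn : l.Nodup) (hl : ∀ a ∈ l, a ∈ V) :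
    DD e o V l = wt (fun _ => zz) e (fun a => (o a : ℝ)) l * SS e V l := by
  have hz := zz_sq
  have hF : l.toFinset ⊆ V := by
    intro a ha
    exact hl a (List.mem_toFinset.1 ha)
  set w := wt (fun _ => zz) e (fun a => (o a : ℝ)) l with hw
  have hpt : ∀ x ∈ V, ∀ y ∈ V, (e x y : ℝ) *
      (w - wt (om x y) (delE e x y) (fun a => (o a : ℝ)) l) =
      w * ((2 + zz) * ((e x y : ℝ) * (usd x y l : ℝ)) -
        zz * (if x ∈ l.toFinset then (e x y : ℝ) else 0) -
        zz * (if y ∈ l.toFinset then (e x y : ℝ) else 0) -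
        (1 - zz) * (if x ∈ l.toFinset then (if y ∈ l.toFinset then (e x y : ℝ) else 0) else 0)) := by
    intro x _ y _
    by_cases hxy : x = y
    · subst hxy
      simp [hi]
    · have h1 := wt_del e (fun a => (o a : ℝ)) hxy l hn
      rw [← hw] at h1
      unfold om
      rw [h1]
      have h2 := usd_le_one (x := x) (y := y) hn
      by_cases hx : x ∈ l
      · by_cases hy : y ∈ l
        · have h3 : usd x y l = 0 ∨ usd x y l = 1 := by omega
          simp only [List.mem_toFinset, hx, hy, if_true]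
          rcases h3 with h3 | h3
          · rw [h3]
            push_cast
            linear_combination (-(e x y : ℝ) * w) * hz
          · rw [h3]
            push_cast
            ring
        · have h3 : usd x y l = 0 := usd_eq_zero_of_notMem (Or.inr hy)
          simp only [List.mem_toFinset, hx, hy, if_true, if_false, h3]
          push_cast
          ring
      · have h3 : usd x y l = 0 := usd_eq_zero_of_notMem (Or.inl hx)
        by_cases hy : y ∈ l
        · simp only [List.mem_toFinset, hx, hy, if_true, if_false, h3]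
          push_cast
          ring
        · simp only [List.mem_toFinset, hx, hy, if_false, h3]
          push_cast
          ring
  unfold DD
  rw [Finset.sum_congr rfl fun x hx => Finset.sum_congr rfl fun y hy => hpt x hx y hy]
  simp only [← Finset.mul_sum, Finset.sum_sub_distrib]
  rw [sum_usd e hs V l hn hl]
  have h1 : ∑ x ∈ V, ∑ y ∈ V, (if x ∈ l.toFinset then (e x y : ℝ) else 0) =
      ((cc e l.toFinset V : ℤ) : ℝ) := by
    unfold cc
    push_cast
    rw [← Finset.sum_filter_add_sum_filter_not V (fun x => x ∈ l.toFinset)]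
    have h2 : ∑ x ∈ V with ¬ x ∈ l.toFinset,
        ∑ y ∈ V, (if x ∈ l.toFinset then (e x y : ℝ) else 0) = 0 := by
      apply Finset.sum_eq_zero
      intro x hx
      simp [(Finset.mem_filter.1 hx).2]
    have h3 : V.filter (fun x => x ∈ l.toFinset) = l.toFinset := by
      ext a
      rw [Finset.mem_filter]
      exact ⟨fun h => h.2, fun h => ⟨hF h, h⟩⟩
    rw [h2, add_zero, h3]
    refine Finset.sum_congr rfl fun x hx => Finset.sum_congr rfl fun y _ => ?_
    rw [if_pos hx]
  have h2 : ∑ x ∈ V, ∑ y ∈ V, (if y ∈ l.toFinset then (e x y : ℝ) else 0) =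
      ((cc e l.toFinset V : ℤ) : ℝ) := by
    rw [Finset.sum_comm, ← h1]
    exact Finset.sum_congr rfl fun x _ => Finset.sum_congr rfl fun y _ => by rw [hs]
  have h3 : ∑ x ∈ V, ∑ y ∈ V,
      (if x ∈ l.toFinset then (if y ∈ l.toFinset then (e x y : ℝ) else 0) else 0) =
      ((cc e l.toFinset l.toFinset : ℤ) : ℝ) := by
    unfold cc
    push_cast
    have h4 : V.filter (fun x => x ∈ l.toFinset) = l.toFinset := by
      ext a
      rw [Finset.mem_filter]
      exact ⟨fun h => h.2, fun h => ⟨hF h, h⟩⟩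
    have h5 : ∀ x ∈ V, ∑ y ∈ V,
        (if x ∈ l.toFinset then (if y ∈ l.toFinset then (e x y : ℝ) else 0) else 0) =
        if x ∈ l.toFinset then ∑ y ∈ l.toFinset, (e x y : ℝ) else 0 := by
      intro x _
      by_cases hx : x ∈ l.toFinset
      · simp only [hx, if_true]
        rw [← Finset.sum_filter, h4]
      · simp only [hx, if_false, Finset.sum_const_zero]
    rw [Finset.sum_congr rfl h5, ← Finset.sum_filter, h4]
  rw [h1, h2, h3]
  unfold SS
  ring

/-- the averaged change -/
lemma sum_change (e : ι → ι → ℕ) (o : ι → ℕ) (V : Finset ι) (v : ι) :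
    ∑ x ∈ V, ∑ y ∈ V, (e x y : ℝ) *
      (WW e o V v - W (om x y) (delE e x y) (fun a => (o a : ℝ)) V v) =
    PS (DD e o V) V v := by
  unfold DD
  have h1 : (fun l => ∑ x ∈ V, ∑ y ∈ V, (e x y : ℝ) *
      (wt (fun _ => zz) e (fun a => (o a : ℝ)) l -
        wt (om x y) (delE e x y) (fun a => (o a : ℝ)) l)) =
      (fun l => ∑ x ∈ V, (1 : ℝ) * ∑ y ∈ V, (e x y : ℝ) *
      (wt (fun _ => zz) e (fun a => (o a : ℝ)) l -
        wt (om x y) (delE e x y) (fun a => (o a : ℝ)) l)) := by
    funext l
    exact Finset.sum_congr rfl fun x _ => by rw [one_mul]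
  rw [h1, PS_linear V (fun _ => (1 : ℝ)) (fun x l => ∑ y ∈ V, (e x y : ℝ) *
      (wt (fun _ => zz) e (fun a => (o a : ℝ)) l -
        wt (om x y) (delE e x y) (fun a => (o a : ℝ)) l))]
  refine Finset.sum_congr rfl fun x _ => ?_
  rw [one_mul, PS_linear V (fun y => (e x y : ℝ)) (fun y l =>
      (wt (fun _ => zz) e (fun a => (o a : ℝ)) l -
        wt (om x y) (delE e x y) (fun a => (o a : ℝ)) l))]
  refine Finset.sum_congr rfl fun y _ => ?_
  rw [PS_sub]
  unfold WW
  rw [← W_eq_PS, ← W_eq_PS]

end Pool.Agent.A05699
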