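import Pool.Agent.Lib.MP_a05699_co.Average

set_option autoImplicit false
set_option linter.unusedSectionVars false

namespace Pool.Agent.A05699

variable {ι : Type*} [DecidableEq ι]

lemma real_bound {m U C1 C2 : ℤ} (hm : 3 ≤ m) (hU : 2 * m - 2 ≤ U) (h1 : C1 ≤ 3 * m - 2)
    (h2 : C2 ≤ 3 * m - 4) (he : Even C2) :
    0 ≤ (2 + zz) * (U : ℝ) - 2 * zz * (C1 : ℝ) - (1 - zz) * (C2 : ℝ) := by
  have z1 := zz_lo
  have z2 := zz_hi
  by_cases h : m = 3
  · subst h
    have h3 : C2 ≤ 4 := by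
      obtain ⟨r, hr⟩ := he
      omega
    have hU' : (4 : ℝ) ≤ U := by exact_mod_cast hU
    have h1' : (C1 : ℝ) ≤ 7 := by exact_mod_cast h1
    have h2' : (C2 : ℝ) ≤ 4 := by exact_mod_cast h3
    nlinarith
  · have hm' : (4 : ℝ) ≤ m := by
      have : (4 : ℤ) ≤ m := by omega
      exact_mod_cast this
    have hU' : 2 * (m : ℝ) - 2 ≤ U := by exact_mod_cast hU
    have h1' : (C1 : ℝ) ≤ 3 * m - 2 := by exact_mod_cast h1
    have h2' : (C2 : ℝ) ≤ 3 * m - 4 := by exact_mod_cast h2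
    have a1 := mul_nonneg (by linarith : (0 : ℝ) ≤ 2 + zz) (sub_nonneg.2 hU')
    have a2 := mul_nonneg (by linarith : (0 : ℝ) ≤ zz) (sub_nonneg.2 h1')
    have a3 := mul_nonneg (by linarith : (0 : ℝ) ≤ 1 - zz) (sub_nonneg.2 h2')
    have a4 := mul_nonneg (by linarith : (0 : ℝ) ≤ 1 - zz) (sub_nonneg.2 hm')
    nlinarith

lemma real_bound' {m U C1 C2 : ℤ} (hm : 3 ≤ m) (hU : 2 * m - 2 ≤ U) (h1 : C1 ≤ 3 * m - 3)
    (h2 : C2 ≤ 3 * m - 4) (he : Even C2) :
    4 - 4 * zz ≤ (2 + zz) * (U : ℝ) - 2 * zz * (C1 : ℝ) - (1 - zz) * (C2 : ℝ) := by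
  have z1 := zz_lo
  have z2 := zz_hi
  by_cases h : m = 3
  · subst h
    have h3 : C2 ≤ 4 := by
      obtain ⟨r, hr⟩ := he
      omega
    have hU' : (4 : ℝ) ≤ U := by exact_mod_cast hU
    have h1' : (C1 : ℝ) ≤ 6 := by exact_mod_cast h1
    have h2' : (C2 : ℝ) ≤ 4 := by exact_mod_cast h3
    nlinarith
  · have hm' : (4 : ℝ) ≤ m := by
      have : (4 : ℤ) ≤ m := by omega
      exact_mod_cast this
    have hU' : 2 * (m : ℝ) - 2 ≤ U := by exact_mod_cast hU
    have h1' : (C1 : ℝ) ≤ 3 * m - 3 := by exact_mod_cast h1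
    have h2' : (C2 : ℝ) ≤ 3 * m - 4 := by exact_mod_cast h2
    have a1 := mul_nonneg (by linarith : (0 : ℝ) ≤ 2 + zz) (sub_nonneg.2 hU')
    have a2 := mul_nonneg (by linarith : (0 : ℝ) ≤ zz) (sub_nonneg.2 h1')
    have a3 := mul_nonneg (by linarith : (0 : ℝ) ≤ 1 - zz) (sub_nonneg.2 h2')
    have a4 := mul_nonneg (by linarith : (0 : ℝ) ≤ 1 - zz) (sub_nonneg.2 hm')
    nlinarith

lemma real_bound'' {m U C : ℤ} (hm : 1 ≤ m) (hU : 2 * m - 2 ≤ U) (h1 : C ≤ 3 * m - 3) :
    0 ≤ (2 + zz) * (U : ℝ) - 2 * zz * (C : ℝ) - (1 - zz) * (C : ℝ) := by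
  have z1 := zz_lo
  have z2 := zz_hi
  have hm' : (1 : ℝ) ≤ m := by exact_mod_cast hm
  have hU' : 2 * (m : ℝ) - 2 ≤ U := by exact_mod_cast hU
  have h1' : (C : ℝ) ≤ 3 * m - 3 := by exact_mod_cast h1
  have a1 := mul_nonneg (by linarith : (0 : ℝ) ≤ 2 + zz) (sub_nonneg.2 hU')
  have a2 := mul_nonneg (by linarith : (0 : ℝ) ≤ 1 + zz) (sub_nonneg.2 h1')
  have a4 := mul_nonneg (by linarith : (0 : ℝ) ≤ 1 - zz) (sub_nonneg.2 hm')
  nlinarith

/-- irreducible states -/
structure Irr (e : ι → ι → ℕ) (o : ι → ℕ) (V : Finset ι) (v : ι) (k : ℤ) : Prop where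
  net : Net e o V
  mem : v ∈ V
  deg : cc e {v} V = 2
  out : o v = 0
  hk : k = 0 ∨ k = 1 ∨ k = 2
  al : ∀ F ⊆ V, v ∈ F → del e o V F ≤ k
  al' : ∀ F ⊆ V, F ≠ V → v ∈ F → del e o V F ≤ k - 1
  sp4 : ∀ F ⊆ V, F ≠ V → 2 ≤ F.card → cc e F F + 4 ≤ 3 * F.card
  top : del e o V V = k

/-- degree sums with some vertices of degree at most two -/
lemma Net.deg_sum {e : ι → ι → ℕ} {o : ι → ℕ} {V : Finset ι} (hn : Net e o V)
    {F T : Finset ι} (hF : F ⊆ V) (hT : T ⊆ F) (h2 : ∀ a ∈ T, cc e {a} V ≤ 2) :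
    cc e F V ≤ 3 * F.card - T.card := by
  rw [cc_sdiff_left e V hT, cc_eq_sum_single e T, cc_eq_sum_single e (F \ T)]
  have h3 : ∑ x ∈ T, cc e {x} V ≤ ∑ x ∈ T, (2 : ℤ) := Finset.sum_le_sum h2
  have h4 : ∑ x ∈ F \ T, cc e {x} V ≤ ∑ x ∈ F \ T, (3 : ℤ) := by
    refine Finset.sum_le_sum fun x hx => ?_
    have h5 := hn.deg x (hF (Finset.mem_sdiff.1 hx).1)
    have h6 : (0 : ℤ) ≤ o x := by positivity
    linarith
  simp only [Finset.sum_const, nsmul_eq_mul] at h3 h4
  have h5 : ((F \ T).card : ℤ) = F.card - T.card := by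
    rw [Finset.card_sdiff_of_subset hT]
    push_cast [Finset.card_le_card hT]
    rfl
  rw [h5] at h4
  linarith

lemma Net.deg_of_out {e : ι → ι → ℕ} {o : ι → ℕ} {V : Finset ι} (hn : Net e o V)
    {a : ι} (ha : a ∈ V) (ho : o a ≠ 0) : cc e {a} V ≤ 2 := by
  have h1 := hn.deg a ha
  have h2 : (1 : ℤ) ≤ o a := by omega
  linarith

lemma Irr.sp4' {e : ι → ι → ℕ} {o : ι → ℕ} {V : Finset ι} {v : ι}
    (h : Irr e o V v 0) {F : Finset ι} (hF : F ⊆ V) (h2 : 2 ≤ F.card) :
    cc e F F + 4 ≤ 3 * F.card := by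
  by_cases hFV : F = V
  · subst hFV
    have h3 := h.top
    have h4 := h.net.sp F (Finset.Subset.refl _) ⟨v, h.mem⟩
    obtain ⟨r, hr⟩ := cc_even h.net.symm h.net.irr F
    unfold del at h3
    omega
  · exact h.sp4 F hF hFV h2

lemma SS_nonneg {e : ι → ι → ℕ} {o : ι → ℕ} {V : Finset ι} {v : ι} {k : ℤ}
    (h : Irr e o V v k) {l : List ι} (hl : Val V v l) (h3 : 3 ≤ l.length)
    (hw : wt (fun _ => zz) e (fun a => (o a : ℝ)) l ≠ 0) : 0 ≤ SS e V l := by
  obtain ⟨t, rfl, hnd, hm⟩ := hl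
  have hF : (v :: t).toFinset ⊆ V := by
    intro a ha
    exact hm a (List.mem_toFinset.1 ha)
  have hcard : (v :: t).toFinset.card = (v :: t).length := List.toFinset_card_of_nodup hnd
  have hU := usum_ge hw
  obtain ⟨u, t', rfl⟩ : ∃ u t', t = u :: t' := by
    cases t with
    | nil => simp at h3
    | cons u t' => exact ⟨u, t', rfl⟩
  have hw' : wt (fun _ => zz) e (fun a => (o a : ℝ)) (u :: t') ≠ 0 := by
    simp only [wt] at hw
    exact right_ne_zero_of_mul hw
  obtain ⟨w, hwm, how⟩ := wt_exists_exit hw'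
  have hwv : w ≠ v := by
    rintro rfl
    exact (List.nodup_cons.1 hnd).1 hwm
  have hwV : w ∈ V := hm w (List.mem_cons_of_mem _ hwm)
  have hC1 : cc e (v :: u :: t').toFinset V ≤ 3 * (v :: u :: t').toFinset.card -
      ({v, w} : Finset ι).card := by
    refine h.net.deg_sum hF ?_ ?_
    · intro a ha
      rw [Finset.mem_insert, Finset.mem_singleton] at ha
      rw [List.mem_toFinset]
      rcases ha with rfl | rfl
      · simp
      · exact List.mem_cons_of_mem _ hwm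
    · intro a ha
      rw [Finset.mem_insert, Finset.mem_singleton] at ha
      rcases ha with rfl | rfl
      · exact h.deg.le
      · exact h.net.deg_of_out hwV how
  rw [Finset.card_pair hwv.symm, hcard] at hC1
  generalize hLL : (v :: u :: t') = L at *
  unfold SS
  by_cases hFV : L.toFinset = V
  · have h4 := h.net.sp L.toFinset hF ⟨v, by rw [← hLL]; simp⟩
    rw [hcard] at h4
    rw [← hFV] at hC1 ⊢
    have := real_bound'' (m := L.length) (U := usum e L) (C := cc e L.toFinset L.toFinset)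
      (by omega) (by omega) (by omega)
    push_cast at this ⊢
    linarith
  · have h4 := h.sp4 L.toFinset hF hFV (by omega)
    rw [hcard] at h4
    have := real_bound (m := L.length) (U := usum e L) (C1 := cc e L.toFinset V)
      (C2 := cc e L.toFinset L.toFinset)
      (by omega) (by omega) (by omega) (by omega) (cc_even h.net.symm h.net.irr _)
    push_cast at this ⊢
    linarith

lemma SS_ge {e : ι → ι → ℕ} {o : ι → ℕ} {V : Finset ι} {v u : ι}
    (h : Irr e o V v 0) {t : List ι} (hl : Val V v (v :: u :: t)) (ht : t ≠ [])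
    (hu : o u ≠ 0)
    (hw : wt (fun _ => zz) e (fun a => (o a : ℝ)) (v :: u :: t) ≠ 0) :
    4 - 4 * zz ≤ SS e V (v :: u :: t) := by
  obtain ⟨t1, ht1, hnd, hm⟩ := hl
  have hF : (v :: u :: t).toFinset ⊆ V := by
    intro a ha
    exact hm a (List.mem_toFinset.1 ha)
  have hcard : (v :: u :: t).toFinset.card = (v :: u :: t).length :=
    List.toFinset_card_of_nodup hnd
  have hU := usum_ge hw
  have h3 : 3 ≤ (v :: u :: t).length := by
    have := List.length_pos_iff.2 ht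
    simp only [List.length_cons]
    omega
  obtain ⟨x, t', rfl⟩ : ∃ x t', t = x :: t' := by
    cases t with
    | nil => exact absurd rfl ht
    | cons x t' => exact ⟨x, t', rfl⟩
  have hw' : wt (fun _ => zz) e (fun a => (o a : ℝ)) (x :: t') ≠ 0 := by
    simp only [wt] at hw
    exact right_ne_zero_of_mul (right_ne_zero_of_mul hw)
  obtain ⟨w, hwm, how⟩ := wt_exists_exit hw'
  have hwv : w ≠ v := by
    rintro rfl
    exact (List.nodup_cons.1 hnd).1 (List.mem_cons_of_mem _ hwm)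
  have hwu : w ≠ u := by
    rintro rfl
    exact (List.nodup_cons.1 (List.nodup_cons.1 hnd).2).1 hwm
  have huv : u ≠ v := by
    rintro rfl
    exact (List.nodup_cons.1 hnd).1 (by simp)
  have hwV : w ∈ V := hm w (List.mem_cons_of_mem _ (List.mem_cons_of_mem _ hwm))
  have huV : u ∈ V := hm u (by simp)
  have hC1 : cc e (v :: u :: x :: t').toFinset V ≤ 3 * (v :: u :: x :: t').toFinset.card -
      ({v, u, w} : Finset ι).card := by
    refine h.net.deg_sum hF ?_ ?_
    · intro a ha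
      rw [Finset.mem_insert, Finset.mem_insert, Finset.mem_singleton] at ha
      rw [List.mem_toFinset]
      rcases ha with rfl | rfl | rfl
      · simp
      · simp
      · exact List.mem_cons_of_mem _ (List.mem_cons_of_mem _ hwm)
    · intro a ha
      rw [Finset.mem_insert, Finset.mem_insert, Finset.mem_singleton] at ha
      rcases ha with rfl | rfl | rfl
      · exact h.deg.le
      · exact h.net.deg_of_out huV hu
      · exact h.net.deg_of_out hwV how
  have hc3 : ({v, u, w} : Finset ι).card = 3 :=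
    Finset.card_eq_three.2 ⟨v, u, w, huv.symm, hwv.symm, hwu.symm, rfl⟩
  rw [hc3, hcard] at hC1
  generalize hLL : (v :: u :: x :: t') = L at *
  unfold SS
  have h4 := h.sp4' hF (by omega)
  rw [hcard] at h4
  have := real_bound' (m := L.length) (U := usum e L) (C1 := cc e L.toFinset V)
    (C2 := cc e L.toFinset L.toFinset)
    (by omega) (by omega) (by push_cast at hC1; omega) (by omega)
    (cc_even h.net.symm h.net.irr _)
  push_cast at this ⊢
  linarith

end Pool.Agent.A05699
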