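import Pool.Agent.Lib.MP_a05699_co.Cluster

set_option autoImplicit false
set_option linter.unusedSectionVars false

namespace Pool.Agent.A05699

variable {Γ : Type*} [Group Γ] [DecidableEq Γ]

/-- adjacency in the Cayley graph -/
def ce (S : Finset Γ) (x y : Γ) : ℕ := if x⁻¹ * y ∈ S then 1 else 0

lemma ce_symm {S : Finset Γ} (hS : ∀ s ∈ S, s⁻¹ ∈ S) (x y : Γ) : ce S x y = ce S y x := by
  have h : ∀ x y : Γ, x⁻¹ * y ∈ S → y⁻¹ * x ∈ S := by
    intro x y hxy
    have := hS _ hxy
    simpa using this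
  unfold ce
  by_cases h1 : x⁻¹ * y ∈ S
  · rw [if_pos h1, if_pos (h x y h1)]
  · rw [if_neg h1, if_neg (fun h2 => h1 (h y x h2))]

lemma ce_irr {S : Finset Γ} (h1 : (1 : Γ) ∉ S) (x : Γ) : ce S x x = 0 := by
  simp [ce, h1]

lemma sum_ce {M : Type*} [Semiring M] (S : Finset Γ) (X : Finset Γ) (v : Γ) (φ : Γ → M) :
    ∑ u ∈ X, (ce S v u : M) * φ u = ∑ s ∈ S, if v * s ∈ X then φ (v * s) else 0 := by
  have h1 : ∀ u ∈ X, (ce S v u : M) * φ u = if v⁻¹ * u ∈ S then φ u else 0 := by
    intro u _
    unfold ce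
    split_ifs <;> simp
  rw [Finset.sum_congr rfl h1, ← Finset.sum_filter, ← Finset.sum_filter]
  refine Finset.sum_nbij' (fun u => v⁻¹ * u) (fun s => v * s) ?_ ?_ ?_ ?_ ?_
  · intro u hu
    rw [Finset.mem_filter] at hu ⊢
    refine ⟨hu.2, ?_⟩
    simpa using hu.1
  · intro s hs
    rw [Finset.mem_filter] at hs ⊢
    refine ⟨hs.2, ?_⟩
    simpa using hs.1
  · intro u _; simp
  · intro s _; simp
  · intro u _; simp

lemma cc_single_ce (S : Finset Γ) (X : Finset Γ) (v : Γ) :
    cc (ce S) {v} X = ((S.filter (fun s => v * s ∈ X)).card : ℤ) := by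
  rw [cc_single_left]
  have := sum_ce (M := ℤ) S X v (fun _ => 1)
  simp only [mul_one] at this
  rw [this, Finset.card_filter]
  push_cast
  rfl

/-- boundary size -/
def bdy (S : Finset Γ) (F : Finset Γ) : ℤ := S.card * F.card - cc (ce S) F F

lemma bdy_eq (S : Finset Γ) (F : Finset Γ) :
    bdy S F = ∑ x ∈ F, ((S.filter (fun s => x * s ∉ F)).card : ℤ) := by
  unfold bdy
  rw [cc_eq_sum_single]
  have h : ∀ x ∈ F, ((S.filter (fun s => x * s ∉ F)).card : ℤ) =
      S.card - cc (ce S) {x} F := by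
    intro x _
    rw [cc_single_ce]
    have := Finset.card_filter_add_card_filter_not (s := S) (fun s => x * s ∈ F)
    omega
  rw [Finset.sum_congr rfl h, Finset.sum_sub_distrib]
  simp only [Finset.sum_const, nsmul_eq_mul]
  ring

lemma bdy_nonneg (S : Finset Γ) (F : Finset Γ) : 0 ≤ bdy S F := by
  rw [bdy_eq]
  positivity

lemma bdy_pos [Infinite Γ] {S : Finset Γ} (hgen : Subgroup.closure (S : Set Γ) = ⊤)
    (hS : ∀ s ∈ S, s⁻¹ ∈ S)
    {F : Finset Γ} (hF : F.Nonempty) : 1 ≤ bdy S F := by
  by_contra hlt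
  have h0 : bdy S F = 0 := by
    have := bdy_nonneg S F
    omega
  rw [bdy_eq] at h0
  rw [Finset.sum_eq_zero_iff_of_nonneg (fun _ _ => by positivity)] at h0
  have h1 : ∀ x ∈ F, ∀ s ∈ S, x * s ∈ F := by
    intro x hx s hs
    have h2 := h0 x hx
    have h3 : (S.filter (fun s => x * s ∉ F)) = ∅ := by
      rw [← Finset.card_eq_zero]
      exact_mod_cast h2
    by_contra hxs
    have : s ∈ (S.filter (fun s => x * s ∉ F)) := by simp [hs, hxs]
    rw [h3] at this
    simp at this
  have h2 : ∀ g : Γ, ∀ x ∈ F, x * g ∈ F := by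
    intro g
    have hg : g ∈ Subgroup.closure (S : Set Γ) := by rw [hgen]; trivial
    induction hg using Subgroup.closure_induction with
    | mem s hs => intro x hx; exact h1 x hx s hs
    | one => intro x hx; simpa using hx
    | mul a b _ _ iha ihb => intro x hx; rw [← mul_assoc]; exact ihb _ (iha x hx)
    | inv a _ iha =>
      -- the map `x ↦ x * a` is injective on the finite set `F`, hence surjective
      intro x hx
      have hinj : Set.InjOn (fun y => y * a) (F : Set Γ) := fun y _ z _ h => by simpa using h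
      have hsurj := Finset.surj_on_of_inj_on_of_card_le (s := F) (t := F)
        (fun y _ => y * a) (fun y hy => iha y hy) (fun y z hy hz h => by simpa using h)
        (le_refl _) x hx
      obtain ⟨y, hy, hxy⟩ := hsurj
      rw [hxy]
      simpa using hy
  obtain ⟨x, hx⟩ := hF
  have h3 : (Set.univ : Set Γ) ⊆ (F : Set Γ) := by
    intro g _
    have := h2 (x⁻¹ * g) x hx
    simpa using this
  exact Set.infinite_univ (F.finite_toSet.subset h3)

lemma bdy_image (S : Finset Γ) (F : Finset Γ) (g : Γ) :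
    bdy S (F.image (fun x => g * x)) = bdy S F := by
  rw [bdy_eq, bdy_eq, Finset.sum_image (fun x _ y _ h => by simpa using h)]
  refine Finset.sum_congr rfl fun x _ => ?_
  congr 2
  ext s
  rw [Finset.mem_filter, Finset.mem_filter]
  constructor
  · rintro ⟨h1, h2⟩
    refine ⟨h1, fun h3 => h2 ?_⟩
    rw [Finset.mem_image]
    exact ⟨x * s, h3, by group⟩
  · rintro ⟨h1, h2⟩
    refine ⟨h1, fun h3 => h2 ?_⟩
    rw [Finset.mem_image] at h3
    obtain ⟨y, hy, hxy⟩ := h3
    have : x * s = y := by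
      have h4 : g * (x * s) = g * y := by rw [hxy]; group
      exact mul_left_cancel h4
    rwa [this]

lemma bdy_submod {S : Finset Γ} (hS : ∀ s ∈ S, s⁻¹ ∈ S) (F G : Finset Γ) :
    bdy S (F ∪ G) + bdy S (F ∩ G) ≤ bdy S F + bdy S G := by
  have hs := ce_symm hS
  set A := F \ G with hA
  set B := F ∩ G with hB
  set C := G \ F with hC
  have hF : F = A ∪ B := by
    ext a; simp only [hA, hB, Finset.mem_union, Finset.mem_sdiff, Finset.mem_inter]; tauto
  have hG : G = C ∪ B := by
    ext a; simp only [hC, hB, Finset.mem_union, Finset.mem_sdiff, Finset.mem_inter]; tauto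
  have hU : F ∪ G = A ∪ (C ∪ B) := by
    ext a
    simp only [hA, hC, hB, Finset.mem_union, Finset.mem_sdiff, Finset.mem_inter]; tauto
  have dAB : Disjoint A B := by
    rw [Finset.disjoint_left]
    intro a ha hb
    simp only [hA, hB, Finset.mem_sdiff, Finset.mem_inter] at ha hb
    exact ha.2 hb.2
  have dCB : Disjoint C B := by
    rw [Finset.disjoint_left]
    intro a ha hb
    simp only [hC, hB, Finset.mem_sdiff, Finset.mem_inter] at ha hb
    exact ha.2 hb.1
  have dAC : Disjoint A C := by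
    rw [Finset.disjoint_left]
    intro a ha hb
    simp only [hC, hA, Finset.mem_sdiff] at ha hb
    exact ha.2 hb.1
  have dACB : Disjoint A (C ∪ B) := Finset.disjoint_union_right.2 ⟨dAC, dAB⟩
  have h1 : bdy S F = S.card * (A.card + B.card) - (cc (ce S) A A + 2 * cc (ce S) A B +
      cc (ce S) B B) := by
    unfold bdy
    rw [hF, cc_union_union hs dAB, card_union_int dAB]
  have h2 : bdy S G = S.card * (C.card + B.card) - (cc (ce S) C C + 2 * cc (ce S) C B +
      cc (ce S) B B) := by
    unfold bdy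
    rw [hG, cc_union_union hs dCB, card_union_int dCB]
  have h3 : bdy S (F ∪ G) = S.card * (A.card + (C.card + B.card)) - (cc (ce S) A A +
      2 * (cc (ce S) A C + cc (ce S) A B) + (cc (ce S) C C + 2 * cc (ce S) C B +
      cc (ce S) B B)) := by
    unfold bdy
    rw [hU, cc_union_union hs dACB, cc_union_union hs dCB, card_union_int dACB,
      card_union_int dCB, cc_union_right _ _ dCB]
  have h4 : bdy S B = S.card * B.card - cc (ce S) B B := rfl
  have h5 := cc_nonneg (ce S) A C
  rw [h1, h2, h3, h4]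
  linarith

/-- the edge boundary of every nonempty finite set is at least `3` -/
lemma bdy_ge_three [Infinite Γ] {S : Finset Γ} (hcard : S.card = 3) (h1S : (1 : Γ) ∉ S)
    (hS : ∀ s ∈ S, s⁻¹ ∈ S) (hgen : Subgroup.closure (S : Set Γ) = ⊤)
    {F : Finset Γ} (hF : F.Nonempty) : 3 ≤ bdy S F := by
  -- minimise the boundary, then the cardinality
  obtain ⟨F1, hF1, hmin1⟩ := WellFounded.has_min
    (measure (fun F : Finset Γ => (bdy S F).toNat)).wf {F | F.Nonempty} ⟨F, hF⟩
  have hmin1' : ∀ G : Finset Γ, G.Nonempty → bdy S F1 ≤ bdy S G := by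
    intro G hG
    have h2 := hmin1 G hG
    have h3 : ¬ (bdy S G).toNat < (bdy S F1).toNat := h2
    have h4 := bdy_nonneg S G
    have h5 := bdy_nonneg S F1
    omega
  obtain ⟨F2, hF2, hmin2⟩ := WellFounded.has_min
    (measure (fun F : Finset Γ => F.card)).wf {G | G.Nonempty ∧ bdy S G = bdy S F1}
    ⟨F1, hF1, rfl⟩
  have hmin2' : ∀ G : Finset Γ, G.Nonempty → bdy S G = bdy S F1 → F2.card ≤ G.card := by
    intro G hG hG'
    have h2 := hmin2 G ⟨hG, hG'⟩
    have h3 : ¬ G.card < F2.card := h2
    omega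
  refine le_trans ?_ (hmin1' F hF)
  -- translate so that it contains `1`
  obtain ⟨⟨x0, hx0⟩, hbF2⟩ := hF2
  set F0 := F2.image (fun x => x0⁻¹ * x) with hF0
  have hb0 : bdy S F0 = bdy S F1 := by rw [hF0, bdy_image, hbF2]
  have hc0 : F0.card = F2.card :=
    Finset.card_image_of_injective _ (fun x y h => by simpa using h)
  have h10 : (1 : Γ) ∈ F0 := by
    rw [hF0, Finset.mem_image]
    exact ⟨x0, hx0, by simp⟩
  have hclosed : ∀ x ∈ F0, F0.image (fun y => x * y) = F0 := by
    intro x hx
    set G := F0.image (fun y => x * y) with hG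
    have hxG : x ∈ G := by
      rw [hG, Finset.mem_image]
      exact ⟨1, h10, by simp⟩
    have hbG : bdy S G = bdy S F1 := by rw [hG, bdy_image, hb0]
    have hcG : G.card = F0.card :=
      Finset.card_image_of_injective _ (fun x y h => by simpa using h)
    have hI : (F0 ∩ G).Nonempty := ⟨x, Finset.mem_inter.2 ⟨hx, hxG⟩⟩
    have h2 := bdy_submod hS F0 G
    have h3 := hmin1' (F0 ∩ G) hI
    have h4 := hmin1' (F0 ∪ G) ⟨x, Finset.mem_union_left _ hx⟩
    have h5 : bdy S (F0 ∩ G) = bdy S F1 := by omega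
    have h6 := hmin2' _ hI h5
    have h7 : F0 ∩ G = F0 := by
      apply Finset.eq_of_subset_of_card_le Finset.inter_subset_left
      rw [hc0]; exact h6
    have h8 : F0 ⊆ G := by
      rw [← h7]; exact Finset.inter_subset_right
    exact (Finset.eq_of_subset_of_card_le h8 hcG.le).symm
  have hmem : ∀ x ∈ F0, ∀ s, x * s ∈ F0 ↔ s ∈ F0 := by
    intro x hx s
    constructor
    · intro h
      rw [← hclosed x hx, Finset.mem_image] at h
      obtain ⟨y, hy, hxy⟩ := h
      have : y = s := by simpa using hxy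
      rwa [← this]
    · intro h
      rw [← hclosed x hx, Finset.mem_image]
      exact ⟨s, h, rfl⟩
  have hb : bdy S F0 = F0.card * ((S.filter (fun s => s ∉ F0)).card : ℤ) := by
    rw [bdy_eq]
    rw [Finset.sum_congr rfl (fun x hx => by
      have : S.filter (fun s => x * s ∉ F0) = S.filter (fun s => s ∉ F0) :=
        Finset.filter_congr fun s _ => by rw [hmem x hx]
      rw [this])]
    simp
  have hj := Finset.card_filter_add_card_filter_not (s := S) (fun s => s ∈ F0)
  have hins : (insert 1 (S.filter (fun s => s ∈ F0))).card ≤ F0.card := by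
    apply Finset.card_le_card
    intro a ha
    rw [Finset.mem_insert] at ha
    rcases ha with rfl | ha
    · exact h10
    · exact (Finset.mem_filter.1 ha).2
  rw [Finset.card_insert_of_notMem (by simp [h1S])] at hins
  have hpos := bdy_pos hgen hS (F := F0) ⟨1, h10⟩
  rw [← hb0, hb]
  rw [hb] at hpos
  rw [hcard] at hj
  generalize (S.filter (fun s => s ∉ F0)).card = j at *
  generalize (S.filter (fun s => s ∈ F0)).card = i at *
  generalize F0.card = m at *
  have hj3 : j = 0 ∨ j = 1 ∨ j = 2 ∨ j = 3 := by omega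
  rcases hj3 with rfl | rfl | rfl | rfl
  · simp at hpos
  · push_cast; omega
  · push_cast; omega
  · push_cast; omega

lemma sp_cayley [Infinite Γ] {S : Finset Γ} (hcard : S.card = 3) (h1S : (1 : Γ) ∉ S)
    (hS : ∀ s ∈ S, s⁻¹ ∈ S) (hgen : Subgroup.closure (S : Set Γ) = ⊤)
    {F : Finset Γ} (hF : F.Nonempty) : cc (ce S) F F + 3 ≤ 3 * F.card := by
  have := bdy_ge_three hcard h1S hS hgen hF
  unfold bdy at this
  rw [hcard] at this
  push_cast at this
  linarith

end Pool.Agent.A05699
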