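import Pool.Agent.Lib.MP_a05699_co.Steps

set_option autoImplicit false
set_option linter.unusedSectionVars false

namespace Pool.Agent.A05699

variable {ι : Type*} [DecidableEq ι]

/-- contracting `F` to its element `f` -/
def conE (e : ι → ι → ℕ) (F : Finset ι) (f : ι) (a b : ι) : ℕ :=
  if a = b then 0 else if a = f then ∑ x ∈ F, e x b else if b = f then ∑ x ∈ F, e a x else e a b

def conO (o : ι → ℕ) (F : Finset ι) (f : ι) (a : ι) : ℕ :=
  if a = f then ∑ x ∈ F, o x else o a

lemma conE_symm {e : ι → ι → ℕ} (hs : ∀ x y, e x y = e y x) (F : Finset ι) (f : ι) (a b : ι) :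
    conE e F f a b = conE e F f b a := by
  unfold conE
  by_cases hab : a = b
  · simp [hab]
  · have hba : b ≠ a := fun h => hab h.symm
    by_cases ha : a = f
    · have hb : b ≠ f := fun h => hab (ha.trans h.symm)
      simp only [if_neg hab, if_neg hba, if_pos ha, if_neg hb]
      exact Finset.sum_congr rfl fun x _ => hs _ _
    · by_cases hb : b = f
      · simp only [if_neg hab, if_neg hba, if_neg ha, if_pos hb]
        exact Finset.sum_congr rfl fun x _ => hs _ _
      · simp only [if_neg hab, if_neg hba, if_neg ha, if_neg hb]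
        exact hs _ _

lemma conE_irr (e : ι → ι → ℕ) (F : Finset ι) (f : ι) (a : ι) : conE e F f a a = 0 := by
  simp [conE]

lemma conE_out {e : ι → ι → ℕ} (hi : ∀ x, e x x = 0) {F : Finset ι} {f a b : ι}
    (hf : f ∈ F) (ha : a ∉ F) (hb : b ∉ F) : conE e F f a b = e a b := by
  unfold conE
  have h1 : a ≠ f := fun h => ha (h ▸ hf)
  have h2 : b ≠ f := fun h => hb (h ▸ hf)
  by_cases hab : a = b
  · subst hab; simp [hi]
  · simp [hab, h1, h2]

lemma conE_right {e : ι → ι → ℕ} {F : Finset ι} {f a : ι}
    (hf : f ∈ F) (ha : a ∉ F) : conE e F f a f = ∑ x ∈ F, e a x := by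
  unfold conE
  have h1 : a ≠ f := fun h => ha (h ▸ hf)
  simp [h1]

lemma conE_left {e : ι → ι → ℕ} {F : Finset ι} {f a : ι}
    (hf : f ∈ F) (ha : a ∉ F) : conE e F f f a = ∑ x ∈ F, e x a := by
  unfold conE
  have h1 : f ≠ a := fun h => ha (h ▸ hf)
  simp [h1]

lemma conO_out {o : ι → ℕ} {F : Finset ι} {f a : ι} (hf : f ∈ F) (ha : a ∉ F) :
    conO o F f a = o a := by
  have h1 : a ≠ f := fun h => ha (h ▸ hf)
  simp [conO, h1]

lemma con_cc_out {e : ι → ι → ℕ} (hi : ∀ x, e x x = 0) {F : Finset ι} {f : ι}
    (hf : f ∈ F) {A B : Finset ι} (hA : Disjoint A F) (hB : Disjoint B F) :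
    cc (conE e F f) A B = cc e A B := by
  unfold cc
  refine Finset.sum_congr rfl fun a ha => Finset.sum_congr rfl fun b hb => ?_
  rw [conE_out hi hf (Finset.disjoint_left.1 hA ha) (Finset.disjoint_left.1 hB hb)]

lemma con_cc_right {e : ι → ι → ℕ} {F : Finset ι} {f : ι}
    (hf : f ∈ F) {A : Finset ι} (hA : Disjoint A F) :
    cc (conE e F f) A {f} = cc e A F := by
  unfold cc
  refine Finset.sum_congr rfl fun a ha => ?_
  rw [Finset.sum_singleton, conE_right hf (Finset.disjoint_left.1 hA ha)]
  push_cast
  rfl

lemma con_cc_left {e : ι → ι → ℕ} (hs : ∀ x y, e x y = e y x) {F : Finset ι} {f : ι}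
    (hf : f ∈ F) {A : Finset ι} (hA : Disjoint A F) :
    cc (conE e F f) {f} A = cc e F A := by
  rw [cc_comm (conE_symm hs F f), con_cc_right hf hA, cc_comm hs]

lemma con_oo_out {o : ι → ℕ} {F : Finset ι} {f : ι}
    (hf : f ∈ F) {A : Finset ι} (hA : Disjoint A F) :
    oo (conO o F f) A = oo o A := by
  unfold oo
  refine Finset.sum_congr rfl fun a ha => ?_
  rw [conO_out hf (Finset.disjoint_left.1 hA ha)]

lemma con_oo_f {o : ι → ℕ} {F : Finset ι} {f : ι} : oo (conO o F f) {f} = oo o F := by
  unfold oo
  simp [conO]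

lemma con_cc_V {e : ι → ι → ℕ} (hi : ∀ x, e x x = 0)
    {V F : Finset ι} {f : ι} (hf : f ∈ F) (hF : F ⊆ V) {A : Finset ι} (hA : Disjoint A F) :
    cc (conE e F f) A ({f} ∪ (V \ F)) = cc e A V := by
  have hd : Disjoint {f} (V \ F) := by simp [hf]
  rw [cc_union_right _ _ hd, con_cc_right hf hA, con_cc_out hi hf hA Finset.sdiff_disjoint,
    cc_sdiff_right e A hF]

lemma con_cc_fV {e : ι → ι → ℕ} (hs : ∀ x y, e x y = e y x)
    {V F : Finset ι} {f : ι} (hf : f ∈ F) :
    cc (conE e F f) {f} ({f} ∪ (V \ F)) = cc e F (V \ F) := by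
  have hd : Disjoint {f} (V \ F) := by simp [hf]
  rw [cc_union_right _ _ hd, con_cc_left hs hf Finset.sdiff_disjoint,
    cc_self_single (conE_irr e F f), zero_add]

/-- value of `δ` for the contracted network -/
lemma con_del_out {e : ι → ι → ℕ} (hi : ∀ x, e x x = 0) (o : ι → ℕ)
    {V F : Finset ι} {f : ι} (hf : f ∈ F) (hF : F ⊆ V) {A : Finset ι} (hA : Disjoint A F) :
    del (conE e F f) (conO o F f) ({f} ∪ (V \ F)) A = del e o V A := by
  unfold del
  rw [con_oo_out hf hA, con_cc_V hi hf hF hA, con_cc_out hi hf hA hA]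

lemma con_del_in {e : ι → ι → ℕ} (hs : ∀ x y, e x y = e y x) (hi : ∀ x, e x x = 0) (o : ι → ℕ)
    {V F : Finset ι} {f : ι} (hf : f ∈ F) (hF : F ⊆ V) {A : Finset ι} (hA : Disjoint A F)
    (hcut : cc e F F + 3 = 3 * F.card) :
    del (conE e F f) (conO o F f) ({f} ∪ (V \ F)) ({f} ∪ A) = del e o V (F ∪ A) := by
  have hd : Disjoint {f} A := by
    simp only [Finset.disjoint_singleton_left]
    exact fun h => Finset.disjoint_left.1 hA h hf
  rw [del_union (conE_symm hs F f) _ _ hd, del_union hs o V hA.symm, con_del_out hi o hf hF hA,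
    con_cc_left hs hf hA]
  unfold del
  rw [con_oo_f, con_cc_fV hs hf, cc_self_single (conE_irr e F f), cc_sdiff_right e F hF]
  simp only [Finset.card_singleton]
  push_cast
  linarith

lemma con_cc_in {e : ι → ι → ℕ} (hs : ∀ x y, e x y = e y x) (hi : ∀ x, e x x = 0)
    {F : Finset ι} {f : ι} (hf : f ∈ F) {A : Finset ι} (hA : Disjoint A F)
    (hcut : cc e F F + 3 = 3 * F.card) :
    cc (conE e F f) ({f} ∪ A) ({f} ∪ A) = cc e (F ∪ A) (F ∪ A) + 3 - 3 * F.card := by
  have hd : Disjoint {f} A := by
    simp only [Finset.disjoint_singleton_left]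
    exact fun h => Finset.disjoint_left.1 hA h hf
  rw [cc_union_union (conE_symm hs F f) hd, cc_union_union hs hA.symm, con_cc_left hs hf hA,
    con_cc_out hi hf hA hA, cc_self_single (conE_irr e F f)]
  linarith

/-- each vertex of a tight set has at least two neighbours inside -/
lemma tight_deg {e : ι → ι → ℕ} {o : ι → ℕ} {V : Finset ι} (hn : Net e o V)
    {F : Finset ι} (hF : F ⊆ V) (hF2 : 2 ≤ F.card) (hcut : cc e F F + 3 = 3 * F.card)
    {x : ι} (hx : x ∈ F) : 2 ≤ cc e {x} F := by
  have h1 : (F.erase x).Nonempty := by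
    rw [← Finset.card_pos, Finset.card_erase_of_mem hx]
    omega
  have h2 := hn.sp (F.erase x) ((Finset.erase_subset _ _).trans hF) h1
  have hd : Disjoint {x} (F.erase x) := by simp
  have hun : {x} ∪ F.erase x = F := by
    rw [← Finset.insert_eq, Finset.insert_erase hx]
  have h3 := cc_union_union hn.symm hd
  rw [hun, cc_self_single hn.irr] at h3
  have h4 := cc_erase e {x} hx
  rw [cc_self_single hn.irr] at h4
  have h5 : ((F.erase x).card : ℤ) = F.card - 1 := by
    rw [Finset.card_erase_of_mem hx]
    push_cast [Nat.one_le_iff_ne_zero.2 (by omega : F.card ≠ 0)]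
    rfl
  omega

/-- passing through a tight set -/
lemma tight_through {e : ι → ι → ℕ} {o : ι → ℕ} {V : Finset ι} (hn : Net e o V)
    {F : Finset ι} (IH : Good ι (F.card + 1)) (hF : F ⊆ V)
    (hcut : cc e F F + 3 = 3 * F.card)
    {x j : ι} (hx : x ∈ F) (hj : j ∈ F) (hxj : x ≠ j) (hx2 : cc e {x} F ≤ 2)
    (hj2 : cc e {j} F ≤ 2) :
    zz ≤ WW e (fun a => if a = j then 1 else 0) F x := by
  rw [← ww_one]
  refine IH e _ F x 1 (by omega) ⟨hn.symm, hn.irr, ?_, ?_⟩ hx ?_ ?_
  · intro a ha
    by_cases h : a = j
    · subst h; simp; linarith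
    · simp only [h, if_false]
      have h1 := hn.deg a (hF ha)
      have h2 := cc_mono_right e (X := {a}) hF
      have h3 : (0 : ℤ) ≤ o a := by positivity
      push_cast
      linarith
  · exact fun G hG hne => hn.sp G (hG.trans hF) hne
  · simp [hxj, hx2]
  · intro G hG hxG
    have ho : 0 ≤ oo (fun a => if a = j then 1 else 0) G := oo_nonneg _ _
    by_cases hGF : G = F
    · subst hGF
      have : oo (fun a => if a = j then 1 else 0) G = 1 := by
        unfold oo
        push_cast
        rw [Finset.sum_ite_eq']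
        simp [hj]
      unfold del
      rw [this]
      linarith
    · have hne : (F \ G).Nonempty := by
        rw [Finset.sdiff_nonempty]
        exact fun h => hGF (Finset.Subset.antisymm hG h)
      have h1 := hn.sp (F \ G) (Finset.sdiff_subset.trans hF) hne
      have hd : Disjoint G (F \ G) := Finset.disjoint_sdiff
      have h2 := cc_union_union hn.symm hd
      have h3 := card_union_int hd
      rw [Finset.union_sdiff_of_subset hG] at h2 h3
      have h4 := cc_sdiff_right e G hG
      unfold del
      linarith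

/-- entering a tight set at `x`, whose third slot is used -/
lemma tight_enter {e : ι → ι → ℕ} {o : ι → ℕ} {V : Finset ι} (hn : Net e o V)
    {F : Finset ι} (IH : Good ι (F.card + 1)) (hF : F ⊆ V)
    (hcut : cc e F F + 3 = 3 * F.card) {U : Finset ι} (hU : U ⊆ V \ F)
    {x : ι} (hx : x ∈ F) (hx2 : cc e {x} F ≤ 2) (hox : o x = 0) (hUx : ∀ y ∈ U, e x y = 0) :
    zz * ∑ j ∈ F, ((o j : ℝ) + ∑ y ∈ U, (e j y : ℝ) * WW e o U y) ≤ WW e o (U ∪ F) x := by
  set os : ι → ℝ := fun j => (o j : ℝ) + ∑ y ∈ U, (e j y : ℝ) * WW e o U y with hos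
  have hos0 : ∀ j, 0 ≤ os j := fun j => add_nonneg (by positivity)
    (Finset.sum_nonneg fun y _ => mul_nonneg (by positivity) (WW_nonneg _ _ _ _))
  have hdis : Disjoint F U := by
    rw [Finset.disjoint_left]
    intro a ha haU
    exact (Finset.mem_sdiff.1 (hU haU)).2 ha
  have h1 : W (fun _ => zz) e os F x ≤ WW e o (U ∪ F) x := by
    rw [Finset.union_comm]
    exact W_restrict (fun _ => zz_pos.le) F U hdis (fun _ _ => by positivity) os
      (fun a _ => le_refl _) x hx
  refine le_trans ?_ h1
  have h2 : W (fun _ => zz) e os F x =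
      W (fun _ => zz) e (fun a => ∑ j ∈ F, os j * (if a = j then (1 : ℝ) else 0)) F x := by
    refine W_congr F (fun _ _ => rfl) (fun _ _ _ _ _ => rfl) ?_ x
    intro a ha
    simp [ha]
  rw [h2, W_linear F os (fun j a => if a = j then (1 : ℝ) else 0), Finset.mul_sum]
  refine Finset.sum_le_sum fun j hj => ?_
  by_cases h0 : os j = 0
  · change zz * os j ≤ _
    rw [h0]; simp
  · have hjx : x ≠ j := by
      rintro rfl
      apply h0
      simp only [hos, hox]
      rw [Finset.sum_eq_zero]
      · simp
      · intro y hy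
        rw [hUx y hy]
        simp
    have hj2 : cc e {j} F ≤ 2 := by
      have h3 := hn.deg j (hF hj)
      have h4 := cc_sdiff_right e {j} hF
      have h5 : 0 ≤ cc e {j} (V \ F) := cc_nonneg _ _ _
      by_cases hoj : o j = 0
      · have : ∃ y ∈ U, e j y ≠ 0 := by
          by_contra hcon
          push Not at hcon
          apply h0
          simp only [hos, hoj]
          rw [Finset.sum_eq_zero]
          · simp
          · intro y hy
            rw [hcon y hy]
            simp
        obtain ⟨y, hy, hjy⟩ := this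
        have h6 : (e j y : ℤ) ≤ cc e {j} (V \ F) := cc_ge_of_mem e j (hU hy)
        have h7 : (0 : ℤ) ≤ o j := by positivity
        omega
      · omega
    have h3 := tight_through hn IH hF hcut hx hj hjx hx2 hj2
    have h4 : WW e (fun a => if a = j then 1 else 0) F x =
        W (fun _ => zz) e (fun a => if a = j then (1 : ℝ) else 0) F x := by
      unfold WW
      refine W_congr F (fun _ _ => rfl) (fun _ _ _ _ _ => rfl) ?_ x
      intro a _
      by_cases h : a = j <;> simp [h]
    rw [h4] at h3
    calc zz * os j = os j * zz := by ring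
      _ ≤ _ := mul_le_mul_of_nonneg_left h3 (hos0 j)

/-- the weight at the contracted vertex -/
lemma con_WW_f {e : ι → ι → ℕ} {o : ι → ℕ} (hi : ∀ x, e x x = 0)
    {F : Finset ι} {f : ι} (hf : f ∈ F) {U : Finset ι} (hU : Disjoint U F) :
    WW (conE e F f) (conO o F f) (insert f U) f =
      zz * ∑ j ∈ F, ((o j : ℝ) + ∑ y ∈ U, (e j y : ℝ) * WW e o U y) := by
  have hfU : f ∉ U := fun h => Finset.disjoint_left.1 hU h hf
  rw [WW_mem _ _ (Finset.mem_insert_self f U), Finset.erase_insert hfU]
  congr 1
  rw [Finset.sum_add_distrib, Finset.sum_comm]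
  congr 1
  · simp [conO]
  · refine Finset.sum_congr rfl fun y hy => ?_
    rw [conE_left hf (Finset.disjoint_left.1 hU hy), ← Finset.sum_mul]
    push_cast
    congr 1
    unfold WW
    refine W_congr U (fun _ _ => rfl) ?_ ?_ y
    · intro a ha b hb _
      exact conE_out hi hf (Finset.disjoint_left.1 hU ha) (Finset.disjoint_left.1 hU hb)
    · intro a ha
      rw [conO_out hf (Finset.disjoint_left.1 hU ha)]

lemma con_WW_le {e : ι → ι → ℕ} {o : ι → ℕ} {V : Finset ι} (hn : Net e o V)
    {F : Finset ι} (IH : Good ι (F.card + 1)) (hF : F ⊆ V) (hF2 : 2 ≤ F.card)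
    (hcut : cc e F F + 3 = 3 * F.card) {f : ι} (hf : f ∈ F) (U : Finset ι) (hU : U ⊆ V \ F)
    (u : ι) (hu : u ∈ U) :
    WW (conE e F f) (conO o F f) (insert f U) u ≤ WW e o (U ∪ F) u := by
  induction U using Finset.strongInduction generalizing u with
  | H U ih =>
    have hUd : Disjoint U F := by
      rw [Finset.disjoint_left]
      intro a ha haF
      exact (Finset.mem_sdiff.1 (hU ha)).2 haF
    have huF : u ∉ F := Finset.disjoint_left.1 hUd hu
    have huf : u ≠ f := fun h => huF (h ▸ hf)
    have hfU : f ∉ U.erase u :=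
      fun h => Finset.disjoint_left.1 hUd (Finset.mem_of_mem_erase h) hf
    have hUd' : Disjoint (U.erase u) F := hUd.mono_left (Finset.erase_subset _ _)
    rw [WW_mem _ _ (Finset.mem_insert_of_mem hu), WW_mem _ _ (Finset.mem_union_left F hu)]
    refine mul_le_mul_of_nonneg_left ?_ zz_pos.le
    rw [conO_out hf huF]
    refine add_le_add_right ?_ _
    have h1 : (insert f U).erase u = insert f (U.erase u) := by
      rw [Finset.erase_insert_of_ne huf.symm]
    have h2 : (U ∪ F).erase u = U.erase u ∪ F := by
      rw [Finset.erase_union_distrib, Finset.erase_eq_of_notMem huF]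
    rw [h1, h2, Finset.sum_insert hfU, Finset.sum_union hUd', add_comm]
    refine add_le_add ?_ ?_
    · refine Finset.sum_le_sum fun y hy => ?_
      rw [conE_out hn.irr hf huF (Finset.disjoint_left.1 hUd' hy)]
      exact mul_le_mul_of_nonneg_left (ih _ (Finset.erase_ssubset hu)
        ((Finset.erase_subset _ _).trans hU) y hy) (by positivity)
    · rw [conE_right hf huF]
      push_cast
      rw [Finset.sum_mul]
      refine Finset.sum_le_sum fun x hx => ?_
      by_cases hux : e u x = 0
      · simp [hux]
      · refine mul_le_mul_of_nonneg_left ?_ (by positivity)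
        rw [con_WW_f hn.irr hf hUd']
        have huV : u ∈ V \ F := hU hu
        have h3 := hn.deg x (hF hx)
        have h4 := cc_sdiff_right e {x} hF
        have h5 := cc_erase e {x} huV
        have h6 := tight_deg hn hF hF2 hcut hx
        have h7 : cc e {x} {u} = e u x := by rw [cc_single_single, hn.symm]
        have h8 : 0 ≤ cc e {x} ((V \ F).erase u) := cc_nonneg _ _ _
        have h9 : (1 : ℤ) ≤ e u x := by omega
        have h10 : (0 : ℤ) ≤ o x := by positivity
        refine tight_enter hn IH hF hcut ((Finset.erase_subset _ _).trans hU) hx ?_ ?_ ?_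
        · linarith
        · have : (o x : ℤ) = 0 := by linarith
          exact_mod_cast this
        · intro y hy
          have h11 : (e x y : ℤ) ≤ cc e {x} ((V \ F).erase u) :=
            cc_ge_of_mem e x (Finset.erase_subset_erase u hU hy)
          have : (e x y : ℤ) ≤ 0 := by linarith
          have h12 : (0 : ℤ) ≤ e x y := by positivity
          have : (e x y : ℤ) = 0 := by linarith
          exact_mod_cast this

/-- the contracted network is a network -/
lemma con_net {e : ι → ι → ℕ} {o : ι → ℕ} {V : Finset ι} (hn : Net e o V)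
    {F : Finset ι} (hF : F ⊆ V) (hcut : cc e F F + 3 = 3 * F.card) {f : ι} (hf : f ∈ F) :
    Net (conE e F f) (conO o F f) ({f} ∪ (V \ F)) where
  symm := conE_symm hn.symm F f
  irr := conE_irr e F f
  deg := by
    intro x hx
    rw [Finset.mem_union, Finset.mem_singleton] at hx
    rcases hx with rfl | hx
    · rw [con_cc_fV hn.symm hf]
      have h1 : ((conO o F x x : ℕ) : ℤ) = oo o F := by
        simp [conO, oo]
      rw [h1]
      have h2 : ∑ y ∈ F, (cc e {y} V + o y) ≤ ∑ y ∈ F, (3 : ℤ) :=
        Finset.sum_le_sum fun y hy => hn.deg y (hF hy)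
      rw [Finset.sum_add_distrib, ← cc_eq_sum_single, cc_sdiff_right e F hF] at h2
      simp only [Finset.sum_const, nsmul_eq_mul] at h2
      unfold oo
      linarith
    · have hxF : x ∉ F := (Finset.mem_sdiff.1 hx).2
      rw [con_cc_V hn.irr hf hF (by simpa using hxF), conO_out hf hxF]
      exact hn.deg x (Finset.mem_sdiff.1 hx).1
  sp := by
    intro G hG hne
    by_cases hfG : f ∈ G
    · have hA : Disjoint (G.erase f) F := by
        rw [Finset.disjoint_left]
        intro a ha haF
        have h1 := hG (Finset.mem_of_mem_erase ha)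
        rw [Finset.mem_union, Finset.mem_singleton] at h1
        rcases h1 with h1 | h1
        · exact (Finset.ne_of_mem_erase ha) h1
        · exact (Finset.mem_sdiff.1 h1).2 haF
      have hGe : G = {f} ∪ G.erase f := by
        rw [← Finset.insert_eq, Finset.insert_erase hfG]
      have hAV : G.erase f ⊆ V := by
        intro a ha
        have h1 := hG (Finset.mem_of_mem_erase ha)
        rw [Finset.mem_union, Finset.mem_singleton] at h1
        rcases h1 with h1 | h1
        · exact absurd h1 (Finset.ne_of_mem_erase ha)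
        · exact (Finset.mem_sdiff.1 h1).1
      have hd : Disjoint {f} (G.erase f) := by simp
      rw [hGe, con_cc_in hn.symm hn.irr hf hA hcut, card_union_int hd]
      have h2 := hn.sp (F ∪ G.erase f) (Finset.union_subset hF hAV)
        ⟨f, Finset.mem_union_left _ hf⟩
      rw [card_union_int hA.symm] at h2
      simp only [Finset.card_singleton]
      push_cast
      linarith
    · have hA : Disjoint G F := by
        rw [Finset.disjoint_left]
        intro a ha haF
        have h1 := hG ha
        rw [Finset.mem_union, Finset.mem_singleton] at h1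
        rcases h1 with h1 | h1
        · exact hfG (h1 ▸ ha)
        · exact (Finset.mem_sdiff.1 h1).2 haF
      have hGV : G ⊆ V := by
        intro a ha
        have h1 := hG ha
        rw [Finset.mem_union, Finset.mem_singleton] at h1
        rcases h1 with h1 | h1
        · exact absurd (h1 ▸ ha) hfG
        · exact (Finset.mem_sdiff.1 h1).1
      rw [con_cc_out hn.irr hf hA hA]
      exact hn.sp G hGV hne

/-- the contraction step -/
lemma contract_step {e : ι → ι → ℕ} {o : ι → ℕ} {V : Finset ι} (hn : Net e o V)
    (IH : Good ι V.card) {v : ι} (hv : v ∈ V) (hm : cc e {v} V + o v ≤ 2) {k : ℤ}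
    (hα : ∀ F ⊆ V, v ∈ F → del e o V F ≤ k)
    {F : Finset ι} (hF : F ⊆ V) (hFV : F ≠ V) (hF2 : 2 ≤ F.card)
    (hcut : cc e F F + 3 = 3 * F.card) :
    ww k ≤ WW e o V v := by
  have hFcard : F.card < V.card := Finset.card_lt_card (lt_of_le_of_ne hF hFV)
  have IHF : Good ι (F.card + 1) := by
    intro e o V' v k hV'
    exact IH e o V' v k (by omega)
  obtain ⟨f, hf, hff⟩ : ∃ f ∈ F, (v ∈ F → f = v) := by
    by_cases hvF : v ∈ F
    · exact ⟨v, hvF, fun _ => rfl⟩
    · obtain ⟨f, hf⟩ : F.Nonempty := by
        rw [← Finset.card_pos]; omega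
      exact ⟨f, hf, fun h => absurd h hvF⟩
  have hfd : Disjoint {f} (V \ F) := by simp [hf]
  have hcard : ({f} ∪ (V \ F)).card < V.card := by
    have h1 := card_union_int hfd
    have h2 : (V \ F).card = V.card - F.card := Finset.card_sdiff_of_subset hF
    rw [h2] at h1
    simp only [Finset.card_singleton] at h1
    omega
  have hnet := con_net hn hF hcut hf
  have hVF : V \ F ∪ F = V := Finset.sdiff_union_of_subset hF
  have hins : insert f (V \ F) = {f} ∪ (V \ F) := Finset.insert_eq _ _
  by_cases hvF : v ∈ F
  · have hfv := hff hvF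
    subst hfv
    have h1 := tight_deg hn hF hF2 hcut hf
    have h2 := cc_sdiff_right e {f} hF
    have h3 : 0 ≤ cc e {f} (V \ F) := cc_nonneg _ _ _
    have h4 : (0 : ℤ) ≤ o f := by positivity
    have hof : o f = 0 := by
      have : (o f : ℤ) = 0 := by linarith
      exact_mod_cast this
    have h5 := tight_enter hn IHF hF hcut (Finset.Subset.refl (V \ F)) hf (by linarith) hof
      (by
        intro y hy
        have h6 : (e f y : ℤ) ≤ cc e {f} (V \ F) := cc_ge_of_mem e f hy
        have h7 : (0 : ℤ) ≤ e f y := by positivity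
        have : (e f y : ℤ) = 0 := by linarith
        exact_mod_cast this)
    rw [hVF, ← con_WW_f hn.irr hf Finset.sdiff_disjoint, hins] at h5
    refine le_trans ?_ h5
    refine IH _ _ _ f k hcard hnet (Finset.mem_union_left _ (Finset.mem_singleton_self f)) ?_ ?_
    · rw [con_cc_fV hn.symm hf]
      have h1 : ((conO o F f f : ℕ) : ℤ) = oo o F := by
        simp [conO, oo]
      rw [h1]
      have h2 : ∑ y ∈ F.erase f, (cc e {y} V + o y) ≤ ∑ y ∈ F.erase f, (3 : ℤ) :=
        Finset.sum_le_sum fun y hy => hn.deg y (hF (Finset.mem_of_mem_erase hy))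
      have h3 : ∑ y ∈ F, (cc e {y} V + o y) = (cc e {f} V + o f) +
          ∑ y ∈ F.erase f, (cc e {y} V + o y) := by
        rw [Finset.add_sum_erase F (fun y => cc e {y} V + (o y : ℤ)) hf]
      rw [Finset.sum_add_distrib, ← cc_eq_sum_single, cc_sdiff_right e F hF] at h3
      simp only [Finset.sum_const, nsmul_eq_mul] at h2
      have h5 : ((F.erase f).card : ℤ) = F.card - 1 := by
        rw [Finset.card_erase_of_mem hf]
        push_cast [Nat.one_le_iff_ne_zero.2 (by omega : F.card ≠ 0)]
        rfl
      rw [h5] at h2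
      unfold oo
      linarith
    · intro G hG hfG
      have hA : Disjoint (G.erase f) F := by
        rw [Finset.disjoint_left]
        intro a ha haF
        have h1 := hG (Finset.mem_of_mem_erase ha)
        rw [Finset.mem_union, Finset.mem_singleton] at h1
        rcases h1 with h1 | h1
        · exact (Finset.ne_of_mem_erase ha) h1
        · exact (Finset.mem_sdiff.1 h1).2 haF
      have hGe : G = {f} ∪ G.erase f := by
        rw [← Finset.insert_eq, Finset.insert_erase hfG]
      have hAV : G.erase f ⊆ V := by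
        intro a ha
        have h1 := hG (Finset.mem_of_mem_erase ha)
        rw [Finset.mem_union, Finset.mem_singleton] at h1
        rcases h1 with h1 | h1
        · exact absurd h1 (Finset.ne_of_mem_erase ha)
        · exact (Finset.mem_sdiff.1 h1).1
      rw [hGe, con_del_in hn.symm hn.irr o hf hF hA hcut]
      exact hα _ (Finset.union_subset hF hAV) (Finset.mem_union_left _ hf)
  · have hvVF : v ∈ V \ F := Finset.mem_sdiff.2 ⟨hv, hvF⟩
    have h5 := con_WW_le hn IHF hF hF2 hcut hf (V \ F) (Finset.Subset.refl _) v hvVF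
    rw [hVF, hins] at h5
    refine le_trans ?_ h5
    refine IH _ _ _ v k hcard hnet (Finset.mem_union_right _ hvVF) ?_ ?_
    · rw [con_cc_V hn.irr hf hF (by simpa using hvF), conO_out hf hvF]
      exact hm
    · intro G hG hvG
      by_cases hfG : f ∈ G
      · have hA : Disjoint (G.erase f) F := by
          rw [Finset.disjoint_left]
          intro a ha haF
          have h1 := hG (Finset.mem_of_mem_erase ha)
          rw [Finset.mem_union, Finset.mem_singleton] at h1
          rcases h1 with h1 | h1
          · exact (Finset.ne_of_mem_erase ha) h1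
          · exact (Finset.mem_sdiff.1 h1).2 haF
        have hGe : G = {f} ∪ G.erase f := by
          rw [← Finset.insert_eq, Finset.insert_erase hfG]
        have hAV : G.erase f ⊆ V := by
          intro a ha
          have h1 := hG (Finset.mem_of_mem_erase ha)
          rw [Finset.mem_union, Finset.mem_singleton] at h1
          rcases h1 with h1 | h1
          · exact absurd h1 (Finset.ne_of_mem_erase ha)
          · exact (Finset.mem_sdiff.1 h1).1
        rw [hGe, con_del_in hn.symm hn.irr o hf hF hA hcut]
        refine hα _ (Finset.union_subset hF hAV) (Finset.mem_union_right _ ?_)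
        exact Finset.mem_erase.2 ⟨fun h => hvF (h ▸ hf), hvG⟩
      · have hA : Disjoint G F := by
          rw [Finset.disjoint_left]
          intro a ha haF
          have h1 := hG ha
          rw [Finset.mem_union, Finset.mem_singleton] at h1
          rcases h1 with h1 | h1
          · exact hfG (h1 ▸ ha)
          · exact (Finset.mem_sdiff.1 h1).2 haF
        have hGV : G ⊆ V := by
          intro a ha
          have h1 := hG ha
          rw [Finset.mem_union, Finset.mem_singleton] at h1
          rcases h1 with h1 | h1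
          · exact absurd (h1 ▸ ha) hfG
          · exact (Finset.mem_sdiff.1 h1).1
        rw [con_del_out hn.irr o hf hF hA]
        exact hα _ hGV hvG

end Pool.Agent.A05699
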