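import Pool.Agent.Lib.MP_a05699_co.Dart
import Pool.Agent.Lib.MP_a05699_co.Contract

set_option autoImplicit false
set_option linter.unusedSectionVars false

namespace Pool.Agent.A05699

variable {ι : Type*} [DecidableEq ι]

section
variable {e : ι → ι → ℕ} {o : ι → ℕ} {V : Finset ι} {v : ι} {k : ℤ}

lemma DD_eq' (h : Irr e o V v k) {l : List ι} (hl : Val V v l) :
    DD e o V l = wt (fun _ => zz) e (fun a => (o a : ℝ)) l * SS e V l := by
  obtain ⟨t, _, hn, hm⟩ := hl
  exact DD_eq h.net.symm h.net.irr o V l hn hm

lemma DD_nonneg_long (h : Irr e o V v k) {l : List ι} (hl : Val V v l) (h3 : 3 ≤ l.length) :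
    0 ≤ DD e o V l := by
  rw [DD_eq' h hl]
  by_cases hw : wt (fun _ => zz) e (fun a => (o a : ℝ)) l = 0
  · rw [hw]; simp
  · exact mul_nonneg (wt_nonneg (fun _ => zz_pos.le) e o l) (SS_nonneg h hl h3 hw)

lemma SS_pair (hn : Net e o V) {v u : ι} (hvu : v ≠ u) (he : e v u = 1) :
    SS e V [v, u] = 2 + 4 * zz - 2 * zz * ((cc e {v} V + cc e {u} V : ℤ) : ℝ) := by
  have h1 : ([v, u] : List ι).toFinset = {v} ∪ {u} := by
    ext a; simp
  have hd : Disjoint ({v} : Finset ι) {u} := by simpa using hvu
  unfold SS
  rw [h1, cc_union_union hn.symm hd, cc_union_left e V hd, cc_self_single hn.irr,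
    cc_self_single hn.irr, cc_single_single, he]
  simp only [usum, he]
  push_cast
  ring

/-- the averaged change is nonnegative -/
lemma avg_nonneg (IH : Good ι V.card) (h : Irr e o V v k)
    (hcase : k = 0 ∨ ∀ u ∈ V, e v u ≠ 0 → o u = 0) :
    0 ≤ PS (DD e o V) V v := by
  have hn := h.net
  have z1 := zz_lo
  have z2 := zz_hi
  have z3 := zz_sq
  rw [PS_mem h.mem]
  have h0 : DD e o V [v] = 0 := by
    rw [DD_eq' h ⟨[], rfl, by simp, by simpa using h.mem⟩]
    simp [wt, h.out]
  rw [h0, zero_add]
  refine Finset.sum_nonneg fun u hu => ?_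
  have huV : u ∈ V := Finset.mem_of_mem_erase hu
  have huv : u ≠ v := Finset.ne_of_mem_erase hu
  by_cases hevu : e v u = 0
  · refine PS_nonneg _ _ fun l hl => ?_
    have hl' := Val.cons h.mem hl
    rw [DD_eq' h hl']
    obtain ⟨t, rfl, _, _⟩ := hl
    simp [wt, hevu]
  have hevu1 : e v u = 1 := by
    have := hn.e_le_one h.mem huV
    omega
  by_cases hou : o u = 0
  · refine PS_nonneg _ _ fun l hl => ?_
    have hl' := Val.cons h.mem hl
    obtain ⟨t, rfl, _, _⟩ := hl
    cases t with
    | nil =>
      rw [DD_eq' h hl']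
      simp [wt, hou]
    | cons x t => exact DD_nonneg_long h hl' (by simp)
  have hk0 : k = 0 := by
    rcases hcase with hk | hk
    · exact hk
    · exact absurd (hk u huV hevu) hou
  subst hk0
  have hdu := hn.deg_of_out huV hou
  have hdu1 : 1 ≤ cc e {u} V := by
    have := cc_ge_of_mem e u h.mem
    rw [hn.symm, hevu1] at this
    push_cast at this
    linarith
  have hss : SS e V [v, u] = 2 + 4 * zz - 2 * zz * ((2 + cc e {u} V : ℤ) : ℝ) := by
    rw [SS_pair hn huv.symm hevu1, h.deg]
  have hval2 : Val V v [v, u] :=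
    ⟨[u], rfl, by simpa using huv.symm, by
      intro a ha
      simp only [List.mem_cons, List.not_mem_nil, or_false] at ha
      rcases ha with rfl | rfl
      · exact h.mem
      · exact huV⟩
  by_cases hd1 : cc e {u} V = 1
  · refine PS_nonneg _ _ fun l hl => ?_
    have hl' := Val.cons h.mem hl
    obtain ⟨t, rfl, _, _⟩ := hl
    cases t with
    | nil =>
      rw [DD_eq' h hl', hss, hd1]
      refine mul_nonneg (wt_nonneg (fun _ => zz_pos.le) e o _) ?_
      push_cast
      linarith
    | cons x t => exact DD_nonneg_long h hl' (by simp)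
  have hd2 : cc e {u} V = 2 := by omega
  have hou1 : o u = 1 := by
    have := hn.deg u huV
    omega
  rw [PS_mem hu]
  have hDD2 : DD e o V [v, u] = zz * zz * (2 - 4 * zz) := by
    rw [DD_eq' h hval2, hss, hd2]
    simp only [wt, hevu1, hou1]
    push_cast
    ring
  rw [hDD2]
  -- the other neighbour of `u`
  have hnu : cc e {u} ((V.erase v).erase u) = 1 := by
    have h1 := cc_erase e {u} h.mem
    have h2 := cc_erase e {u} hu
    rw [cc_self_single hn.irr] at h2
    rw [cc_single_single, hn.symm u v, hevu1] at h1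
    push_cast at h1
    linarith
  obtain ⟨x, hx, hex⟩ : ∃ x ∈ (V.erase v).erase u, e u x ≠ 0 := by
    by_contra hcon
    push Not at hcon
    rw [cc_single_left, Finset.sum_eq_zero] at hnu
    · norm_num at hnu
    · intro a ha
      rw [hcon a ha]
      rfl
  have hxV : x ∈ V := erase2_sub v u V hx
  have hex1 : e u x = 1 := by
    have := hn.e_le_one huV hxV
    omega
  have hWx : zz * zz ≤ WW e o ((V.erase v).erase u) x := by
    rw [← ww_two]
    have hcard : ((V.erase v).erase u).card < V.card :=
      lt_of_le_of_lt (Finset.card_le_card (Finset.erase_subset _ _))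
        (Finset.card_erase_lt_of_mem h.mem)
    refine IH e o _ x 2 hcard (hn.sub (erase2_sub v u V)) hx
      (hn.deg_two (erase2_sub v u V) hxV huV (by simp) hex) ?_
    intro G hG hxG
    have hpair : ({v} ∪ {u} : Finset ι) ⊆ V :=
      Finset.union_subset (by simpa using h.mem) (by simpa using huV)
    have hvu : Disjoint ({v} : Finset ι) {u} := by simpa using huv.symm
    have hGd : Disjoint ({v} ∪ {u} : Finset ι) G := by
      rw [Finset.disjoint_left]
      intro a ha haG
      have := hG haG
      rw [Finset.mem_union, Finset.mem_singleton, Finset.mem_singleton] at ha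
      rcases ha with rfl | rfl
      · simp at this
      · simp at this
    have h1 := del_union hn.symm o V hGd
    have h2 := h.al (({v} ∪ {u}) ∪ G)
      (Finset.union_subset hpair (hG.trans (erase2_sub v u V)))
      (Finset.mem_union_left _ (by simp))
    have h3 := del_union hn.symm o V hvu
    rw [del_single hn.irr, del_single hn.irr, h.deg, h.out, hd2, hou1, cc_single_single,
      hevu1] at h3
    have h4 := del_sdiff e o G hpair
    have h5 : V \ ({v} ∪ {u}) = (V.erase v).erase u := by
      ext a
      simp only [Finset.mem_sdiff, Finset.mem_union, Finset.mem_singleton, Finset.mem_erase]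
      tauto
    rw [h5] at h4
    have h6 := cc_comm hn.symm ({v} ∪ {u}) G
    push_cast at *
    linarith
  have hterm : ∀ y ∈ (V.erase v).erase u,
      0 ≤ PS (fun l => DD e o V (v :: u :: l)) ((V.erase v).erase u) y := by
    intro y hy
    refine PS_nonneg _ _ fun l hl => ?_
    have hl' := Val.cons h.mem (Val.cons hu hl)
    obtain ⟨t, rfl, _, _⟩ := hl
    exact DD_nonneg_long h hl' (by simp)
  have hbig : (4 - 4 * zz) * (zz * zz) * (zz * zz) ≤
      PS (fun l => DD e o V (v :: u :: l)) ((V.erase v).erase u) x := by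
    have h1 : PS (fun l => (4 - 4 * zz) * (zz * zz) *
        wt (fun _ => zz) e (fun a => (o a : ℝ)) l) ((V.erase v).erase u) x ≤
        PS (fun l => DD e o V (v :: u :: l)) ((V.erase v).erase u) x := by
      refine PS_mono _ _ fun l hl => ?_
      have hl' := Val.cons h.mem (Val.cons hu hl)
      rw [DD_eq' h hl']
      obtain ⟨t, rfl, _, _⟩ := hl
      by_cases hw : wt (fun _ => zz) e (fun a => (o a : ℝ)) (v :: u :: x :: t) = 0
      · rw [hw, zero_mul]
        simp only [wt, hevu1, hex1] at hw
        have h2 : wt (fun _ => zz) e (fun a => (o a : ℝ)) (x :: t) = 0 := by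
          have h3 : zz ≠ 0 := zz_pos.ne'
          simpa [h3] using hw
        rw [h2, mul_zero]
      · have h2 := SS_ge h hl' (by simp) hou hw
        have h3 : wt (fun _ => zz) e (fun a => (o a : ℝ)) (v :: u :: x :: t) =
            zz * zz * wt (fun _ => zz) e (fun a => (o a : ℝ)) (x :: t) := by
          simp only [wt, hevu1, hex1]
          push_cast
          ring
        have h4 := wt_nonneg (fun _ => zz_pos.le) e o (v :: u :: x :: t)
        calc _ = wt (fun _ => zz) e (fun a => (o a : ℝ)) (v :: u :: x :: t) * (4 - 4 * zz) := by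
              rw [h3]; ring
          _ ≤ _ := mul_le_mul_of_nonneg_left h2 h4
    rw [PS_mul, ← W_eq_PS] at h1
    refine le_trans ?_ h1
    refine mul_le_mul_of_nonneg_left hWx ?_
    nlinarith
  rw [← Finset.add_sum_erase _ _ hx]
  have hrest : 0 ≤ ∑ y ∈ ((V.erase v).erase u).erase x,
      PS (fun l => DD e o V (v :: u :: l)) ((V.erase v).erase u) y :=
    Finset.sum_nonneg fun y hy => hterm y (Finset.mem_of_mem_erase hy)
  have hfin : 0 ≤ zz * zz * (2 - 4 * zz) + (4 - 4 * zz) * (zz * zz) * (zz * zz) := by
    rw [z3]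
    nlinarith
  linarith

/-- irreducible states satisfy the bound -/
lemma irr_bound (IH : Good ι V.card) (h : Irr e o V v k) : ww k ≤ WW e o V v := by
  have hn := h.net
  have z1 := zz_lo
  have z2 := zz_hi
  have z3 := zz_sq
  -- a neighbour of `v`
  have hnb : ∃ u ∈ V, e v u ≠ 0 := by
    by_contra hcon
    push Not at hcon
    have := h.deg
    rw [cc_single_left, Finset.sum_eq_zero] at this
    · norm_num at this
    · intro a ha
      rw [hcon a ha]
      rfl
  by_cases hcase : k = 0 ∨ ∀ u ∈ V, e v u ≠ 0 → o u = 0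
  · by_contra hlt
    push Not at hlt
    have h1 := avg_nonneg IH h hcase
    rw [← sum_change] at h1
    obtain ⟨u, hu, heu⟩ := hnb
    have hle : ∀ x ∈ V, ∀ y ∈ V, (e x y : ℝ) *
        (WW e o V v - W (om x y) (delE e x y) (fun a => (o a : ℝ)) V v) ≤ 0 := by
      intro x hx y hy
      by_cases hxy : e x y = 0
      · simp [hxy]
      · have h2 := dart_bound IH h hx hy hxy
        exact mul_nonpos_of_nonneg_of_nonpos (by positivity) (by linarith)
    have h2 : ∑ x ∈ V, ∑ y ∈ V, (e x y : ℝ) *
        (WW e o V v - W (om x y) (delE e x y) (fun a => (o a : ℝ)) V v) < 0 := by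
      refine Finset.sum_neg' (fun x hx => Finset.sum_nonpos fun y hy => hle x hx y hy)
        ⟨v, h.mem, ?_⟩
      refine Finset.sum_neg' (fun y hy => hle v h.mem y hy) ⟨u, hu, ?_⟩
      have h3 := dart_bound IH h h.mem hu heu
      have h4 : (0 : ℝ) < e v u := by
        have : 0 < e v u := Nat.pos_of_ne_zero heu
        exact_mod_cast this
      exact mul_neg_of_pos_of_neg h4 (by linarith)
    linarith
  · push Not at hcase
    obtain ⟨hk0, u, huV, heu, hou⟩ := hcase
    have huv : u ≠ v := by
      rintro rfl
      exact heu (hn.irr u)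
    have hu : u ∈ V.erase v := Finset.mem_erase.2 ⟨huv, huV⟩
    have hevu1 : e v u = 1 := by
      have := hn.e_le_one h.mem huV
      omega
    have hWu : zz ≤ WW e o (V.erase v) u := by
      rw [WW_mem e o hu]
      have h1 : (1 : ℝ) ≤ o u := by
        have : 1 ≤ o u := Nat.one_le_iff_ne_zero.2 hou
        exact_mod_cast this
      have h2 : 0 ≤ ∑ w ∈ (V.erase v).erase u, (e u w : ℝ) * WW e o ((V.erase v).erase u) w :=
        Finset.sum_nonneg fun w _ => mul_nonneg (by positivity) (WW_nonneg _ _ _ _)
      nlinarith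
    rw [WW_mem e o h.mem, h.out, ← Finset.add_sum_erase _ _ hu, hevu1]
    have hrest : ∀ w ∈ (V.erase v).erase u, 0 ≤ (e v w : ℝ) * WW e o (V.erase v) w :=
      fun w _ => mul_nonneg (by positivity) (WW_nonneg _ _ _ _)
    rcases h.hk with rfl | rfl | rfl
    · exact absurd rfl hk0
    · -- `k = 1`
      have hnv : cc e {v} ((V.erase v).erase u) = 1 := by
        have h1 := cc_erase e {v} h.mem
        have h2 := cc_erase e {v} hu
        rw [cc_self_single hn.irr, h.deg] at h1
        rw [cc_single_single, hevu1] at h2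
        push_cast at h2
        linarith
      obtain ⟨x, hx, hex⟩ : ∃ x ∈ (V.erase v).erase u, e v x ≠ 0 := by
        by_contra hcon
        push Not at hcon
        rw [cc_single_left, Finset.sum_eq_zero] at hnv
        · norm_num at hnv
        · intro a ha
          rw [hcon a ha]
          rfl
      have hx' : x ∈ V.erase v := Finset.mem_of_mem_erase hx
      have hWx := child_bound hn IH h.mem h.al hx' hex
      rw [h.deg, h.out] at hWx
      norm_num [ww_two] at hWx
      have hex1 : e v x = 1 := by
        have := hn.e_le_one h.mem (Finset.mem_of_mem_erase hx')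
        omega
      rw [← Finset.add_sum_erase _ _ hx, hex1, ww_one]
      have hr : 0 ≤ ∑ w ∈ ((V.erase v).erase u).erase x, (e v w : ℝ) * WW e o (V.erase v) w :=
        Finset.sum_nonneg fun w hw => hrest w (Finset.mem_of_mem_erase hw)
      push_cast
      have h5 : 1 ≤ (0 : ℝ) + (1 * WW e o (V.erase v) u + (1 * WW e o (V.erase v) x +
          ∑ w ∈ ((V.erase v).erase u).erase x, (e v w : ℝ) * WW e o (V.erase v) w)) := by
        linarith
      nlinarith
    · -- `k = 2`
      rw [ww_two]
      have hr := Finset.sum_nonneg hrest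
      push_cast
      have h5 : zz ≤ (0 : ℝ) + (1 * WW e o (V.erase v) u +
          ∑ w ∈ (V.erase v).erase u, (e v w : ℝ) * WW e o (V.erase v) w) := by
        linarith
      nlinarith [zz_pos]

end

/-- the main lemma on networks -/
theorem good_all (n : ℕ) : Good ι n := by
  induction n with
  | zero => intro e o V v k hV; exact absurd hV (Nat.not_lt_zero _)
  | succ n ih =>
    intro e o V v k hV hn hv hm hα
    by_cases hlt : V.card < n
    · exact ih e o V v k hlt hn hv hm hα
    have hcard : V.card = n := by omega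
    have IH : Good ι V.card := by rw [hcard]; exact ih
    obtain ⟨R, hR, hmax⟩ := Finset.exists_max_image
      (V.powerset.filter (fun F => v ∈ F)) (fun F => del e o V F)
      ⟨V, by simp [hv]⟩
    rw [Finset.mem_filter, Finset.mem_powerset] at hR
    obtain ⟨hRV, hvR⟩ := hR
    have hk0 : del e o V R ≤ k := hα R hRV hvR
    refine (ww_anti hk0).trans ?_
    have hα0 : ∀ F ⊆ V, v ∈ F → del e o V F ≤ del e o V R := by
      intro F hF hvF
      exact hmax F (by simp [hF, hvF])
    by_cases hc : cc e {v} V = 2 ∧ o v = 0 ∧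
        (del e o V R = 0 ∨ del e o V R = 1 ∨ del e o V R = 2)
    swap
    · exact small_cases hn IH hv hm hα0 hc
    obtain ⟨hd, ho, hk⟩ := hc
    by_cases hprop : ∃ F, F ⊆ V ∧ F ≠ V ∧ v ∈ F ∧ del e o V F = del e o V R
    · obtain ⟨F, hF, hFV, hvF, hdF⟩ := hprop
      exact alpha_step hn IH hm hα0 hF hFV hvF hdF
    push Not at hprop
    by_cases hcut : ∃ F, F ⊆ V ∧ F ≠ V ∧ 2 ≤ F.card ∧ cc e F F + 3 = 3 * F.card
    · obtain ⟨F, hF, hFV, hF2, hdF⟩ := hcut
      exact contract_step hn IH hv hm hα0 hF hFV hF2 hdF
    push Not at hcut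
    have hRV' : R = V := by
      by_contra hne
      exact hprop R hRV hne hvR rfl
    refine irr_bound IH ⟨hn, hv, hd, ho, hk, hα0, ?_, ?_, by rw [← hRV']⟩
    · intro F hF hFV hvF
      have h1 := hα0 F hF hvF
      have h2 := hprop F hF hFV hvF
      omega
    · intro F hF hFV hF2
      have h1 := hn.sp F hF (Finset.card_pos.1 (by omega))
      have h2 := hcut F hF hFV hF2
      omega

/-- For a network with `δ ≤ 0` on sets containing `v`, the weight is at least one. -/
theorem cluster_ge_one {e : ι → ι → ℕ} {o : ι → ℕ} {V : Finset ι} {v : ι} (hn : Net e o V)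
    (hv : v ∈ V) (hm : cc e {v} V + o v ≤ 2) (hα : ∀ F ⊆ V, v ∈ F → del e o V F ≤ 0) :
    1 ≤ WW e o V v := by
  rw [← ww_zero]
  exact good_all (V.card + 1) e o V v 0 (Nat.lt_succ_self _) hn hv hm hα

end Pool.Agent.A05699
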