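import Pool.Agent.Lib.MP_a05699_co.Level

set_option autoImplicit false
set_option linter.unusedSectionVars false

namespace Pool.Agent.A05699

variable {Γ : Type*} [Group Γ] [DecidableEq Γ]

/-- number of `n`-step self-avoiding walks from `v` avoiding `F` -/
def cnt (S : Finset Γ) : ℕ → Finset Γ → Γ → ℕ
  | 0, _, _ => 1
  | n + 1, F, v => ∑ s ∈ S, if v * s ∈ insert v F then 0 else cnt S n (insert v F) (v * s)

lemma cnt_zero (S : Finset Γ) (F : Finset Γ) (v : Γ) : cnt S 0 F v = 1 := rfl

lemma cnt_succ (S : Finset Γ) (n : ℕ) (F : Finset Γ) (v : Γ) :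
    cnt S (n + 1) F v =
      ∑ s ∈ S, if v * s ∈ insert v F then 0 else cnt S n (insert v F) (v * s) := rfl

/-- weighted sums of counts -/
noncomputable def TT (S : Finset Γ) (F : Finset Γ) (v : Γ) (a b : ℕ) : ℝ :=
  ∑ n ∈ Finset.Ico a b, zz ^ n * (cnt S n F v : ℝ)

lemma TT_nonneg (S : Finset Γ) (F : Finset Γ) (v : Γ) (a b : ℕ) : 0 ≤ TT S F v a b :=
  Finset.sum_nonneg fun n _ => mul_nonneg (pow_nonneg zz_pos.le n) (by positivity)

lemma TT_mono (S : Finset Γ) (F : Finset Γ) (v : Γ) {a b a' b' : ℕ} (ha : a' ≤ a) (hb : b ≤ b') :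
    TT S F v a b ≤ TT S F v a' b' :=
  Finset.sum_le_sum_of_subset_of_nonneg (Finset.Ico_subset_Ico ha hb)
    fun n _ _ => mul_nonneg (pow_nonneg zz_pos.le n) (by positivity)

lemma TT_succ (S : Finset Γ) (F : Finset Γ) (v : Γ) (a b : ℕ) :
    TT S F v (a + 1) (b + 1) =
      zz * ∑ s ∈ S, if v * s ∈ insert v F then 0 else TT S (insert v F) (v * s) a b := by
  unfold TT
  rw [← Finset.sum_Ico_add' (fun n => zz ^ n * (cnt S n F v : ℝ)) a b 1]
  have h1 : ∀ n ∈ Finset.Ico a b, zz ^ (n + 1) * (cnt S (n + 1) F v : ℝ) =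
      ∑ s ∈ S, if v * s ∈ insert v F then 0 else
        zz * (zz ^ n * (cnt S n (insert v F) (v * s) : ℝ)) := by
    intro n _
    rw [cnt_succ]
    push_cast
    rw [Finset.mul_sum]
    refine Finset.sum_congr rfl fun s _ => ?_
    split_ifs
    · ring
    · ring
  rw [Finset.sum_congr rfl h1, Finset.sum_comm, Finset.mul_sum]
  refine Finset.sum_congr rfl fun s _ => ?_
  split_ifs
  · simp
  · rw [Finset.mul_sum]

section levels

variable {S : Finset Γ} {h : Γ → ℝ} {Lv : ℝ → Finset Γ} {L : ℕ}

/-- one level step -/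
lemma Q_step (hS : ∀ s ∈ S, s⁻¹ ∈ S) (hLv : ∀ c g, g ∈ Lv c ↔ h g = c) {m : ℕ}
    (hR : ∀ (F : Finset Γ) (v : Γ), (∀ f ∈ F, h f < h v) → (∃ s ∈ S, h (v * s) < h v) →
      1 ≤ TT S F v m (m * L + 1))
    (N : ℕ) : ∀ (F : Finset Γ) (v : Γ), (Lv (h v) \ F).card = N → v ∉ F →
      (∀ f ∈ F, h f ≤ h v) →
      WW (ce S) (upc S h) (Lv (h v) \ F) v ≤ TT S F v (m + 1) (m * L + N + 1) := by
  induction N with
  | zero =>
    intro F v hN hvF _
    exfalso
    rw [Finset.card_eq_zero] at hN
    have : v ∈ Lv (h v) \ F := Finset.mem_sdiff.2 ⟨(hLv _ _).2 rfl, hvF⟩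
    rw [hN] at this
    simp at this
  | succ N ih =>
    intro F v hN hvF hFv
    have hvV : v ∈ Lv (h v) \ F := Finset.mem_sdiff.2 ⟨(hLv _ _).2 rfl, hvF⟩
    have hVe : Lv (h v) \ insert v F = (Lv (h v) \ F).erase v := by
      rw [Finset.sdiff_insert]
    rw [WW_mem _ _ hvV, TT_succ]
    refine mul_le_mul_of_nonneg_left ?_ zz_pos.le
    have hup : (upc S h v : ℝ) = ∑ s ∈ S, if h v < h (v * s) then (1 : ℝ) else 0 := by
      unfold upc
      rw [Finset.card_filter]
      push_cast
      rfl
    rw [hup, sum_ce S ((Lv (h v) \ F).erase v) v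
      (fun u => WW (ce S) (upc S h) ((Lv (h v) \ F).erase v) u), ← Finset.sum_add_distrib]
    refine Finset.sum_le_sum fun s hs => ?_
    by_cases hmem : v * s ∈ insert v F
    · rw [if_pos hmem]
      have h1 : h (v * s) ≤ h v := by
        rw [Finset.mem_insert] at hmem
        rcases hmem with h2 | h2
        · rw [h2]
        · exact hFv _ h2
      have h2 : v * s ∉ (Lv (h v) \ F).erase v := by
        rw [← hVe]
        exact fun h3 => (Finset.mem_sdiff.1 h3).2 hmem
      rw [if_neg (not_lt.2 h1), if_neg h2, add_zero]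
    · rw [if_neg hmem]
      rcases lt_trichotomy (h (v * s)) (h v) with hlt | heq | hgt
      · have h2 : v * s ∉ (Lv (h v) \ F).erase v := by
          intro h3
          have h4 := (hLv _ _).1 (Finset.mem_sdiff.1 (Finset.mem_of_mem_erase h3)).1
          exact hlt.ne h4
        rw [if_neg (not_lt.2 hlt.le), if_neg h2, add_zero]
        exact TT_nonneg _ _ _ _ _
      · have h2 : v * s ∈ (Lv (h v) \ F).erase v := by
          rw [← hVe]
          exact Finset.mem_sdiff.2 ⟨(hLv _ _).2 heq, hmem⟩
        rw [if_neg (not_lt.2 heq.le), if_pos h2, zero_add, ← hVe]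
        have h3 : (Lv (h (v * s)) \ insert v F).card = N := by
          rw [heq, hVe, Finset.card_erase_of_mem hvV, hN]
          rfl
        have h4 := ih (insert v F) (v * s) h3 hmem (by
          intro f hf
          rw [heq]
          rw [Finset.mem_insert] at hf
          rcases hf with rfl | hf
          · exact le_refl _
          · exact hFv f hf)
        rw [heq] at h4
        exact h4.trans (TT_mono _ _ _ (Nat.le_succ m) (by omega))
      · have h2 : v * s ∉ (Lv (h v) \ F).erase v := by
          intro h3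
          have h4 := (hLv _ _).1 (Finset.mem_sdiff.1 (Finset.mem_of_mem_erase h3)).1
          exact hgt.ne' h4
        rw [if_pos hgt, if_neg h2, add_zero]
        refine (hR (insert v F) (v * s) ?_ ⟨s⁻¹, hS s hs, by simpa using hgt⟩).trans
          (TT_mono _ _ _ (le_refl _) (by omega))
        intro f hf
        rw [Finset.mem_insert] at hf
        rcases hf with rfl | hf
        · exact hgt
        · exact (hFv f hf).trans_lt hgt

lemma R_all (hS : ∀ s ∈ S, s⁻¹ ∈ S) (hLv : ∀ c g, g ∈ Lv c ↔ h g = c)
    (hL : ∀ c, (Lv c).card ≤ L)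
    (key : ∀ v, (∃ s ∈ S, h (v * s) < h v) → 1 ≤ WW (ce S) (upc S h) (Lv (h v)) v) (m : ℕ) :
    ∀ (F : Finset Γ) (v : Γ), (∀ f ∈ F, h f < h v) → (∃ s ∈ S, h (v * s) < h v) →
      1 ≤ TT S F v m (m * L + 1) := by
  induction m with
  | zero =>
    intro F v _ _
    simp [TT, cnt_zero]
  | succ m ih =>
    intro F v hFv hd
    have hvF : v ∉ F := fun h' => lt_irrefl _ (hFv v h')
    have h1 : Lv (h v) \ F = Lv (h v) := by
      rw [Finset.sdiff_eq_self_iff_disjoint, Finset.disjoint_left]
      intro a ha haF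
      have h2 := (hLv _ _).1 ha
      have h3 := hFv a haF
      exact h3.ne h2
    have h2 := Q_step hS hLv (L := L) ih (Lv (h v)).card F v (by rw [h1]) hvF
      (fun f hf => (hFv f hf).le)
    rw [h1] at h2
    refine (key v hd).trans (h2.trans (TT_mono _ _ _ (le_refl _) ?_))
    have h3 := hL (h v)
    have : (m + 1) * L = m * L + L := by ring
    omega

end levels

/-! ### Submultiplicativity -/

lemma cnt_mono (S : Finset Γ) (n : ℕ) : ∀ (F F' : Finset Γ) (v : Γ), F ⊆ F' →
    cnt S n F' v ≤ cnt S n F v := by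
  induction n with
  | zero => intro F F' v _; simp [cnt_zero]
  | succ n ih =>
    intro F F' v hF
    rw [cnt_succ, cnt_succ]
    refine Finset.sum_le_sum fun s _ => ?_
    by_cases h : v * s ∈ insert v F'
    · rw [if_pos h]; exact Nat.zero_le _
    · have h2 : v * s ∉ insert v F := fun h3 => h (Finset.insert_subset_insert v hF h3)
      rw [if_neg h, if_neg h2]
      exact ih _ _ _ (Finset.insert_subset_insert v hF)

lemma cnt_translate (S : Finset Γ) (g : Γ) (n : ℕ) : ∀ (F : Finset Γ) (v : Γ),
    cnt S n (F.image (fun x => g * x)) (g * v) = cnt S n F v := by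
  induction n with
  | zero => intro F v; rfl
  | succ n ih =>
    intro F v
    rw [cnt_succ, cnt_succ]
    refine Finset.sum_congr rfl fun s _ => ?_
    have h1 : insert (g * v) (F.image (fun x => g * x)) =
        (insert v F).image (fun x => g * x) := by
      rw [Finset.image_insert]
    have h2 : g * v * s ∈ (insert v F).image (fun x => g * x) ↔ v * s ∈ insert v F := by
      rw [Finset.mem_image]
      constructor
      · rintro ⟨y, hy, hxy⟩
        have : y = v * s := by
          have h4 : g * y = g * (v * s) := by rw [hxy]; group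
          exact mul_left_cancel h4
        rwa [← this]
      · intro h
        exact ⟨v * s, h, by group⟩
    rw [h1]
    by_cases h3 : v * s ∈ insert v F
    · rw [if_pos (h2.2 h3), if_pos h3]
    · rw [if_neg (fun h4 => h3 (h2.1 h4)), if_neg h3, mul_assoc, ih]

lemma cnt_empty (S : Finset Γ) (n : ℕ) (v : Γ) : cnt S n ∅ v = cnt S n ∅ 1 := by
  have := cnt_translate S v n ∅ 1
  simpa using this

lemma cnt_submul (S : Finset Γ) (m n : ℕ) : ∀ (F : Finset Γ) (v : Γ),
    cnt S (m + n) F v ≤ cnt S m F v * cnt S n ∅ 1 := by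
  induction m with
  | zero =>
    intro F v
    rw [zero_add, cnt_zero, one_mul, ← cnt_empty S n v]
    exact cnt_mono S n _ _ _ (Finset.empty_subset _)
  | succ m ih =>
    intro F v
    have h1 : m + 1 + n = (m + n) + 1 := by ring
    rw [h1, cnt_succ, cnt_succ, Finset.sum_mul]
    refine Finset.sum_le_sum fun s _ => ?_
    by_cases h : v * s ∈ insert v F
    · rw [if_pos h, if_pos h, zero_mul]
    · rw [if_neg h, if_neg h]
      exact ih _ _

/-! ### The real analysis -/

lemma submul_lower {a : ℕ → ℝ} (h0 : ∀ n, 0 ≤ a n) (hsub : ∀ m n, a (m + n) ≤ a m * a n)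
    {L : ℕ} (hlow : ∀ m, 1 ≤ ∑ n ∈ Finset.Ico m (m * L + 1), a n) (n : ℕ) : 1 ≤ a n := by
  by_contra hlt
  push Not at hlt
  have ha0 : 1 ≤ a 0 := by
    have := hlow 0
    simpa using this
  have hn : n ≠ 0 := by
    rintro rfl
    linarith
  have hpow : ∀ q r, a (q * n + r) ≤ a n ^ q * a r := by
    intro q r
    induction q with
    | zero => simp
    | succ q ih =>
      have h1 : (q + 1) * n + r = n + (q * n + r) := by ring
      rw [h1, pow_succ]
      calc a (n + (q * n + r)) ≤ a n * a (q * n + r) := hsub _ _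
        _ ≤ a n * (a n ^ q * a r) := mul_le_mul_of_nonneg_left ih (h0 n)
        _ = _ := by ring
  set M := ∑ r ∈ Finset.range n, a r with hM
  have hM0 : 0 ≤ M := Finset.sum_nonneg fun r _ => h0 r
  have hpart : ∀ N, ∑ j ∈ Finset.range (N * n), a j ≤ M * ∑ q ∈ Finset.range N, a n ^ q := by
    intro N
    induction N with
    | zero => simp
    | succ N ih =>
      have h1 : (N + 1) * n = N * n + n := by ring
      rw [h1, Finset.sum_range_add, Finset.sum_range_succ, mul_add]
      refine add_le_add ih ?_
      rw [hM, Finset.sum_mul]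
      refine Finset.sum_le_sum fun r _ => ?_
      exact (hpow N r).trans (le_of_eq (mul_comm _ _))
  have hgeom : ∀ N, ∑ q ∈ Finset.range N, a n ^ q ≤ (1 - a n)⁻¹ := by
    intro N
    exact Summable.sum_le_tsum _ (fun _ _ => pow_nonneg (h0 n) _)
      (summable_geometric_of_lt_one (h0 n) hlt) |>.trans_eq
      (tsum_geometric_of_lt_one (h0 n) hlt)
  have hsum : Summable a := by
    refine summable_of_sum_range_le (c := M * (1 - a n)⁻¹) h0 fun N => ?_
    calc ∑ j ∈ Finset.range N, a j ≤ ∑ j ∈ Finset.range (N * n), a j := by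
          refine Finset.sum_le_sum_of_subset_of_nonneg ?_ fun j _ _ => h0 j
          refine Finset.range_subset_range.2 ?_
          exact Nat.le_mul_of_pos_right N (Nat.pos_of_ne_zero hn)
      _ ≤ M * ∑ q ∈ Finset.range N, a n ^ q := hpart N
      _ ≤ _ := mul_le_mul_of_nonneg_left (hgeom N) hM0
  have htend := hsum.hasSum.tendsto_sum_nat
  obtain ⟨m, hm⟩ := (htend.eventually (lt_mem_nhds (show (∑' n, a n) - 1 < ∑' n, a n by
    linarith))).exists
  have h1 := hlow m
  by_cases hml : m ≤ m * L + 1
  · have h2 := Finset.sum_range_add_sum_Ico a hml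
    have h3 : ∑ j ∈ Finset.range (m * L + 1), a j ≤ ∑' n, a n :=
      hsum.sum_le_tsum _ fun _ _ => h0 _
    linarith
  · rw [Finset.Ico_eq_empty (by omega)] at h1
    simp at h1
    linarith

/-! ### Counting walks as functions -/

/-- the finset of walks -/
def wk (S : Finset Γ) : (n : ℕ) → Finset Γ → Γ → Finset (Fin (n + 1) → Γ)
  | 0, _, v => {fun _ => v}
  | n + 1, F, v => S.biUnion fun s => if v * s ∈ insert v F then ∅ else
      (wk S n (insert v F) (v * s)).image (fun w => (Fin.cons v w : Fin (n + 2) → Γ))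

lemma wk_zero (S : Finset Γ) (F : Finset Γ) (v : Γ) : wk S 0 F v = {fun _ => v} := rfl

lemma wk_succ (S : Finset Γ) (n : ℕ) (F : Finset Γ) (v : Γ) :
    wk S (n + 1) F v = S.biUnion fun s => if v * s ∈ insert v F then ∅ else
      (wk S n (insert v F) (v * s)).image (fun w => (Fin.cons v w : Fin (n + 2) → Γ)) := rfl

lemma mem_wk (S : Finset Γ) (n : ℕ) : ∀ (F : Finset Γ) (v : Γ) (w : Fin (n + 1) → Γ),
    w ∈ wk S n F v ↔ w 0 = v ∧ Function.Injective w ∧
      (∀ i : Fin n, (w i.castSucc)⁻¹ * w i.succ ∈ S) ∧ ∀ i : Fin n, w i.succ ∉ F := by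
  induction n with
  | zero =>
    intro F v w
    rw [wk_zero, Finset.mem_singleton]
    constructor
    · rintro rfl
      refine ⟨rfl, ?_, fun i => i.elim0, fun i => i.elim0⟩
      intro a b _
      exact Subsingleton.elim (α := Fin 1) a b
    · rintro ⟨h, _⟩
      funext i
      have : i = 0 := Subsingleton.elim (α := Fin 1) i 0
      rw [this, h]
  | succ n ih =>
    intro F v w
    rw [wk_succ, Finset.mem_biUnion]
    constructor
    · rintro ⟨s, hs, hw⟩
      by_cases hmem : v * s ∈ insert v F
      · rw [if_pos hmem] at hw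
        simp at hw
      · rw [if_neg hmem, Finset.mem_image] at hw
        obtain ⟨w', hw', rfl⟩ := hw
        obtain ⟨h0, hinj, hst, hav⟩ := (ih _ _ _).1 hw'
        have hne : ∀ i, w' i ≠ v := by
          intro i
          refine Fin.cases ?_ (fun j => ?_) i
          · rw [h0]
            exact fun h => hmem (by rw [h]; exact Finset.mem_insert_self _ _)
          · exact fun h => hav j (by rw [h]; exact Finset.mem_insert_self _ _)
        refine ⟨by simp, ?_, ?_, ?_⟩
        · rw [Fin.cons_injective_iff]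
          exact ⟨fun ⟨i, hi⟩ => hne i hi, hinj⟩
        · intro i
          refine Fin.cases ?_ (fun j => ?_) i
          · simp [h0, hs]
          · have := hst j
            simpa using this
        · intro i
          rw [Fin.cons_succ]
          refine Fin.cases ?_ (fun j => ?_) i
          · rw [h0]
            exact fun h => hmem (Finset.mem_insert_of_mem h)
          · exact fun h => hav j (Finset.mem_insert_of_mem h)
    · rintro ⟨h0, hinj, hst, hav⟩
      have hs := hst 0
      have hc0 : (Fin.castSucc (0 : Fin (n + 1))) = 0 := rfl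
      rw [hc0, h0] at hs
      refine ⟨v⁻¹ * w (Fin.succ 0), hs, ?_⟩
      rw [mul_inv_cancel_left]
      have hmem : w (Fin.succ 0) ∉ insert v F := by
        rw [Finset.mem_insert]
        rintro (h | h)
        · rw [← h0] at h
          exact absurd (hinj h) (by simp)
        · exact hav 0 h
      rw [if_neg hmem, Finset.mem_image]
      refine ⟨Fin.tail w, ?_, ?_⟩
      · rw [ih]
        refine ⟨rfl, ?_, ?_, ?_⟩
        · intro a b hab
          exact Fin.succ_injective _ (hinj hab)
        · intro i
          exact hst i.succ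
        · intro i
          rw [Finset.mem_insert]
          rintro (h | h)
          · have h' : w (Fin.succ (Fin.succ i)) = w 0 := by rw [h0]; exact h
            exact absurd (hinj h') (by simp)
          · exact hav i.succ h
      · rw [← h0]
        exact Fin.cons_self_tail w

lemma card_wk (S : Finset Γ) (n : ℕ) : ∀ (F : Finset Γ) (v : Γ),
    (wk S n F v).card = cnt S n F v := by
  induction n with
  | zero => intro F v; simp [wk_zero, cnt_zero]
  | succ n ih =>
    intro F v
    rw [wk_succ, cnt_succ, Finset.card_biUnion]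
    · refine Finset.sum_congr rfl fun s _ => ?_
      split_ifs
      · simp
      · rw [Finset.card_image_of_injective, ih]
        intro w w' hww
        exact (Fin.cons_right_injective (α := fun _ => Γ) v) hww
    · intro s _ t _ hst
      rw [Function.onFun, Finset.disjoint_left]
      intro w hw hw'
      split_ifs at hw hw'
      · simp at hw
      · simp at hw
      · simp at hw'
      · rw [Finset.mem_image] at hw hw'
        obtain ⟨w1, h1, rfl⟩ := hw
        obtain ⟨w2, h2, h3⟩ := hw'
        have h4 : w2 = w1 := (Fin.cons_right_injective (α := fun _ => Γ) v) h3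
        subst h4
        have h5 := ((mem_wk S n _ _ _).1 h1).1
        have h6 := ((mem_wk S n _ _ _).1 h2).1
        exact hst (mul_left_cancel (h5.symm.trans h6))

lemma ncard_walks (S : Finset Γ) (n : ℕ) :
    Set.ncard {w : Fin (n + 1) → Γ | w 0 = 1 ∧ Function.Injective w ∧
      ∀ i : Fin n, (w i.castSucc)⁻¹ * w i.succ ∈ S} = cnt S n ∅ 1 := by
  rw [← card_wk, ← Set.ncard_coe_finset]
  congr 1
  ext w
  rw [Finset.mem_coe, mem_wk]
  simp

end Pool.Agent.A05699
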