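import Pool.Agent.Lib.MP_a05699_co.Bounds

set_option autoImplicit false
set_option linter.unusedSectionVars false

namespace Pool.Agent.A05699

variable {ι : Type*} [DecidableEq ι]

/-- the network after deleting the edge `xy` and suppressing `x` and `y` -/
def fE (e : ι → ι → ℕ) (x y : ι) (a b : ι) : ℕ :=
  if a = b then 0 else e a b + e a x * e x b + e a y * e y b

def fO (e : ι → ι → ℕ) (o : ι → ℕ) (x y : ι) (a : ι) : ℕ := o a + e a x * o x + e a y * o y

lemma fE_cc {e : ι → ι → ℕ} (hs : ∀ x y, e x y = e y x) (hi : ∀ x, e x x = 0) {x y : ι}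
    {X Y : Finset ι} (hXY : X ⊆ Y) (h1 : ∀ a ∈ X, e x a ≤ 1) (h2 : ∀ a ∈ X, e y a ≤ 1) :
    cc (fE e x y) X Y = cc e X Y + cc e {x} X * (cc e {x} Y - 1) +
      cc e {y} X * (cc e {y} Y - 1) := by
  have hrow : ∀ a ∈ X, ∑ b ∈ Y, ((fE e x y a b : ℕ) : ℤ) =
      ∑ b ∈ Y, (e a b : ℤ) + (e x a : ℤ) * (cc e {x} Y - 1) +
        (e y a : ℤ) * (cc e {y} Y - 1) := by
    intro a ha
    have hb : ∀ b ∈ Y, ((fE e x y a b : ℕ) : ℤ) =
        ((e a b : ℤ) + (e a x : ℤ) * (e x b : ℤ) + (e a y : ℤ) * (e y b : ℤ)) -
          (if b = a then (e a b : ℤ) + (e a x : ℤ) * (e x b : ℤ) + (e a y : ℤ) * (e y b : ℤ)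
            else 0) := by
      intro b _
      unfold fE
      by_cases hab : a = b
      · subst hab; simp
      · have hba : b ≠ a := fun h => hab h.symm
        rw [if_neg hab, if_neg hba]
        push_cast
        ring
    rw [Finset.sum_congr rfl hb, Finset.sum_sub_distrib, Finset.sum_add_distrib,
      Finset.sum_add_distrib, ← Finset.mul_sum, ← Finset.mul_sum, Finset.sum_ite_eq',
      if_pos (hXY ha), cc_single_left, cc_single_left, hi a, hs a x, hs a y]
    have h3 : (e x a : ℤ) * (e x a : ℤ) = e x a := by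
      have := h1 a ha
      have : e x a = 0 ∨ e x a = 1 := by omega
      rcases this with h | h <;> rw [h] <;> norm_num
    have h4 : (e y a : ℤ) * (e y a : ℤ) = e y a := by
      have := h2 a ha
      have : e y a = 0 ∨ e y a = 1 := by omega
      rcases this with h | h <;> rw [h] <;> norm_num
    push_cast
    linear_combination (-1 : ℤ) * h3 - h4
  have h5 : cc (fE e x y) X Y = ∑ a ∈ X, ∑ b ∈ Y, ((fE e x y a b : ℕ) : ℤ) := rfl
  rw [h5, Finset.sum_congr rfl hrow, Finset.sum_add_distrib, Finset.sum_add_distrib,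
    ← Finset.sum_mul, ← Finset.sum_mul, ← cc_single_left, ← cc_single_left]
  rfl

lemma fO_oo {e : ι → ι → ℕ} (hs : ∀ x y, e x y = e y x) (o : ι → ℕ) {x y : ι} (X : Finset ι) :
    oo (fO e o x y) X = oo o X + cc e {x} X * o x + cc e {y} X * o y := by
  unfold oo fO
  push_cast
  rw [Finset.sum_add_distrib, Finset.sum_add_distrib, ← Finset.sum_mul, ← Finset.sum_mul,
    cc_single_left, cc_single_left]
  simp only [hs]

lemma int_lemma {t n o : ℤ} (h0 : 0 ≤ t) (h1 : t ≤ n) (h2 : 0 ≤ o) (h3 : n + o ≤ 2) :
    t * (3 + t - 2 * o - 2 * n) = 0 ∨ (t * (3 + t - 2 * o - 2 * n) = 2 ∧ t = n ∧ o = 0) := by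
  have ht : t ≤ 2 := by omega
  have hn : n ≤ 2 := by omega
  have ho : o ≤ 2 := by omega
  have hn0 : 0 ≤ n := by omega
  interval_cases t <;> interval_cases n <;> interval_cases o <;> simp_all

lemma int_lemma2 {t n : ℤ} (h0 : 0 ≤ t) (h1 : t ≤ n) (h3 : n ≤ 2) :
    t * (t - 1) = 0 ∨ (t * (t - 1) = 2 ∧ t = 2) := by
  have ht : t ≤ 2 := by omega
  interval_cases t <;> simp_all

lemma Net.e_le_one {e : ι → ι → ℕ} {o : ι → ℕ} {V : Finset ι} (hn : Net e o V) {a b : ι}
    (ha : a ∈ V) (hb : b ∈ V) : e a b ≤ 1 := by
  by_cases hab : a = b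
  · subst hab; rw [hn.irr]; norm_num
  · have h1 := hn.sp ({a, b} : Finset ι) (by
      intro c hc
      rw [Finset.mem_insert, Finset.mem_singleton] at hc
      rcases hc with rfl | rfl <;> assumption) ⟨a, by simp⟩
    have hd : Disjoint ({a} : Finset ι) {b} := by simpa using hab
    rw [Finset.card_pair hab, Finset.insert_eq, cc_union_union hn.symm hd, cc_self_single hn.irr,
      cc_self_single hn.irr, cc_single_single] at h1
    omega

section dart

variable {e : ι → ι → ℕ} {o : ι → ℕ} {V : Finset ι} {v : ι} {k : ℤ} {x y : ι}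

/-- common facts about a dart -/
structure DartFacts (e : ι → ι → ℕ) (o : ι → ℕ) (V : Finset ι) (x y : ι) : Prop where
  hx : x ∈ V
  hy : y ∈ V
  hxy : x ≠ y
  exy : e x y = 1
  nx : cc e {x} V = cc e {x} ((V.erase x).erase y) + 1
  ny : cc e {y} V = cc e {y} ((V.erase x).erase y) + 1
  hnx : cc e {x} ((V.erase x).erase y) + o x ≤ 2
  hny : cc e {y} ((V.erase x).erase y) + o y ≤ 2

lemma dartFacts (hn : Net e o V) (hx : x ∈ V) (hy : y ∈ V) (he : e x y ≠ 0) :
    DartFacts e o V x y := by
  have hxy : x ≠ y := by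
    rintro rfl
    exact he (hn.irr x)
  have h1 := hn.e_le_one hx hy
  have hexy : e x y = 1 := by omega
  have hyx : y ∈ V.erase x := Finset.mem_erase.2 ⟨hxy.symm, hy⟩
  have hnx : cc e {x} V = cc e {x} ((V.erase x).erase y) + 1 := by
    rw [cc_erase e {x} hx, cc_self_single hn.irr, cc_erase e {x} hyx, cc_single_single, hexy]
    push_cast
    ring
  have hny : cc e {y} V = cc e {y} ((V.erase x).erase y) + 1 := by
    rw [cc_erase e {y} hx, cc_single_single, hn.symm y x, hexy, cc_erase e {y} hyx,
      cc_self_single hn.irr]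
    push_cast
    ring
  have h3 := hn.deg x hx
  have h4 := hn.deg y hy
  exact ⟨hx, hy, hxy, hexy, hnx, hny, by linarith, by linarith⟩

lemma erase2_sub (x y : ι) (V : Finset ι) : (V.erase x).erase y ⊆ V :=
  (Finset.erase_subset _ _).trans (Finset.erase_subset _ _)

lemma fE_deg (hn : Net e o V) (hd : DartFacts e o V x y) {a : ι}
    (ha : a ∈ (V.erase x).erase y) :
    cc (fE e x y) {a} ((V.erase x).erase y) + fO e o x y a =
      cc e {a} ((V.erase x).erase y) + o a +
      (e x a : ℤ) * (cc e {x} ((V.erase x).erase y) + o x - 1) +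
      (e y a : ℤ) * (cc e {y} ((V.erase x).erase y) + o y - 1) := by
  have haV : a ∈ V := erase2_sub x y V ha
  rw [fE_cc hn.symm hn.irr (Finset.singleton_subset_iff.2 ha)
    (fun b hb => by rw [Finset.mem_singleton.1 hb]; exact hn.e_le_one hd.hx haV)
    (fun b hb => by rw [Finset.mem_singleton.1 hb]; exact hn.e_le_one hd.hy haV)]
  unfold fO
  rw [cc_single_single, cc_single_single, hn.symm a x, hn.symm a y]
  push_cast
  ring

lemma cc_V_erase2 (hn : Net e o V) (hd : DartFacts e o V x y) (X : Finset ι) :
    cc e X V = cc e X ((V.erase x).erase y) + cc e {x} X + cc e {y} X := by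
  rw [cc_erase e X hd.hx, cc_erase e X (Finset.mem_erase.2 ⟨hd.hxy.symm, hd.hy⟩),
    cc_comm hn.symm X {x}, cc_comm hn.symm X {y}]
  ring

lemma f_net (h : Irr e o V v k) (hd : DartFacts e o V x y) :
    Net (fE e x y) (fO e o x y) ((V.erase x).erase y) where
  symm := by
    intro a b
    unfold fE
    by_cases hab : a = b
    · simp [hab]
    · have hba : b ≠ a := fun h => hab h.symm
      rw [if_neg hab, if_neg hba, h.net.symm a b, h.net.symm a x, h.net.symm x b,
        h.net.symm a y, h.net.symm y b]
      ring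
  irr := fun a => by simp [fE]
  deg := by
    intro a ha
    have haV : a ∈ V := erase2_sub x y V ha
    rw [fE_deg h.net hd ha]
    have h1 := cc_V_erase2 h.net hd {a}
    rw [cc_single_single, cc_single_single] at h1
    have h2 := h.net.deg a haV
    have h3 := hd.hnx
    have h4 := hd.hny
    have h5 : (0 : ℤ) ≤ e x a := by positivity
    have h6 : (0 : ℤ) ≤ e y a := by positivity
    nlinarith
  sp := by
    intro G hG hne
    have hn := h.net
    have hGV : G ⊆ V := hG.trans (erase2_sub x y V)
    rw [fE_cc hn.symm hn.irr (Finset.Subset.refl G)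
      (fun b hb => hn.e_le_one hd.hx (hGV hb)) (fun b hb => hn.e_le_one hd.hy (hGV hb))]
    have hxG : x ∉ G := fun hh => by
      have := hG hh
      simp at this
    have hyG : y ∉ G := fun hh => by
      have := hG hh
      simp at this
    have tx0 := cc_nonneg e {x} G
    have ty0 := cc_nonneg e {y} G
    have tx1 := cc_mono_right e (X := {x}) hG
    have ty1 := cc_mono_right e (X := {y}) hG
    have hnx := hd.hnx
    have hny := hd.hny
    have hox : (0 : ℤ) ≤ o x := by positivity
    have hoy : (0 : ℤ) ≤ o y := by positivity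
    have hdx : Disjoint {x} G := by simpa using hxG
    have hdy : Disjoint {y} G := by simpa using hyG
    have hsx := cc_union_union hn.symm hdx
    have hsy := cc_union_union hn.symm hdy
    have hcx := card_union_int hdx
    have hcy := card_union_int hdy
    rw [cc_self_single hn.irr] at hsx hsy
    have hG1 : 1 ≤ G.card := Finset.card_pos.2 hne
    have hx4 := h.sp4 ({x} ∪ G) (Finset.union_subset (by simpa using hd.hx) hGV)
      (by
        intro hc
        have := hd.hy
        rw [← hc, Finset.mem_union, Finset.mem_singleton] at this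
        rcases this with h' | h'
        · exact hd.hxy h'.symm
        · exact hyG h')
      (by
        simp only [Finset.card_singleton] at hcx
        omega)
    have hy4 := h.sp4 ({y} ∪ G) (Finset.union_subset (by simpa using hd.hy) hGV)
      (by
        intro hc
        have := hd.hx
        rw [← hc, Finset.mem_union, Finset.mem_singleton] at this
        rcases this with h' | h'
        · exact hd.hxy h'
        · exact hxG h')
      (by
        simp only [Finset.card_singleton] at hcy
        omega)
    have h3 := hn.sp G hGV hne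
    have hdxy : Disjoint {x} ({y} ∪ G) := by
      rw [Finset.disjoint_singleton_left, Finset.mem_union, Finset.mem_singleton]
      rintro (h' | h')
      · exact hd.hxy h'
      · exact hxG h'
    have hsxy := cc_union_union hn.symm hdxy
    have hcxy := card_union_int hdxy
    rw [cc_self_single hn.irr, cc_union_right e _ hdy, cc_single_single, hd.exy] at hsxy
    have h33 := hn.sp ({x} ∪ ({y} ∪ G)) (Finset.union_subset (by simpa using hd.hx)
      (Finset.union_subset (by simpa using hd.hy) hGV)) ⟨x, by simp⟩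
    simp only [Finset.card_singleton] at hcx hcy hcxy
    rcases int_lemma2 tx0 tx1 (by linarith) with hx | ⟨hx, hx'⟩ <;>
    rcases int_lemma2 ty0 ty1 (by linarith) with hy | ⟨hy, hy'⟩ <;>
    rw [hx, hy] <;> push_cast at * <;> linarith

lemma f_del (hn : Net e o V) (hd : DartFacts e o V x y) {G : Finset ι}
    (hG : G ⊆ (V.erase x).erase y) :
    del (fE e x y) (fO e o x y) ((V.erase x).erase y) G = del e o V G +
      cc e {x} G * (3 + cc e {x} G - 2 * o x - 2 * cc e {x} ((V.erase x).erase y)) +
      cc e {y} G * (3 + cc e {y} G - 2 * o y - 2 * cc e {y} ((V.erase x).erase y)) := by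
  have hGV : G ⊆ V := hG.trans (erase2_sub x y V)
  unfold del
  rw [fE_cc hn.symm hn.irr (Finset.Subset.refl G)
      (fun b hb => hn.e_le_one hd.hx (hGV hb)) (fun b hb => hn.e_le_one hd.hy (hGV hb)),
    fE_cc hn.symm hn.irr hG
      (fun b hb => hn.e_le_one hd.hx (hGV hb)) (fun b hb => hn.e_le_one hd.hy (hGV hb)),
    fO_oo hn.symm, cc_V_erase2 hn hd G]
  ring

/-- `δ` bound for the new network -/
lemma f_al (h : Irr e o V v k) (hd : DartFacts e o V x y) {G : Finset ι}
    (hG : G ⊆ (V.erase x).erase y)
    (hv : v ∈ G ∨ (v = x ∧ cc e {x} G = 1)) :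
    del (fE e x y) (fO e o x y) ((V.erase x).erase y) G ≤ k := by
  have hn := h.net
  have hGV : G ⊆ V := hG.trans (erase2_sub x y V)
  rw [f_del hn hd hG]
  have hxG : x ∉ G := fun hh => by
    have := hG hh
    simp at this
  have hyG : y ∉ G := fun hh => by
    have := hG hh
    simp at this
  have tx0 := cc_nonneg e {x} G
  have ty0 := cc_nonneg e {y} G
  have tx1 := cc_mono_right e (X := {x}) hG
  have ty1 := cc_mono_right e (X := {y}) hG
  have hnx := hd.hnx
  have hny := hd.hny
  have hox : (0 : ℤ) ≤ o x := by positivity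
  have hoy : (0 : ℤ) ≤ o y := by positivity
  have hdx : Disjoint {x} G := by simpa using hxG
  have hdy : Disjoint {y} G := by simpa using hyG
  have hdxy : Disjoint {x} ({y} ∪ G) := by
    rw [Finset.disjoint_singleton_left, Finset.mem_union, Finset.mem_singleton]
    rintro (h' | h')
    · exact hd.hxy h'
    · exact hxG h'
  have hux := del_union hn.symm o V hdx
  have huy := del_union hn.symm o V hdy
  have huxy := del_union hn.symm o V hdxy
  rw [cc_union_right e _ hdy, cc_single_single, hd.exy, huy] at huxy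
  rw [del_single hn.irr, hd.nx] at hux huxy
  rw [del_single hn.irr, hd.ny] at huy huxy
  have hsubx : {x} ∪ G ⊆ V := Finset.union_subset (by simpa using hd.hx) hGV
  have hsuby : {y} ∪ G ⊆ V := Finset.union_subset (by simpa using hd.hy) hGV
  have hsubxy : {x} ∪ ({y} ∪ G) ⊆ V := Finset.union_subset (by simpa using hd.hx) hsuby
  have hnex : {x} ∪ G ≠ V := by
    intro hc
    have := hd.hy
    rw [← hc, Finset.mem_union, Finset.mem_singleton] at this
    rcases this with h' | h'
    · exact hd.hxy h'.symm
    · exact hyG h'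
  have hney : {y} ∪ G ≠ V := by
    intro hc
    have := hd.hx
    rw [← hc, Finset.mem_union, Finset.mem_singleton] at this
    rcases this with h' | h'
    · exact hd.hxy h'
    · exact hxG h'
  rcases hv with hv | ⟨rfl, hv⟩
  · have a0 := h.al G hGV hv
    have ax := h.al' _ hsubx hnex (Finset.mem_union_right _ hv)
    have ay := h.al' _ hsuby hney (Finset.mem_union_right _ hv)
    have axy := h.al _ hsubxy (Finset.mem_union_right _ (Finset.mem_union_right _ hv))
    rcases int_lemma tx0 tx1 hox hnx with hx | ⟨hx, hx', hx''⟩ <;>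
    rcases int_lemma ty0 ty1 hoy hny with hy | ⟨hy, hy', hy''⟩ <;>
    rw [hx, hy] <;> push_cast at * <;> linarith
  · have ax := h.al' _ hsubx hnex (Finset.mem_union_left _ (by simp))
    have axy := h.al _ hsubxy (Finset.mem_union_left _ (by simp))
    have h5 := h.deg
    rw [hd.nx] at h5
    have h6 := h.out
    have hx : cc e {v} G * (3 + cc e {v} G - 2 * o v -
        2 * cc e {v} ((V.erase v).erase y)) = 2 := by
      rw [hv, h6, show cc e {v} ((V.erase v).erase y) = 1 by linarith]
      norm_num
    rw [h6] at hux huxy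
    rcases int_lemma ty0 ty1 hoy hny with hy | ⟨hy, hy', hy''⟩ <;>
    rw [hx, hy] <;> push_cast at * <;> linarith

/-- case `v ∉ {x,y}` -/
lemma dart_case1 (IH : Good ι V.card) (h : Irr e o V v k) (hd : DartFacts e o V x y)
    (hvx : v ≠ x) (hvy : v ≠ y) :
    ww k ≤ W (om x y) (delE e x y) (fun a => (o a : ℝ)) V v := by
  have hn := h.net
  have hvV3 : v ∈ (V.erase x).erase y :=
    Finset.mem_erase.2 ⟨hvy, Finset.mem_erase.2 ⟨hvx, h.mem⟩⟩
  have hcard : ((V.erase x).erase y).card < V.card :=
    lt_of_le_of_lt (Finset.card_le_card (Finset.erase_subset _ _))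
      (Finset.card_erase_lt_of_mem hd.hx)
  have h1 : ww k ≤ WW (fE e x y) (fO e o x y) ((V.erase x).erase y) v := by
    refine IH _ _ _ v k hcard (f_net h hd) hvV3 ?_ fun G hG hvG => f_al h hd hG (Or.inl hvG)
    rw [fE_deg hn hd hvV3]
    have h1 := cc_V_erase2 hn hd {v}
    rw [cc_single_single, cc_single_single] at h1
    have h2 := h.deg
    have h3 := hd.hnx
    have h4 := hd.hny
    have h5 : (0 : ℤ) ≤ e x v := by positivity
    have h6 : (0 : ℤ) ≤ e y v := by positivity
    have h7 := h.out
    rw [h7]
    push_cast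
    nlinarith
  refine h1.trans ?_
  have hs1 := delE_symm hn.symm x y
  have hs2 := supE_symm hs1 x
  have hyV : y ∈ V.erase x := Finset.mem_erase.2 ⟨hd.hxy.symm, hd.hy⟩
  have hyx := hd.hxy.symm
  have dxy : delE e x y x y = 0 := by simp [delE]
  have dyx : delE e x y y x = 0 := by simp [delE]
  have dx : ∀ a, a ≠ y → delE e x y x a = e x a := by
    intro a ha
    unfold delE
    rw [if_neg]
    rintro (⟨_, h'⟩ | ⟨h', _⟩)
    · exact ha h'
    · exact hd.hxy h'
  have dy : ∀ a, a ≠ x → delE e x y y a = e y a := by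
    intro a ha
    unfold delE
    rw [if_neg]
    rintro (⟨h', _⟩ | ⟨_, h'⟩)
    · exact hd.hxy h'.symm
    · exact ha h'
  have dxr : ∀ a, a ≠ y → delE e x y a x = e a x := by
    intro a ha
    rw [hs1, dx a ha, hn.symm]
  have dyr : ∀ a, a ≠ x → delE e x y a y = e a y := by
    intro a ha
    rw [hs1, dy a ha, hn.symm]
  have dab : ∀ a b, a ≠ x → a ≠ y → delE e x y a b = e a b := by
    intro a b ha hb
    unfold delE
    rw [if_neg]
    rintro (⟨h', _⟩ | ⟨h', _⟩)
    · exact ha h'
    · exact hb h'
  -- first suppression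
  have hW1 := sup_W (om_nonneg x y) (e := delE e x y) hs1 o (x := x) (by simp [om]) V hd.hx
    (by
      have h2 : cc (delE e x y) {x} (V.erase x) = cc e {x} ((V.erase x).erase y) := by
        rw [cc_erase _ {x} hyV, cc_single_single, dxy, cc_single_left, cc_single_left]
        push_cast
        rw [zero_add]
        refine Finset.sum_congr rfl fun a ha => ?_
        rw [dx a (Finset.ne_of_mem_erase ha)]
      rw [h2]
      exact hd.hnx) v (Finset.mem_erase.2 ⟨hvx, h.mem⟩)
  have supy : ∀ b, b ≠ x → b ≠ y → supE (delE e x y) x y b = e y b := by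
    intro b hbx hby
    unfold supE
    rw [if_neg hby.symm, dy b hbx, dyx]
    ring
  have hW2 := sup_W (om_nonneg x y) (e := supE (delE e x y) x) hs2
    (supO (delE e x y) o x) (x := y) (by simp [om]) (V.erase x) hyV
    (by
      have h2 : cc (supE (delE e x y) x) {y} ((V.erase x).erase y) =
          cc e {y} ((V.erase x).erase y) := by
        rw [cc_single_left, cc_single_left]
        refine Finset.sum_congr rfl fun a ha => ?_
        rw [supy a (Finset.ne_of_mem_erase (Finset.mem_of_mem_erase ha))
          (Finset.ne_of_mem_erase ha)]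
      have h3 : supO (delE e x y) o x y = o y := by
        unfold supO
        rw [dyx]
        ring
      rw [h2, h3]
      exact hd.hny) v hvV3
  refine le_trans (le_of_eq ?_) (hW2.trans hW1)
  unfold WW
  refine W_congr _ ?_ ?_ ?_ v
  · intro a ha
    have ha1 : a ≠ y := Finset.ne_of_mem_erase ha
    have ha2 : a ≠ x := Finset.ne_of_mem_erase (Finset.mem_of_mem_erase ha)
    simp [om, ha1, ha2]
  · intro a ha b hb hab
    have ha1 : a ≠ y := Finset.ne_of_mem_erase ha
    have ha2 : a ≠ x := Finset.ne_of_mem_erase (Finset.mem_of_mem_erase ha)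
    have hb1 : b ≠ y := Finset.ne_of_mem_erase hb
    have hb2 : b ≠ x := Finset.ne_of_mem_erase (Finset.mem_of_mem_erase hb)
    have e1 : supE (delE e x y) x a b = e a b + e a x * e x b := by
      unfold supE
      rw [if_neg hab, dab a b ha2 ha1, dxr a ha1, dx b hb1]
    have e2 : supE (delE e x y) x a y = e a y := by
      rw [hs2, supy a ha2 ha1, hn.symm]
    have e3 : supE (supE (delE e x y) x) y a b =
        supE (delE e x y) x a b + supE (delE e x y) x a y * supE (delE e x y) x y b := by
      conv_lhs => unfold supE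
      rw [if_neg hab]
      rfl
    rw [e3, e1, e2, supy b hb2 hb1]
    unfold fE
    rw [if_neg hab]
  · intro a ha
    have ha1 : a ≠ y := Finset.ne_of_mem_erase ha
    have ha2 : a ≠ x := Finset.ne_of_mem_erase (Finset.mem_of_mem_erase ha)
    have e2 : supE (delE e x y) x a y = e a y := by
      rw [hs2, supy a ha2 ha1, hn.symm]
    have e3 : supO (supE (delE e x y) x) (supO (delE e x y) o x) y a =
        supO (delE e x y) o x a + supE (delE e x y) x a y * supO (delE e x y) o x y := rfl
    rw [e3, e2]
    unfold supO fO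
    rw [dxr a ha1, dyx]
    push_cast
    ring

/-- case `v = x` -/
lemma dart_case2 (IH : Good ι V.card) (h : Irr e o V v k) (hd : DartFacts e o V v y) :
    ww k ≤ W (om v y) (delE e v y) (fun a => (o a : ℝ)) V v := by
  have hn := h.net
  have hyV : y ∈ V.erase v := Finset.mem_erase.2 ⟨hd.hxy.symm, hd.hy⟩
  have hnv : cc e {v} ((V.erase v).erase y) = 1 := by
    have := hd.nx
    rw [h.deg] at this
    linarith
  obtain ⟨u, hu, heu⟩ : ∃ u ∈ (V.erase v).erase y, e v u ≠ 0 := by
    by_contra hcon
    push Not at hcon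
    rw [cc_single_left, Finset.sum_eq_zero] at hnv
    · norm_num at hnv
    · intro a ha
      rw [hcon a ha]
      rfl
  have huV : u ∈ V := erase2_sub v y V hu
  have heu1 : e v u = 1 := by
    have := hn.e_le_one h.mem huV
    omega
  have huy : u ≠ y := Finset.ne_of_mem_erase hu
  have huv : u ≠ v := Finset.ne_of_mem_erase (Finset.mem_of_mem_erase hu)
  have hother : ∀ a ∈ (V.erase v).erase y, a ≠ u → e v a = 0 := by
    intro a ha hau
    have h1 := cc_erase e {v} hu
    rw [cc_single_single, heu1, hnv] at h1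
    have h2 : (e v a : ℤ) ≤ cc e {v} (((V.erase v).erase y).erase u) :=
      cc_ge_of_mem e v (Finset.mem_erase.2 ⟨hau, ha⟩)
    push_cast at h1
    omega
  have hcard : ((V.erase v).erase y).card < V.card :=
    lt_of_le_of_lt (Finset.card_le_card (Finset.erase_subset _ _))
      (Finset.card_erase_lt_of_mem hd.hx)
  have h1 : ww k ≤ WW (fE e v y) (fO e o v y) ((V.erase v).erase y) u := by
    refine IH _ _ _ u k hcard (f_net h hd) hu ?_ fun G hG huG => f_al h hd hG (Or.inr ⟨rfl, ?_⟩)
    · rw [fE_deg hn hd hu]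
      have h1 := cc_V_erase2 hn hd {u}
      rw [cc_single_single, cc_single_single, heu1] at h1
      have h2 := hn.deg u huV
      have h4 := hd.hny
      have h6 : (0 : ℤ) ≤ e y u := by positivity
      have h7 := h.out
      rw [h7, hnv, heu1]
      push_cast at *
      nlinarith
    · have h1 := cc_mono_right e (X := {v}) hG
      have h2 := cc_ge_of_mem e v huG
      rw [heu1] at h2
      push_cast at h2
      linarith
  refine h1.trans ?_
  have hs1 := delE_symm hn.symm v y
  have dvy : delE e v y y v = 0 := by simp [delE]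
  have dv : ∀ a, a ≠ y → delE e v y v a = e v a := by
    intro a ha
    unfold delE
    rw [if_neg]
    rintro (⟨_, h'⟩ | ⟨h', _⟩)
    · exact ha h'
    · exact hd.hxy h'
  have dy : ∀ a, a ≠ v → delE e v y y a = e y a := by
    intro a ha
    unfold delE
    rw [if_neg]
    rintro (⟨h', _⟩ | ⟨_, h'⟩)
    · exact hd.hxy h'.symm
    · exact ha h'
  have dyr : ∀ a, a ≠ v → delE e v y a y = e a y := by
    intro a ha
    rw [hs1, dy a ha, hn.symm]
  have dab : ∀ a b, a ≠ v → a ≠ y → delE e v y a b = e a b := by
    intro a b ha hb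
    unfold delE
    rw [if_neg]
    rintro (⟨h', _⟩ | ⟨h', _⟩)
    · exact ha h'
    · exact hb h'
  have hW1 := sup_W (om_nonneg v y) (e := delE e v y) hs1 o (x := y) (by simp [om])
    (V.erase v) hyV
    (by
      have h2 : cc (delE e v y) {y} ((V.erase v).erase y) = cc e {y} ((V.erase v).erase y) := by
        rw [cc_single_left, cc_single_left]
        refine Finset.sum_congr rfl fun a ha => ?_
        rw [dy a (Finset.ne_of_mem_erase (Finset.mem_of_mem_erase ha))]
      rw [h2]
      exact hd.hny) u hu
  have hW2 : W (om v y) (delE e v y) (fun a => (o a : ℝ)) (V.erase v) u ≤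
      W (om v y) (delE e v y) (fun a => (o a : ℝ)) V v := by
    rw [W_mem h.mem]
    have h2 : om v y v = 1 := by simp [om]
    have huV' : u ∈ V.erase v := Finset.mem_of_mem_erase hu
    rw [h2, one_mul, h.out, ← Finset.add_sum_erase _ _ huV', dv u huy, heu1]
    have h3 : 0 ≤ ∑ a ∈ (V.erase v).erase u, (delE e v y v a : ℝ) *
        W (om v y) (delE e v y) (fun a => (o a : ℝ)) (V.erase v) a :=
      Finset.sum_nonneg fun a _ => mul_nonneg (by positivity)
        (W_nonneg (om_nonneg v y) _ (fun _ _ => by positivity) _)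
    push_cast
    linarith
  refine le_trans (le_of_eq ?_) (hW1.trans hW2)
  unfold WW
  refine W_congr _ ?_ ?_ ?_ u
  · intro a ha
    have ha1 : a ≠ y := Finset.ne_of_mem_erase ha
    have ha2 : a ≠ v := Finset.ne_of_mem_erase (Finset.mem_of_mem_erase ha)
    simp [om, ha1, ha2]
  · intro a ha b hb hab
    have ha1 : a ≠ y := Finset.ne_of_mem_erase ha
    have ha2 : a ≠ v := Finset.ne_of_mem_erase (Finset.mem_of_mem_erase ha)
    have hb1 : b ≠ y := Finset.ne_of_mem_erase hb
    have hb2 : b ≠ v := Finset.ne_of_mem_erase (Finset.mem_of_mem_erase hb)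
    have h0 : e a v * e v b = 0 := by
      by_cases hau : a = u
      · have hbu : b ≠ u := fun h' => hab (hau.trans h'.symm)
        rw [hother b hb hbu]
        ring
      · rw [hn.symm a v, hother a ha hau]
        ring
    unfold fE supE
    rw [if_neg hab, if_neg hab, h0, dab a b ha2 ha1, dyr a ha2, dy b hb2]
    ring
  · intro a ha
    have ha2 : a ≠ v := Finset.ne_of_mem_erase (Finset.mem_of_mem_erase ha)
    unfold fO supO
    rw [dyr a ha2, h.out]
    push_cast
    ring

lemma DartFacts.swap (hn : Net e o V) (hd : DartFacts e o V x y) : DartFacts e o V y x :=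
  dartFacts hn hd.hy hd.hx (by rw [hn.symm, hd.exy]; norm_num)

lemma dart_bound (IH : Good ι V.card) (h : Irr e o V v k) (hx : x ∈ V) (hy : y ∈ V)
    (he : e x y ≠ 0) :
    ww k ≤ W (om x y) (delE e x y) (fun a => (o a : ℝ)) V v := by
  have hd := dartFacts h.net hx hy he
  by_cases hvx : v = x
  · subst hvx
    exact dart_case2 IH h hd
  · by_cases hvy : v = y
    · subst hvy
      have h1 := dart_case2 IH h (hd.swap h.net)
      refine h1.trans (le_of_eq ?_)
      refine W_congr _ ?_ ?_ (fun _ _ => rfl) v
      · intro a _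
        unfold om
        simp only [or_comm]
      · intro a _ b _ _
        unfold delE
        simp only [or_comm]
    · exact dart_case1 IH h hd hvx hvy

end dart

end Pool.Agent.A05699
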