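import Mathlib

set_option autoImplicit false

namespace Pool.Agent.A05699

/-- finitely many `ℚ`-independent reals -/
lemma exists_indep (j : Type) [Fintype j] : ∃ b : j → ℝ, LinearIndependent ℤ b := by
  classical
  let B := Module.Basis.ofVectorSpace ℚ ℝ
  have hinf : Infinite (Module.Basis.ofVectorSpaceIndex ℚ ℝ) := by
    rw [← Cardinal.aleph0_le_mk_iff]
    rw [B.mk_eq_rank'', Real.rank_rat_real]
    exact Cardinal.aleph0_le_continuum
  let f : j ↪ Module.Basis.ofVectorSpaceIndex ℚ ℝ :=
    ((Fintype.equivFin j).toEmbedding.trans Fin.valEmbedding).trans (Infinite.natEmbedding _)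
  refine ⟨fun i => B (f i), ?_⟩
  have h1 : LinearIndependent ℚ (fun i => B (f i)) :=
    B.linearIndependent.comp f f.injective
  exact h1.restrict_scalars' ℤ

/-- a finite index abelian subgroup which embeds in `ℝ` -/
lemma exists_sub {Γ : Type*} [Group Γ] [Group.FG Γ] (H : Subgroup Γ) (hfi : H.FiniteIndex)
    (hab : ∀ a ∈ H, ∀ b ∈ H, a * b = b * a) :
    ∃ A : Subgroup Γ, A.FiniteIndex ∧ ∃ ℓ : A → ℝ, (∀ a b, ℓ (a * b) = ℓ a + ℓ b) ∧
      Function.Injective ℓ := by
  classical
  let _ : CommGroup H :=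
    { (inferInstance : Group H) with
      mul_comm := fun a b => Subtype.ext (hab a a.2 b b.2) }
  have hfg : Group.FG H := H.fg_of_index_ne_zero
  obtain ⟨ι, j, _, _, p, hp, e, ⟨f⟩⟩ := CommGroup.equiv_free_prod_prod_multiplicative_zmod H
  obtain ⟨b, hb⟩ := exists_indep j
  let ψ : H →* ((i : ι) → Multiplicative (ZMod (p i ^ e i))) :=
    (MonoidHom.snd _ _).comp f.toMonoidHom
  have hfin : ∀ i, Finite (Multiplicative (ZMod (p i ^ e i))) := by
    intro i
    have : NeZero (p i ^ e i) := ⟨pow_ne_zero _ (hp i).ne_zero⟩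
    exact inferInstanceAs (Finite (ZMod (p i ^ e i)))
  have hker : ψ.ker.FiniteIndex := Subgroup.finiteIndex_ker ψ
  refine ⟨ψ.ker.map H.subtype, ⟨?_⟩, ?_⟩
  · rw [Subgroup.index_map_subtype]
    exact mul_ne_zero hker.index_ne_zero hfi.index_ne_zero
  · have hle : ψ.ker.map H.subtype ≤ H := Subgroup.map_subtype_le _
    let g : H → ℝ := fun x => ∑ i, (Multiplicative.toAdd ((f x).1 i) : ℤ) • b i
    have hg : ∀ x y, g (x * y) = g x + g y := by
      intro x y
      simp only [g, map_mul, Prod.fst_mul, Pi.mul_apply, toAdd_mul, add_smul,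
        Finset.sum_add_distrib]
    refine ⟨fun a => g ⟨a, hle a.2⟩, ?_, ?_⟩
    · intro a b
      rw [← hg]
      rfl
    · intro x y hxy
      obtain ⟨x', hx', hxx⟩ := x.2
      obtain ⟨y', hy', hyy⟩ := y.2
      have e1 : (⟨x, hle x.2⟩ : H) = x' := Subtype.ext hxx.symm
      have e2 : (⟨y, hle y.2⟩ : H) = y' := Subtype.ext hyy.symm
      simp only [e1, e2] at hxy
      have h1 : (f x').2 = 1 := hx'
      have h2 : (f y').2 = 1 := hy'
      have h3 : (f x').1 = (f y').1 := by
        have h4 : ∑ i, ((Multiplicative.toAdd ((f x').1 i) : ℤ) -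
            Multiplicative.toAdd ((f y').1 i)) • b i = 0 := by
          simp only [sub_smul, Finset.sum_sub_distrib]
          simp only [g] at hxy
          rw [hxy, sub_self]
        have h5 := Fintype.linearIndependent_iff.1 hb _ h4
        funext i
        have := h5 i
        exact Multiplicative.toAdd.injective (sub_eq_zero.1 this)
      have h4 : f x' = f y' := Prod.ext h3 (h1.trans h2.symm)
      have h5 : x' = y' := f.injective h4
      apply Subtype.ext
      rw [← hxx, ← hyy, h5]

end Pool.Agent.A05699
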