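import Pool.Agent.Lib.MP_a05699_co.Count
import Pool.Agent.Lib.MP_a05699_co.Group

set_option autoImplicit false

namespace Pool.Agent.A05699

lemma golden_mul_zz : Real.goldenRatio * zz = 1 := by
  unfold Real.goldenRatio zz
  have h : Real.sqrt 5 * Real.sqrt 5 = 5 := Real.mul_self_sqrt (by norm_num)
  nlinarith

theorem golden_le_count (Γ : Type*) [Group Γ] [Infinite Γ] (S : Finset Γ)
    (hcard : S.card = 3) (h1S : (1 : Γ) ∉ S) (hS : ∀ s ∈ S, s⁻¹ ∈ S)
    (hgen : Subgroup.closure (S : Set Γ) = ⊤)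
    (hH : ∃ H : Subgroup Γ, H.FiniteIndex ∧ ∀ a ∈ H, ∀ b ∈ H, a * b = b * a) (n : ℕ) :
    Real.goldenRatio ^ n ≤
      ((Set.ncard {w : Fin (n + 1) → Γ | w 0 = 1 ∧ Function.Injective w ∧
        ∀ i : Fin n, (w i.castSucc)⁻¹ * w i.succ ∈ S} : ℕ) : ℝ) := by
  classical
  obtain ⟨H, hfi, hab⟩ := hH
  have hfg : Group.FG Γ := Group.fg_iff.2 ⟨S, hgen, S.finite_toSet⟩
  obtain ⟨A, hA, ℓ, hℓ, hinj⟩ := exists_sub H hfi hab
  have hfinQ : Finite (Γ ⧸ A) := Subgroup.finite_quotient_of_finiteIndex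
  let _ : Fintype (Γ ⧸ A) := Fintype.ofFinite _
  obtain ⟨h, hh, hmin⟩ := exists_min (A := A) hS hgen hℓ
  have hLv : ∀ c g, g ∈ (level_finite hℓ hinj hh c).toFinset ↔ h g = c := by
    intro c g
    simp
  have hL : ∀ c, ((level_finite hℓ hinj hh c).toFinset).card ≤ Fintype.card (Γ ⧸ A) :=
    fun c => level_card hℓ hinj hh fun g hg => (hLv c g).1 hg
  have key : ∀ v, (∃ s ∈ S, h (v * s) < h v) →
      1 ≤ WW (ce S) (upc S h) ((level_finite hℓ hinj hh (h v)).toFinset) v := by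
    intro v hd
    exact level_ge_one hcard h1S hS hgen hℓ hinj hh hmin (hLv (h v)) ((hLv _ _).2 rfl) hd
  -- a vertex with a lower neighbour
  obtain ⟨v0, hv0⟩ : ∃ v, ∃ s ∈ S, h (v * s) < h v := by
    by_contra hcon
    push Not at hcon
    have heq : ∀ v, ∀ s ∈ S, h (v * s) = h v := by
      intro v s hs
      refine le_antisymm ?_ (hcon v s hs)
      have := hcon (v * s) s⁻¹ (hS s hs)
      simpa using this
    have hTV : TV A S h = 0 := by
      unfold TV
      refine Finset.sum_eq_zero fun q _ => Finset.sum_eq_zero fun s hs => ?_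
      rw [heq _ s hs, sub_self, max_self]
    have hconst : ∀ g, h g = h 1 := by
      intro g
      obtain ⟨M, _, hM⟩ := exists_bound (A := A) hS hgen ℓ g
      have h1 := hM h hh 1
      rw [hTV, mul_zero, one_mul] at h1
      have h2 := abs_nonpos_iff.1 h1
      linarith
    have hfin := level_finite hℓ hinj hh (h 1)
    have huniv : {g | h g = h 1} = Set.univ := by
      ext g
      simp [hconst g]
    rw [huniv] at hfin
    exact Set.infinite_univ hfin
  have hlow : ∀ m, 1 ≤ ∑ k ∈ Finset.Ico m (m * Fintype.card (Γ ⧸ A) + 1),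
      zz ^ k * (cnt S k ∅ 1 : ℝ) := by
    intro m
    have h1 := R_all hS hLv hL key m ∅ v0 (by simp) hv0
    unfold TT at h1
    simpa only [cnt_empty S _ v0] using h1
  have hsub : ∀ m k, zz ^ (m + k) * (cnt S (m + k) ∅ 1 : ℝ) ≤
      (zz ^ m * (cnt S m ∅ 1 : ℝ)) * (zz ^ k * (cnt S k ∅ 1 : ℝ)) := by
    intro m k
    have h1 : (cnt S (m + k) ∅ 1 : ℝ) ≤ (cnt S m ∅ 1 : ℝ) * (cnt S k ∅ 1 : ℝ) := by
      exact_mod_cast cnt_submul S m k ∅ 1
    calc zz ^ (m + k) * (cnt S (m + k) ∅ 1 : ℝ)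
        ≤ zz ^ (m + k) * ((cnt S m ∅ 1 : ℝ) * (cnt S k ∅ 1 : ℝ)) :=
          mul_le_mul_of_nonneg_left h1 (pow_nonneg zz_pos.le _)
      _ = _ := by rw [pow_add]; ring
  have hfin := submul_lower (a := fun k => zz ^ k * (cnt S k ∅ 1 : ℝ))
    (fun k => mul_nonneg (pow_nonneg zz_pos.le k) (by positivity)) hsub hlow n
  rw [ncard_walks]
  have hφ : (0 : ℝ) < Real.goldenRatio ^ n := pow_pos Real.goldenRatio_pos n
  have h1 : Real.goldenRatio ^ n * zz ^ n = 1 := by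
    rw [← mul_pow, golden_mul_zz, one_pow]
  calc Real.goldenRatio ^ n = Real.goldenRatio ^ n * 1 := by ring
    _ ≤ Real.goldenRatio ^ n * (zz ^ n * (cnt S n ∅ 1 : ℝ)) :=
        mul_le_mul_of_nonneg_left hfin hφ.le
    _ = (Real.goldenRatio ^ n * zz ^ n) * (cnt S n ∅ 1 : ℝ) := by ring
    _ = _ := by rw [h1, one_mul]

end Pool.Agent.A05699
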