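import Pool.Agent.Lib.MP_a05699_co.TV

set_option autoImplicit false
set_option linter.unusedSectionVars false

namespace Pool.Agent.A05699

variable {Γ : Type*} [Group Γ] [DecidableEq Γ]
variable {A : Subgroup Γ} [Fintype (Γ ⧸ A)]

/-- number of up-neighbours -/
noncomputable def upc (S : Finset Γ) (h : Γ → ℝ) (x : Γ) : ℕ :=
  (S.filter (fun s => h x < h (x * s))).card

noncomputable def downc (S : Finset Γ) (h : Γ → ℝ) (x : Γ) : ℕ :=
  (S.filter (fun s => h (x * s) < h x)).card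

noncomputable def levc (S : Finset Γ) (h : Γ → ℝ) (x : Γ) : ℕ :=
  (S.filter (fun s => h (x * s) = h x)).card

lemma count_three (S : Finset Γ) (h : Γ → ℝ) (x : Γ) :
    upc S h x + downc S h x + levc S h x = S.card := by
  unfold upc downc levc
  rw [Finset.card_filter, Finset.card_filter, Finset.card_filter, ← Finset.sum_add_distrib,
    ← Finset.sum_add_distrib, Finset.card_eq_sum_ones]
  refine Finset.sum_congr rfl fun s _ => ?_
  rcases lt_trichotomy (h (x * s)) (h x) with h1 | h1 | h1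
  · rw [if_neg (not_lt.2 h1.le), if_pos h1, if_neg h1.ne]
  · rw [if_neg (by rw [h1]; exact lt_irrefl _), if_neg (by rw [h1]; exact lt_irrefl _), if_pos h1]
  · rw [if_pos h1, if_neg (not_lt.2 h1.le), if_neg h1.ne']

/-- first order optimality, in terms of the level set -/
lemma first_order_level {S : Finset Γ} (hS : ∀ s ∈ S, s⁻¹ ∈ S) {ℓ : A → ℝ}
    (hℓ : ∀ a b, ℓ (a * b) = ℓ a + ℓ b) (hinj : Function.Injective ℓ)
    {h : Γ → ℝ} (hh : h ∈ HSet A ℓ)
    (hmin : ∀ h' ∈ HSet A ℓ, TV A S h ≤ TV A S h') {c : ℝ} {F : Finset Γ}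
    (hF : ∀ g ∈ F, h g = c) :
    (0 : ℝ) ≤ ∑ f ∈ F, ((upc S h f : ℝ) - (downc S h f : ℝ) + ((levc S h f : ℝ) -
      ((S.filter (fun s => f * s ∈ F)).card : ℝ))) := by
  have h0 := first_order hh hmin F
  have hdi := fun s a g => diff_inv hh s a g
  -- the three functions
  set φ1 : Γ → ℝ := fun g => ∑ s ∈ S, if 0 < h (g * s) - h g then (1 : ℝ) else 0 with hφ1
  set φ2 : Γ → ℝ := fun g => ∑ s ∈ S, if h (g * s) - h g < 0 then (1 : ℝ) else 0 with hφ2
  set φ3 : Γ → ℝ := fun g => ∑ s ∈ S, if h (g * s) - h g = 0 then (1 - ind A F (g * s)) else 0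
    with hφ3
  have i1 : ∀ (a : A) (g : Γ), φ1 (a * g) = φ1 g := by
    intro a g
    simp only [hφ1, hdi]
  have i2 : ∀ (a : A) (g : Γ), φ2 (a * g) = φ2 g := by
    intro a g
    simp only [hφ2, hdi]
  have i3 : ∀ (a : A) (g : Γ), φ3 (a * g) = φ3 g := by
    intro a g
    simp only [hφ3, hdi]
    refine Finset.sum_congr rfl fun s _ => ?_
    rw [mul_assoc, ind_inv]
  -- second sum, by reversal
  have hrev : ∑ q : Γ ⧸ A, ∑ s ∈ S,
      (if 0 < h (rp q * s) - h (rp q) then ind A F (rp q * s) else 0) =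
      ∑ q : Γ ⧸ A, ind A F (rp q) * φ2 (rp q) := by
    rw [Finset.sum_comm]
    have h1 : ∀ s ∈ S, ∑ q : Γ ⧸ A,
        (if 0 < h (rp q * s) - h (rp q) then ind A F (rp q * s) else 0) =
        ∑ q : Γ ⧸ A, (if h (rp q * s⁻¹) - h (rp q) < 0 then ind A F (rp q) else 0) := by
      intro s _
      set ψ : Γ → ℝ := fun g => if h (g * s⁻¹) - h g < 0 then ind A F g else 0 with hψ
      have hψi : ∀ (a : A) (g : Γ), ψ (a * g) = ψ g := by
        intro a g
        simp only [hψ, hdi, ind_inv]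
      have h2 := sum_shift hψi s
      rw [← h2]
      refine Finset.sum_congr rfl fun q _ => ?_
      simp only [hψ]
      rw [mul_inv_cancel_right]
      by_cases h3 : 0 < h (rp q * s) - h (rp q)
      · rw [if_pos h3, if_pos (by linarith)]
      · rw [if_neg h3, if_neg (by linarith)]
    rw [Finset.sum_congr rfl h1, Finset.sum_comm]
    refine Finset.sum_congr rfl fun q _ => ?_
    simp only [hφ2]
    rw [Finset.mul_sum]
    refine Finset.sum_nbij' (fun s => s⁻¹) (fun s => s⁻¹) hS hS (by simp) (by simp) ?_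
    intro s _
    simp
  have hfirst : ∑ q : Γ ⧸ A, ∑ s ∈ S,
      (if 0 < h (rp q * s) - h (rp q) then ind A F (rp q) else 0) =
      ∑ q : Γ ⧸ A, ind A F (rp q) * φ1 (rp q) := by
    refine Finset.sum_congr rfl fun q _ => ?_
    simp only [hφ1]
    rw [Finset.mul_sum]
    exact Finset.sum_congr rfl fun s _ => by simp
  have hthird : ∑ q : Γ ⧸ A, ∑ s ∈ S, (if h (rp q * s) - h (rp q) = 0 then
        max (-(ind A F (rp q * s) - ind A F (rp q))) 0 else 0) =
      ∑ q : Γ ⧸ A, ind A F (rp q) * φ3 (rp q) := by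
    refine Finset.sum_congr rfl fun q _ => ?_
    simp only [hφ3]
    rw [Finset.mul_sum]
    refine Finset.sum_congr rfl fun s _ => ?_
    by_cases h3 : h (rp q * s) - h (rp q) = 0
    · rw [if_pos h3, if_pos h3]
      rcases ind_zero_or_one (A := A) F (rp q * s) with h1 | h1 <;>
      rcases ind_zero_or_one (A := A) F (rp q) with h2 | h2 <;> rw [h1, h2] <;> norm_num
    · rw [if_neg h3, if_neg h3, mul_zero]
  have htot : ∑ q : Γ ⧸ A, ∑ s ∈ S,
      ((if 0 < h (rp q * s) - h (rp q) then -(ind A F (rp q * s) - ind A F (rp q)) else 0) +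
      (if h (rp q * s) - h (rp q) = 0 then
        max (-(ind A F (rp q * s) - ind A F (rp q))) 0 else 0)) =
      ∑ q : Γ ⧸ A, ind A F (rp q) * φ1 (rp q) - ∑ q : Γ ⧸ A, ind A F (rp q) * φ2 (rp q) +
      ∑ q : Γ ⧸ A, ind A F (rp q) * φ3 (rp q) := by
    rw [← hfirst, ← hrev, ← hthird, ← Finset.sum_sub_distrib, ← Finset.sum_add_distrib]
    refine Finset.sum_congr rfl fun q _ => ?_
    rw [← Finset.sum_sub_distrib, ← Finset.sum_add_distrib]
    refine Finset.sum_congr rfl fun s _ => ?_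
    congr 1
    split_ifs <;> ring
  rw [htot, sum_ind hℓ hinj hh hF i1, sum_ind hℓ hinj hh hF i2, sum_ind hℓ hinj hh hF i3,
    ← Finset.sum_sub_distrib, ← Finset.sum_add_distrib] at h0
  refine h0.trans (le_of_eq (Finset.sum_congr rfl fun f hf => ?_))
  have e1 : φ1 f = (upc S h f : ℝ) := by
    simp only [hφ1, upc]
    rw [Finset.card_filter]
    push_cast
    exact Finset.sum_congr rfl fun s _ => by simp only [sub_pos]
  have e2 : φ2 f = (downc S h f : ℝ) := by
    simp only [hφ2, downc]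
    rw [Finset.card_filter]
    push_cast
    exact Finset.sum_congr rfl fun s _ => by simp only [sub_neg]
  have e3 : φ3 f = (levc S h f : ℝ) - ((S.filter (fun s => f * s ∈ F)).card : ℝ) := by
    simp only [hφ3, levc]
    rw [Finset.card_filter, Finset.card_filter]
    push_cast
    rw [← Finset.sum_sub_distrib]
    refine Finset.sum_congr rfl fun s _ => ?_
    by_cases h3 : h (f * s) = h f
    · rw [if_pos (by rw [h3]; ring), if_pos h3,
        ind_level hℓ hinj hh hF (h3.trans (hF f hf))]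
    · rw [if_neg (fun h4 => h3 (by linarith)), if_neg h3, if_neg]
      · ring
      · intro h4
        exact h3 ((hF _ h4).trans (hF f hf).symm)
  rw [e1, e2, e3]

/-- the level set is a network with nonpositive `δ` -/
lemma level_del {S : Finset Γ} (hcard : S.card = 3) (hS : ∀ s ∈ S, s⁻¹ ∈ S) {ℓ : A → ℝ}
    (hℓ : ∀ a b, ℓ (a * b) = ℓ a + ℓ b) (hinj : Function.Injective ℓ)
    {h : Γ → ℝ} (hh : h ∈ HSet A ℓ)
    (hmin : ∀ h' ∈ HSet A ℓ, TV A S h ≤ TV A S h') {c : ℝ} {V : Finset Γ}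
    (hV : ∀ g, g ∈ V ↔ h g = c) {F : Finset Γ} (hF : F ⊆ V) :
    del (ce S) (upc S h) V F ≤ 0 := by
  have hFc : ∀ g ∈ F, h g = c := fun g hg => (hV g).1 (hF hg)
  have h0 := first_order_level hS hℓ hinj hh hmin hFc
  have h1 : del (ce S) (upc S h) V F = ∑ f ∈ F, (-((upc S h f : ℤ) - (downc S h f : ℤ) +
      ((levc S h f : ℤ) - ((S.filter (fun s => f * s ∈ F)).card : ℤ)))) := by
    unfold del oo
    rw [cc_eq_sum_single (ce S) F V, cc_eq_sum_single (ce S) F F]
    have h2 : (3 : ℤ) * (F.card : ℤ) = ∑ f ∈ F, (3 : ℤ) := by simp; ring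
    rw [h2, Finset.mul_sum, Finset.mul_sum, ← Finset.sum_sub_distrib, ← Finset.sum_sub_distrib,
      ← Finset.sum_add_distrib]
    refine Finset.sum_congr rfl fun f hf => ?_
    rw [cc_single_ce, cc_single_ce]
    have h3 : (S.filter (fun s => f * s ∈ V)).card = levc S h f := by
      unfold levc
      congr 1
      refine Finset.filter_congr fun s _ => ?_
      rw [hV, hFc f hf]
    have h4 := count_three S h f
    rw [hcard] at h4
    rw [h3]
    have h5 : (upc S h f : ℤ) + downc S h f + levc S h f = 3 := by exact_mod_cast h4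
    linarith
  have h2 : ((del (ce S) (upc S h) V F : ℤ) : ℝ) ≤ 0 := by
    rw [h1]
    push_cast
    rw [Finset.sum_neg_distrib]
    linarith
  exact_mod_cast h2

/-- the key estimate on level sets -/
lemma level_ge_one [Infinite Γ] {S : Finset Γ} (hcard : S.card = 3) (h1S : (1 : Γ) ∉ S)
    (hS : ∀ s ∈ S, s⁻¹ ∈ S) (hgen : Subgroup.closure (S : Set Γ) = ⊤) {ℓ : A → ℝ}
    (hℓ : ∀ a b, ℓ (a * b) = ℓ a + ℓ b) (hinj : Function.Injective ℓ)
    {h : Γ → ℝ} (hh : h ∈ HSet A ℓ)
    (hmin : ∀ h' ∈ HSet A ℓ, TV A S h ≤ TV A S h') {c : ℝ} {V : Finset Γ}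
    (hV : ∀ g, g ∈ V ↔ h g = c) {v : Γ} (hv : v ∈ V) (hd : ∃ s ∈ S, h (v * s) < h v) :
    1 ≤ WW (ce S) (upc S h) V v := by
  have hlev : ∀ x ∈ V, cc (ce S) {x} V = levc S h x := by
    intro x hx
    rw [cc_single_ce]
    unfold levc
    congr 2
    refine Finset.filter_congr fun s _ => ?_
    rw [hV, (hV x).1 hx]
  refine cluster_ge_one ⟨ce_symm hS, ce_irr h1S, ?_, fun F _ hne => sp_cayley hcard h1S hS hgen hne⟩
    hv ?_ fun F hF _ => level_del hcard hS hℓ hinj hh hmin hV hF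
  · intro x hx
    rw [hlev x hx]
    have := count_three S h x
    rw [hcard] at this
    omega
  · rw [hlev v hv]
    have h1 := count_three S h v
    rw [hcard] at h1
    have h2 : 1 ≤ downc S h v := by
      obtain ⟨s, hs, hlt⟩ := hd
      unfold downc
      exact Finset.card_pos.2 ⟨s, by simp [hs, hlt]⟩
    omega

end Pool.Agent.A05699
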