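import Mathlib

/-!
# Weighted self-avoiding walks on finite networks: basic lemmas
-/

set_option autoImplicit false
set_option linter.unusedSectionVars false

namespace Pool.Agent.A05699

/-! ### The constant `z = 1/φ` -/

/-- `z = 1/φ`. -/
noncomputable def zz : ℝ := (Real.sqrt 5 - 1) / 2

lemma zz_sq : zz * zz = 1 - zz := by
  have h : Real.sqrt 5 * Real.sqrt 5 = 5 := Real.mul_self_sqrt (by norm_num)
  unfold zz
  nlinarith

lemma zz_lo : (0.618 : ℝ) < zz := by
  have h : (2.236 : ℝ) < Real.sqrt 5 := by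
    apply Real.lt_sqrt_of_sq_lt
    norm_num
  unfold zz
  linarith

lemma zz_hi : zz < (0.619 : ℝ) := by
  have h : Real.sqrt 5 < (2.238 : ℝ) := by
    rw [Real.sqrt_lt' (by norm_num)]
    norm_num
  unfold zz
  linarith

lemma zz_pos : 0 < zz := by
  have := zz_lo
  linarith

/-- the lower bound function -/
noncomputable def ww (k : ℤ) : ℝ :=
  if k ≤ -1 then 2 * zz else if k = 0 then 1 else if k = 1 then zz else if k = 2 then zz * zz
  else 0

lemma ww_neg {k : ℤ} (h : k ≤ -1) : ww k = 2 * zz := by simp [ww, h]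
lemma ww_zero : ww 0 = 1 := by simp [ww]
lemma ww_one : ww 1 = zz := by simp [ww]
lemma ww_two : ww 2 = zz * zz := by simp [ww]
lemma ww_big {k : ℤ} (h : 3 ≤ k) : ww k = 0 := by
  have h1 : ¬ k ≤ -1 := by omega
  have h2 : k ≠ 0 := by omega
  have h3 : k ≠ 1 := by omega
  have h4 : k ≠ 2 := by omega
  simp [ww, h1, h2, h3, h4]

lemma ww_le (k : ℤ) : ww k ≤ 2 * zz := by
  have := zz_lo
  have := zz_hi
  have := zz_sq
  unfold ww
  split_ifs <;> nlinarith

lemma ww_nonneg (k : ℤ) : 0 ≤ ww k := by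
  have := zz_lo
  have := zz_hi
  have := zz_sq
  unfold ww
  split_ifs <;> nlinarith

lemma ww_anti_succ (k : ℤ) : ww (k + 1) ≤ ww k := by
  have h1 := zz_lo
  have h2 := zz_hi
  have h3 := zz_sq
  rcases lt_trichotomy k (-1) with h | h | h
  · rw [ww_neg (by omega), ww_neg (by omega)]
  · subst h
    rw [ww_neg (le_refl _)]
    norm_num [ww_zero]
    linarith
  · by_cases h4 : 3 ≤ k
    · rw [ww_big h4, ww_big (by omega)]
    · have : k = 0 ∨ k = 1 ∨ k = 2 := by omega
      rcases this with rfl | rfl | rfl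
      · rw [ww_zero]; norm_num [ww_one]; linarith
      · rw [ww_one]; norm_num [ww_two]; nlinarith
      · rw [ww_two, ww_big (by norm_num)]; nlinarith

lemma ww_anti {k l : ℤ} (h : k ≤ l) : ww l ≤ ww k := by
  obtain ⟨n, rfl⟩ := Int.le.dest h
  induction n with
  | zero => simp
  | succ n ih =>
    have := ww_anti_succ (k + n)
    have h2 : k + ((n + 1 : ℕ) : ℤ) = k + n + 1 := by push_cast; ring
    rw [h2]
    exact this.trans (ih (by omega))

variable {ι : Type*} [DecidableEq ι]

/-! ### Edge counts -/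

/-- number of (ordered) edges between `X` and `Y` -/
def cc (e : ι → ι → ℕ) (X Y : Finset ι) : ℤ := ∑ x ∈ X, ∑ y ∈ Y, (e x y : ℤ)

/-- number of exits of `X` -/
def oo (o : ι → ℕ) (X : Finset ι) : ℤ := ∑ x ∈ X, (o x : ℤ)

/-- in minus out minus cut -/
def del (e : ι → ι → ℕ) (o : ι → ℕ) (V F : Finset ι) : ℤ :=
  3 * F.card - 2 * oo o F - 2 * cc e F V + cc e F F

lemma cc_nonneg (e : ι → ι → ℕ) (X Y : Finset ι) : 0 ≤ cc e X Y := by
  unfold cc
  positivity

lemma oo_nonneg (o : ι → ℕ) (X : Finset ι) : 0 ≤ oo o X := by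
  unfold oo
  positivity

@[simp] lemma cc_empty_left (e : ι → ι → ℕ) (Y : Finset ι) : cc e ∅ Y = 0 := by
  simp [cc]

@[simp] lemma cc_empty_right (e : ι → ι → ℕ) (Y : Finset ι) : cc e Y ∅ = 0 := by
  simp [cc]

@[simp] lemma oo_empty (o : ι → ℕ) : oo o ∅ = 0 := by
  simp [oo]

lemma cc_union_left (e : ι → ι → ℕ) {X Y : Finset ι} (Z : Finset ι) (h : Disjoint X Y) :
    cc e (X ∪ Y) Z = cc e X Z + cc e Y Z := by
  unfold cc
  exact Finset.sum_union h

lemma cc_union_right (e : ι → ι → ℕ) {X Y : Finset ι} (Z : Finset ι) (h : Disjoint X Y) :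
    cc e Z (X ∪ Y) = cc e Z X + cc e Z Y := by
  unfold cc
  rw [← Finset.sum_add_distrib]
  exact Finset.sum_congr rfl fun z _ => Finset.sum_union h

lemma oo_union (o : ι → ℕ) {X Y : Finset ι} (h : Disjoint X Y) :
    oo o (X ∪ Y) = oo o X + oo o Y := by
  unfold oo
  exact Finset.sum_union h

lemma cc_comm {e : ι → ι → ℕ} (hs : ∀ x y, e x y = e y x) (X Y : Finset ι) :
    cc e X Y = cc e Y X := by
  unfold cc
  rw [Finset.sum_comm]
  exact Finset.sum_congr rfl fun y _ => Finset.sum_congr rfl fun x _ => by rw [hs]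

lemma cc_union_union {e : ι → ι → ℕ} (hs : ∀ x y, e x y = e y x) {X Y : Finset ι}
    (h : Disjoint X Y) :
    cc e (X ∪ Y) (X ∪ Y) = cc e X X + 2 * cc e X Y + cc e Y Y := by
  rw [cc_union_left e _ h, cc_union_right e _ h, cc_union_right e _ h, cc_comm hs Y X]
  ring

lemma cc_mono_right (e : ι → ι → ℕ) {X Y Z : Finset ι} (h : Y ⊆ Z) : cc e X Y ≤ cc e X Z := by
  unfold cc
  exact Finset.sum_le_sum fun x _ => Finset.sum_le_sum_of_subset_of_nonneg h
    fun i _ _ => by positivity

lemma cc_mono_left (e : ι → ι → ℕ) {X Y Z : Finset ι} (h : X ⊆ Y) : cc e X Z ≤ cc e Y Z := by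
  unfold cc
  exact Finset.sum_le_sum_of_subset_of_nonneg h fun i _ _ => by positivity

lemma oo_mono (o : ι → ℕ) {X Y : Finset ι} (h : X ⊆ Y) : oo o X ≤ oo o Y := by
  unfold oo
  exact Finset.sum_le_sum_of_subset_of_nonneg h fun i _ _ => by positivity

@[simp] lemma cc_self_single {e : ι → ι → ℕ} (hi : ∀ x, e x x = 0) (x : ι) :
    cc e {x} {x} = 0 := by
  simp [cc, hi]

@[simp] lemma oo_single (o : ι → ℕ) (x : ι) : oo o {x} = o x := by
  simp [oo]

lemma cc_single_single (e : ι → ι → ℕ) (x y : ι) : cc e {x} {y} = e x y := by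
  simp [cc]

lemma cc_single_left (e : ι → ι → ℕ) (x : ι) (Y : Finset ι) :
    cc e {x} Y = ∑ y ∈ Y, (e x y : ℤ) := by
  simp [cc]

lemma cc_eq_sum_single (e : ι → ι → ℕ) (X Y : Finset ι) : cc e X Y = ∑ x ∈ X, cc e {x} Y := by
  simp [cc]

/-- splitting off the set `F` from `V` -/
lemma cc_sdiff_right (e : ι → ι → ℕ) {V F : Finset ι} (X : Finset ι) (h : F ⊆ V) :
    cc e X V = cc e X F + cc e X (V \ F) := by
  rw [← cc_union_right e X Finset.disjoint_sdiff, Finset.union_sdiff_of_subset h]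

lemma cc_sdiff_left (e : ι → ι → ℕ) {V F : Finset ι} (X : Finset ι) (h : F ⊆ V) :
    cc e V X = cc e F X + cc e (V \ F) X := by
  rw [← cc_union_left e X Finset.disjoint_sdiff, Finset.union_sdiff_of_subset h]

lemma oo_sdiff (o : ι → ℕ) {V F : Finset ι} (h : F ⊆ V) : oo o V = oo o F + oo o (V \ F) := by
  rw [← oo_union o Finset.disjoint_sdiff, Finset.union_sdiff_of_subset h]

lemma cc_even {e : ι → ι → ℕ} (hs : ∀ x y, e x y = e y x) (hi : ∀ x, e x x = 0)
    (X : Finset ι) : Even (cc e X X) := by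
  induction X using Finset.induction_on with
  | empty => simp
  | insert a s ha ih =>
    rw [Finset.insert_eq, cc_union_union hs (by simpa using ha), cc_self_single hi]
    obtain ⟨m, hm⟩ := ih
    exact ⟨cc e {a} s + m, by rw [hm]; ring⟩

lemma card_union_int {X Y : Finset ι} (h : Disjoint X Y) :
    ((X ∪ Y).card : ℤ) = X.card + Y.card := by
  rw [Finset.card_union_of_disjoint h]
  push_cast
  ring

/-- `δ_V(X ∪ Y) = δ_V(X) + δ_V(Y) + 2c(X,Y)` -/
lemma del_union {e : ι → ι → ℕ} (hs : ∀ x y, e x y = e y x) (o : ι → ℕ) (V : Finset ι)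
    {X Y : Finset ι} (h : Disjoint X Y) :
    del e o V (X ∪ Y) = del e o V X + del e o V Y + 2 * cc e X Y := by
  unfold del
  rw [card_union_int h, oo_union o h, cc_union_left e V h, cc_union_union hs h]
  ring

/-- `δ_{V \ B}(F) = δ_V(F) + 2c(F,B)` -/
lemma del_sdiff (e : ι → ι → ℕ) (o : ι → ℕ) {V B : Finset ι} (F : Finset ι) (h : B ⊆ V) :
    del e o (V \ B) F = del e o V F + 2 * cc e F B := by
  unfold del
  rw [cc_sdiff_right e F h]
  ring

/-- a cubic network -/
structure Net (e : ι → ι → ℕ) (o : ι → ℕ) (V : Finset ι) : Prop where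
  symm : ∀ x y, e x y = e y x
  irr : ∀ x, e x x = 0
  deg : ∀ x ∈ V, cc e {x} V + o x ≤ 3
  sp : ∀ F ⊆ V, F.Nonempty → cc e F F + 3 ≤ 3 * F.card

lemma Net.sub {e : ι → ι → ℕ} {o : ι → ℕ} {V V' : Finset ι} (h : Net e o V) (hV : V' ⊆ V) :
    Net e o V' where
  symm := h.symm
  irr := h.irr
  deg := fun x hx => by
    have h1 := h.deg x (hV hx)
    have h2 := cc_mono_right e (X := {x}) hV
    linarith
  sp := fun F hF hne => h.sp F (hF.trans hV) hne

/-- a sub-network where the removed vertices become exits -/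
lemma Net.restrict {e : ι → ι → ℕ} {o : ι → ℕ} {V R : Finset ι} (h : Net e o V) (hV : R ⊆ V)
    (o' : ι → ℕ) (ho' : ∀ x ∈ R, (o' x : ℤ) ≤ o x + cc e {x} (V \ R)) :
    Net e o' R where
  symm := h.symm
  irr := h.irr
  deg := fun x hx => by
    have h1 := h.deg x (hV hx)
    have h2 := cc_sdiff_right e {x} hV
    have h3 := ho' x hx
    linarith
  sp := fun F hF hne => h.sp F (hF.trans hV) hne

/-! ### The weight function -/

/-- total weight of self-avoiding walks in `V` starting at `v` (vertex weights `ω`, edge weights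
`e`, exit values `o`) -/
noncomputable def W (ω : ι → ℝ) (e : ι → ι → ℕ) (o : ι → ℝ) (V : Finset ι) (v : ι) : ℝ :=
  if _h : v ∈ V then ω v * (o v + ∑ u ∈ V.erase v, (e v u : ℝ) * W ω e o (V.erase v) u) else 0
termination_by V.card
decreasing_by exact Finset.card_erase_lt_of_mem _h

lemma W_mem {ω : ι → ℝ} {e : ι → ι → ℕ} {o : ι → ℝ} {V : Finset ι} {v : ι} (h : v ∈ V) :
    W ω e o V v = ω v * (o v + ∑ u ∈ V.erase v, (e v u : ℝ) * W ω e o (V.erase v) u) := by
  rw [W]
  simp [h]

lemma W_not_mem {ω : ι → ℝ} {e : ι → ι → ℕ} {o : ι → ℝ} {V : Finset ι} {v : ι} (h : v ∉ V) :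
    W ω e o V v = 0 := by
  rw [W]
  simp [h]

lemma W_nonneg {ω : ι → ℝ} {e : ι → ι → ℕ} {o : ι → ℝ} (hω : ∀ x, 0 ≤ ω x)
    (V : Finset ι) (ho : ∀ x ∈ V, 0 ≤ o x) (v : ι) : 0 ≤ W ω e o V v := by
  induction V using Finset.strongInduction generalizing v with
  | H V ih =>
    by_cases h : v ∈ V
    · rw [W_mem h]
      refine mul_nonneg (hω v) (add_nonneg (ho v h) (Finset.sum_nonneg fun u hu => ?_))
      exact mul_nonneg (by positivity) (ih _ (Finset.erase_ssubset h)
        (fun x hx => ho x (Finset.mem_of_mem_erase hx)) u)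
    · rw [W_not_mem h]

lemma W_mono {ω : ι → ℝ} {e : ι → ι → ℕ} {o : ι → ℝ} (hω : ∀ x, 0 ≤ ω x)
    (V : Finset ι) {V' : Finset ι} (hV : V ⊆ V') (ho : ∀ x ∈ V', 0 ≤ o x) (v : ι) :
    W ω e o V v ≤ W ω e o V' v := by
  induction V using Finset.strongInduction generalizing v V' with
  | H V ih =>
    by_cases h : v ∈ V
    · rw [W_mem h, W_mem (hV h)]
      refine mul_le_mul_of_nonneg_left (add_le_add_right ?_ _) (hω v)
      have hsub : V.erase v ⊆ V'.erase v := Finset.erase_subset_erase v hV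
      calc ∑ u ∈ V.erase v, (e v u : ℝ) * W ω e o (V.erase v) u
          ≤ ∑ u ∈ V.erase v, (e v u : ℝ) * W ω e o (V'.erase v) u :=
            Finset.sum_le_sum fun u hu => mul_le_mul_of_nonneg_left
              (ih _ (Finset.erase_ssubset h) hsub
                (fun x hx => ho x (Finset.mem_of_mem_erase hx)) u) (by positivity)
        _ ≤ ∑ u ∈ V'.erase v, (e v u : ℝ) * W ω e o (V'.erase v) u :=
            Finset.sum_le_sum_of_subset_of_nonneg hsub fun u _ _ =>
              mul_nonneg (by positivity)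
                (W_nonneg hω _ (fun x hx => ho x (Finset.mem_of_mem_erase hx)) u)
    · rw [W_not_mem h]
      exact W_nonneg hω _ ho v

lemma W_congr {ω ω' : ι → ℝ} {e e' : ι → ι → ℕ} {o o' : ι → ℝ} (V : Finset ι)
    (hω : ∀ x ∈ V, ω x = ω' x) (he : ∀ x ∈ V, ∀ y ∈ V, x ≠ y → e x y = e' x y)
    (ho : ∀ x ∈ V, o x = o' x) (v : ι) :
    W ω e o V v = W ω' e' o' V v := by
  induction V using Finset.strongInduction generalizing v with
  | H V ih =>
    by_cases h : v ∈ V
    · rw [W_mem h, W_mem h, hω v h, ho v h]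
      congr 2
      refine Finset.sum_congr rfl fun u hu => ?_
      rw [he v h u (Finset.mem_of_mem_erase hu) (Finset.ne_of_mem_erase hu).symm,
        ih _ (Finset.erase_ssubset h) (fun x hx => hω x (Finset.mem_of_mem_erase hx))
        (fun x hx y hy => he x (Finset.mem_of_mem_erase hx) y (Finset.mem_of_mem_erase hy))
        (fun x hx => ho x (Finset.mem_of_mem_erase hx))]
    · rw [W_not_mem h, W_not_mem h]

/-- monotonicity in the exit values -/
lemma W_mono_o {ω : ι → ℝ} {e : ι → ι → ℕ} {o o' : ι → ℝ} (hω : ∀ x, 0 ≤ ω x)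
    (V : Finset ι) (ho : ∀ x ∈ V, o x ≤ o' x) (v : ι) :
    W ω e o V v ≤ W ω e o' V v := by
  induction V using Finset.strongInduction generalizing v with
  | H V ih =>
    by_cases h : v ∈ V
    · rw [W_mem h, W_mem h]
      refine mul_le_mul_of_nonneg_left (add_le_add (ho v h) (Finset.sum_le_sum fun u hu => ?_))
        (hω v)
      exact mul_le_mul_of_nonneg_left (ih _ (Finset.erase_ssubset h)
        (fun x hx => ho x (Finset.mem_of_mem_erase hx)) u) (by positivity)
    · rw [W_not_mem h, W_not_mem h]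

/-- the restriction lemma: walks in `Q ∪ B`, exits of `Q` into `B` get their value in `B` -/
lemma W_restrict {ω : ι → ℝ} {e : ι → ι → ℕ} {o : ι → ℝ} (hω : ∀ x, 0 ≤ ω x)
    (Q B : Finset ι) (hd : Disjoint Q B) (ho : ∀ x ∈ Q ∪ B, 0 ≤ o x) (o' : ι → ℝ)
    (ho' : ∀ x ∈ Q, o' x ≤ o x + ∑ y ∈ B, (e x y : ℝ) * W ω e o B y) (v : ι) (hv : v ∈ Q) :
    W ω e o' Q v ≤ W ω e o (Q ∪ B) v := by
  induction Q using Finset.strongInduction generalizing v with
  | H Q ih =>
    have hvU : v ∈ Q ∪ B := Finset.mem_union_left _ hv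
    rw [W_mem hv, W_mem hvU]
    refine mul_le_mul_of_nonneg_left ?_ (hω v)
    have hvB : v ∉ B := Finset.disjoint_left.1 hd hv
    have herase : (Q ∪ B).erase v = Q.erase v ∪ B := by
      rw [Finset.erase_union_distrib, Finset.erase_eq_of_notMem hvB]
    have hd' : Disjoint (Q.erase v) B := hd.mono_left (Finset.erase_subset _ _)
    rw [herase, Finset.sum_union hd']
    have h1 : ∑ u ∈ Q.erase v, (e v u : ℝ) * W ω e o' (Q.erase v) u ≤
        ∑ u ∈ Q.erase v, (e v u : ℝ) * W ω e o (Q.erase v ∪ B) u := by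
      refine Finset.sum_le_sum fun u hu => mul_le_mul_of_nonneg_left ?_ (by positivity)
      refine ih _ (Finset.erase_ssubset hv) hd' (fun x hx => ho x ?_)
        (fun x hx => ho' x (Finset.mem_of_mem_erase hx)) u hu
      rw [Finset.mem_union] at hx ⊢
      exact hx.imp (fun h => Finset.mem_of_mem_erase h) id
    have h2 : ∑ y ∈ B, (e v y : ℝ) * W ω e o B y ≤
        ∑ u ∈ B, (e v u : ℝ) * W ω e o (Q.erase v ∪ B) u := by
      refine Finset.sum_le_sum fun u hu => mul_le_mul_of_nonneg_left ?_ (by positivity)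
      refine W_mono hω _ Finset.subset_union_right (fun x hx => ho x ?_) u
      rw [Finset.mem_union] at hx ⊢
      exact hx.imp (fun h => Finset.mem_of_mem_erase h) id
    have h3 := ho' v hv
    linarith

/-- linearity in the exit values -/
lemma W_linear {ω : ι → ℝ} {e : ι → ι → ℕ} {κ : Type*} (s : Finset κ) (c : κ → ℝ)
    (o : κ → ι → ℝ) (V : Finset ι) (v : ι) :
    W ω e (fun x => ∑ j ∈ s, c j * o j x) V v = ∑ j ∈ s, c j * W ω e (o j) V v := by
  induction V using Finset.strongInduction generalizing v with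
  | H V ih =>
    by_cases h : v ∈ V
    · rw [W_mem h]
      have : ∀ j ∈ s, c j * W ω e (o j) V v = ω v * (c j * o j v +
          ∑ u ∈ V.erase v, (e v u : ℝ) * (c j * W ω e (o j) (V.erase v) u)) := by
        intro j _
        rw [W_mem h, mul_add, mul_add, mul_add, Finset.mul_sum, Finset.mul_sum, Finset.mul_sum]
        congr 1
        · ring
        · exact Finset.sum_congr rfl fun u _ => by ring
      rw [Finset.sum_congr rfl this, ← Finset.mul_sum, Finset.sum_add_distrib, Finset.sum_comm]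
      congr 2
      refine Finset.sum_congr rfl fun u hu => ?_
      rw [ih _ (Finset.erase_ssubset h), Finset.mul_sum]
    · rw [W_not_mem h]
      rw [Finset.sum_eq_zero]
      intro j _
      rw [W_not_mem h, mul_zero]

end Pool.Agent.A05699
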