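import Pool.Agent.Lib.MP_a05699_co.Suppress

set_option autoImplicit false
set_option linter.unusedSectionVars false

namespace Pool.Agent.A05699

variable {ι : Type*} [DecidableEq ι]

/-- sum of a function over all self-avoiding lists in `V` starting at `v` -/
noncomputable def PS (F : List ι → ℝ) (V : Finset ι) (v : ι) : ℝ :=
  if _h : v ∈ V then F [v] + ∑ u ∈ V.erase v, PS (fun l => F (v :: l)) (V.erase v) u else 0
termination_by V.card
decreasing_by exact Finset.card_erase_lt_of_mem _h

lemma PS_mem {F : List ι → ℝ} {V : Finset ι} {v : ι} (h : v ∈ V) :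
    PS F V v = F [v] + ∑ u ∈ V.erase v, PS (fun l => F (v :: l)) (V.erase v) u := by
  rw [PS]
  simp [h]

lemma PS_not_mem {F : List ι → ℝ} {V : Finset ι} {v : ι} (h : v ∉ V) :
    PS F V v = 0 := by
  rw [PS]
  simp [h]

/-- valid lists -/
def Val (V : Finset ι) (v : ι) (l : List ι) : Prop :=
  ∃ t, l = v :: t ∧ l.Nodup ∧ ∀ a ∈ l, a ∈ V

lemma Val.cons {V : Finset ι} {v u : ι} {l : List ι} (hv : v ∈ V) (h : Val (V.erase v) u l) :
    Val V v (v :: l) := by
  obtain ⟨t, rfl, hn, hm⟩ := h
  refine ⟨u :: t, rfl, ?_, ?_⟩
  · rw [List.nodup_cons]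
    exact ⟨fun h' => Finset.notMem_erase v V (hm v h'), hn⟩
  · intro a ha
    rw [List.mem_cons] at ha
    rcases ha with rfl | ha
    · exact hv
    · exact Finset.mem_of_mem_erase (hm a ha)

lemma PS_mono {F G : List ι → ℝ} (V : Finset ι) (v : ι)
    (h : ∀ l, Val V v l → F l ≤ G l) : PS F V v ≤ PS G V v := by
  induction V using Finset.strongInduction generalizing v F G with
  | H V ih =>
    by_cases hv : v ∈ V
    · rw [PS_mem hv, PS_mem hv]
      refine add_le_add (h _ ⟨[], rfl, by simp, by simpa using hv⟩)
        (Finset.sum_le_sum fun u hu => ih _ (Finset.erase_ssubset hv) _ fun l hl => ?_)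
      exact h _ (Val.cons hv hl)
    · rw [PS_not_mem hv, PS_not_mem hv]

lemma PS_congr {F G : List ι → ℝ} (V : Finset ι) (v : ι)
    (h : ∀ l, Val V v l → F l = G l) : PS F V v = PS G V v :=
  le_antisymm (PS_mono V v fun l hl => (h l hl).le) (PS_mono V v fun l hl => (h l hl).ge)

lemma PS_linear {κ : Type*} (s : Finset κ) (c : κ → ℝ) (F : κ → List ι → ℝ)
    (V : Finset ι) (v : ι) :
    PS (fun l => ∑ j ∈ s, c j * F j l) V v = ∑ j ∈ s, c j * PS (F j) V v := by
  induction V using Finset.strongInduction generalizing v F with
  | H V ih =>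
    by_cases hv : v ∈ V
    · rw [PS_mem hv]
      have : ∀ j ∈ s, c j * PS (F j) V v = c j * F j [v] +
          ∑ u ∈ V.erase v, c j * PS (fun l => F j (v :: l)) (V.erase v) u := by
        intro j _
        rw [PS_mem hv, mul_add, Finset.mul_sum]
      rw [Finset.sum_congr rfl this, Finset.sum_add_distrib, Finset.sum_comm]
      congr 1
      refine Finset.sum_congr rfl fun u hu => ?_
      rw [ih _ (Finset.erase_ssubset hv)]
    · rw [PS_not_mem hv]
      rw [Finset.sum_eq_zero]
      intro j _
      rw [PS_not_mem hv, mul_zero]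

lemma PS_mul (c : ℝ) (F : List ι → ℝ) (V : Finset ι) (v : ι) :
    PS (fun l => c * F l) V v = c * PS F V v := by
  have := PS_linear ({()} : Finset Unit) (fun _ => c) (fun _ => F) V v
  simpa using this

lemma PS_sub (F G : List ι → ℝ) (V : Finset ι) (v : ι) :
    PS (fun l => F l - G l) V v = PS F V v - PS G V v := by
  have := PS_linear (Finset.univ : Finset Bool) (fun b => if b then 1 else -1)
    (fun b => if b then F else G) V v
  simp only [Fintype.sum_bool, if_true, one_mul] at this
  simp only [sub_eq_add_neg, neg_one_mul, Bool.false_eq_true, if_false] at this ⊢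
  exact this

lemma PS_nonneg {F : List ι → ℝ} (V : Finset ι) (v : ι)
    (h : ∀ l, Val V v l → 0 ≤ F l) : 0 ≤ PS F V v := by
  have h1 := PS_mono (F := fun _ => 0) V v h
  have h2 := PS_mul 0 (fun _ : List ι => 0) V v
  simp only [zero_mul] at h2
  linarith

/-- weight of a list -/
noncomputable def wt (ω : ι → ℝ) (e : ι → ι → ℕ) (o : ι → ℝ) : List ι → ℝ
  | [] => 0
  | [v] => ω v * o v
  | v :: u :: l => ω v * (e v u : ℝ) * wt ω e o (u :: l)

lemma W_eq_PS (ω : ι → ℝ) (e : ι → ι → ℕ) (o : ι → ℝ) (V : Finset ι) (v : ι) :
    W ω e o V v = PS (wt ω e o) V v := by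
  induction V using Finset.strongInduction generalizing v with
  | H V ih =>
    by_cases hv : v ∈ V
    · rw [PS_mem hv, W_mem hv, mul_add, Finset.mul_sum]
      congr 1
      refine Finset.sum_congr rfl fun u hu => ?_
      rw [ih _ (Finset.erase_ssubset hv), ← mul_assoc, ← PS_mul]
      refine PS_congr _ _ fun l hl => ?_
      obtain ⟨t, rfl, _, _⟩ := hl
      simp [wt]
    · rw [PS_not_mem hv, W_not_mem hv]

lemma wt_nonneg {ω : ι → ℝ} (hω : ∀ x, 0 ≤ ω x) (e : ι → ι → ℕ) (o : ι → ℕ) (l : List ι) :
    0 ≤ wt ω e (fun x => (o x : ℝ)) l := by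
  induction l with
  | nil => simp [wt]
  | cons v l ih =>
    cases l with
    | nil => simp only [wt]; exact mul_nonneg (hω v) (by positivity)
    | cons u l =>
      simp only [wt]
      exact mul_nonneg (mul_nonneg (hω v) (by positivity)) ih

lemma wt_exists_exit {ω : ι → ℝ} {e : ι → ι → ℕ} {o : ι → ℕ} {l : List ι}
    (h : wt ω e (fun x => (o x : ℝ)) l ≠ 0) : ∃ w ∈ l, o w ≠ 0 := by
  induction l with
  | nil => simp [wt] at h
  | cons v l ih =>
    cases l with
    | nil =>
      refine ⟨v, by simp, ?_⟩
      intro h0
      apply h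
      simp [wt, h0]
    | cons u l =>
      simp only [wt] at h
      obtain ⟨w, hw, how⟩ := ih (right_ne_zero_of_mul h)
      exact ⟨w, List.mem_cons_of_mem _ hw, how⟩

/-- sum of edge multiplicities (twice) along a list -/
def usum (e : ι → ι → ℕ) : List ι → ℕ
  | [] => 0
  | [_] => 0
  | v :: u :: l => 2 * e v u + usum e (u :: l)

lemma usum_ge {ω : ι → ℝ} {e : ι → ι → ℕ} {o : ι → ℝ} {l : List ι}
    (h : wt ω e o l ≠ 0) : 2 * l.length ≤ usum e l + 2 := by
  induction l with
  | nil => simp
  | cons v l ih =>
    cases l with
    | nil => simp [usum]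
    | cons u l =>
      simp only [wt] at h
      have h1 := ih (right_ne_zero_of_mul h)
      have h2 : e v u ≠ 0 := by
        have := right_ne_zero_of_mul (left_ne_zero_of_mul h)
        exact_mod_cast this
      simp only [usum, List.length_cons] at h1 ⊢
      omega

/-- number of uses of the pair `{x,y}` -/
def usd (x y : ι) : List ι → ℕ
  | [] => 0
  | [_] => 0
  | v :: u :: l => (if (v = x ∧ u = y) ∨ (v = y ∧ u = x) then 1 else 0) + usd x y (u :: l)

lemma usd_eq_zero_of_notMem {x y : ι} {l : List ι} (h : x ∉ l ∨ y ∉ l) : usd x y l = 0 := by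
  induction l with
  | nil => simp [usd]
  | cons v l ih =>
    cases l with
    | nil => simp [usd]
    | cons u l =>
      have h1 : x ∉ u :: l ∨ y ∉ u :: l := by
        rcases h with h | h
        · left; exact fun h' => h (List.mem_cons_of_mem _ h')
        · right; exact fun h' => h (List.mem_cons_of_mem _ h')
      simp only [usd]
      rw [ih h1, if_neg]
      rintro (⟨rfl, rfl⟩ | ⟨rfl, rfl⟩)
      · rcases h with h | h
        · exact h (by simp)
        · exact h (by simp)
      · rcases h with h | h
        · exact h (by simp)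
        · exact h (by simp)

lemma usd_le_one {x y : ι} {l : List ι} (h : l.Nodup) : usd x y l ≤ 1 := by
  induction l with
  | nil => simp [usd]
  | cons v l ih =>
    cases l with
    | nil => simp [usd]
    | cons u l =>
      simp only [usd]
      have h1 := ih (List.nodup_cons.1 h).2
      by_cases hc : (v = x ∧ u = y) ∨ (v = y ∧ u = x)
      · have : usd x y (u :: l) = 0 := by
          apply usd_eq_zero_of_notMem
          have hv := (List.nodup_cons.1 h).1
          rcases hc with ⟨rfl, _⟩ | ⟨rfl, _⟩
          · left; exact hv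
          · right; exact hv
        rw [this, if_pos hc]
      · rw [if_neg hc]
        omega

/-- the sum of uses over all pairs -/
lemma sum_usd (e : ι → ι → ℕ) (hs : ∀ x y, e x y = e y x) (V : Finset ι) (l : List ι)
    (hn : l.Nodup) (hl : ∀ a ∈ l, a ∈ V) :
    ∑ x ∈ V, ∑ y ∈ V, (e x y : ℝ) * (usd x y l : ℝ) = usum e l := by
  induction l with
  | nil => simp [usd, usum]
  | cons v l ih =>
    cases l with
    | nil => simp [usd, usum]
    | cons u l =>
      have h1 := ih (List.nodup_cons.1 hn).2 (fun a ha => hl a (List.mem_cons_of_mem _ ha))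
      have hvu : v ≠ u := by
        rintro rfl
        exact (List.nodup_cons.1 hn).1 (by simp)
      have hv : v ∈ V := hl v (by simp)
      have hu : u ∈ V := hl u (by simp)
      simp only [usd, usum]
      push_cast
      rw [← h1]
      have h2 : ∀ x ∈ V, ∀ y ∈ V, (e x y : ℝ) *
          ((if (v = x ∧ u = y) ∨ (v = y ∧ u = x) then (1 : ℝ) else 0) + (usd x y (u :: l) : ℝ)) =
          ((if y = u then (if x = v then (e x y : ℝ) else 0) else 0) +
            (if y = v then (if x = u then (e x y : ℝ) else 0) else 0)) +
            (e x y : ℝ) * (usd x y (u :: l) : ℝ) := by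
        intro x _ y _
        rw [mul_add]
        congr 1
        by_cases h3 : v = x ∧ u = y
        · obtain ⟨rfl, rfl⟩ := h3
          simp [hvu.symm]
        · by_cases h4 : v = y ∧ u = x
          · obtain ⟨rfl, rfl⟩ := h4
            simp [hvu]
          · rw [if_neg (by tauto), mul_zero]
            by_cases h5 : y = u
            · have h6 : x ≠ v := fun h => h3 ⟨h.symm, h5.symm⟩
              have h7 : y ≠ v := fun h => hvu (h.symm.trans h5)
              simp [h5, h6, hvu.symm]
            · by_cases h6 : y = v
              · have h7 : x ≠ u := fun h => h4 ⟨h6.symm, h.symm⟩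
                simp [h6, h7, hvu]
              · simp [h5, h6]
      rw [Finset.sum_congr rfl fun x hx => Finset.sum_congr rfl fun y hy => h2 x hx y hy]
      simp only [Finset.sum_add_distrib]
      congr 1
      simp only [Finset.sum_ite_eq', hu, hv, if_true]
      rw [hs u v]
      ring

/-- weight after deleting the edge `xy` and giving weight `1` to `x` and `y` -/
lemma wt_del (e : ι → ι → ℕ) (o : ι → ℝ) {x y : ι} (hxy : x ≠ y) (l : List ι) (hn : l.Nodup) :
    wt (fun a => if a = x ∨ a = y then 1 else zz) (delE e x y) o l =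
      wt (fun _ => zz) e o l * (if x ∈ l then 1 + zz else 1) * (if y ∈ l then 1 + zz else 1) *
        (1 - usd x y l) := by
  have hz := zz_sq
  have key : ∀ (v : ι) (l : List ι), v ∉ l →
      (if v = x ∨ v = y then (1 : ℝ) else zz) * ((if x ∈ l then 1 + zz else 1) *
        (if y ∈ l then 1 + zz else 1)) =
      zz * ((if x ∈ v :: l then 1 + zz else 1) * (if y ∈ v :: l then 1 + zz else 1)) := by
    intro v l hv
    by_cases h1 : v = x
    · subst h1
      have h2 : ¬ (y = v) := fun h => hxy h.symm
      simp only [List.mem_cons, h2, hv, true_or, false_or, if_true, if_false]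
      split_ifs <;> nlinarith
    · by_cases h2 : v = y
      · subst h2
        have h3 : ¬ (x = v) := fun h => h1 h.symm
        simp only [List.mem_cons, h3, hv, true_or, or_true, false_or, if_true, if_false]
        split_ifs <;> nlinarith
      · have h3 : ¬ (x = v) := fun h => h1 h.symm
        have h4 : ¬ (y = v) := fun h => h2 h.symm
        simp only [List.mem_cons, h1, h2, h3, h4, false_or, if_false]
  induction l with
  | nil => simp [wt]
  | cons v l ih =>
    cases l with
    | nil =>
      have := key v [] (by simp)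
      simp only [wt, usd]
      simp only [List.not_mem_nil, if_false, mul_one] at this
      rw [this]
      push_cast
      ring
    | cons u l =>
      have h1 := ih (List.nodup_cons.1 hn).2
      have hv := (List.nodup_cons.1 hn).1
      have h2 := key v (u :: l) hv
      simp only [wt]
      by_cases hc : (v = x ∧ u = y) ∨ (v = y ∧ u = x)
      · have h3 : delE e x y v u = 0 := by
          unfold delE
          rw [if_pos hc]
        have h4 : usd x y (u :: l) = 0 := by
          apply usd_eq_zero_of_notMem
          rcases hc with ⟨rfl, _⟩ | ⟨rfl, _⟩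
          · left; exact hv
          · right; exact hv
        have h5 : usd x y (v :: u :: l) = 1 := by
          simp only [usd]
          rw [if_pos hc, h4]
        rw [h3, h5]
        simp
      · have h3 : delE e x y v u = e v u := by
          unfold delE
          rw [if_neg hc]
        have h5 : usd x y (v :: u :: l) = usd x y (u :: l) := by
          simp only [usd]
          rw [if_neg hc, zero_add]
        rw [h3, h5, h1]
        calc _ = ((if v = x ∨ v = y then (1 : ℝ) else zz) * ((if x ∈ u :: l then 1 + zz else 1) *
              (if y ∈ u :: l then 1 + zz else 1))) * ((e v u : ℝ) * wt (fun _ => zz) e o (u :: l) *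
              (1 - usd x y (u :: l))) := by ring
          _ = _ := by rw [h2]; ring

end Pool.Agent.A05699
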