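import Pool.Agent.Lib.MP_a05699_co.Net

set_option autoImplicit false
set_option linter.unusedSectionVars false

namespace Pool.Agent.A05699

variable {ι : Type*} [DecidableEq ι]

/-- standard weight -/
noncomputable def WW (e : ι → ι → ℕ) (o : ι → ℕ) (V : Finset ι) (v : ι) : ℝ :=
  W (fun _ => zz) e (fun x => (o x : ℝ)) V v

lemma WW_nonneg (e : ι → ι → ℕ) (o : ι → ℕ) (V : Finset ι) (v : ι) : 0 ≤ WW e o V v :=
  W_nonneg (fun _ => zz_pos.le) V (fun _ _ => by positivity) v

lemma WW_mono (e : ι → ι → ℕ) (o : ι → ℕ) {V V' : Finset ι} (h : V ⊆ V') (v : ι) :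
    WW e o V v ≤ WW e o V' v :=
  W_mono (fun _ => zz_pos.le) V h (fun _ _ => by positivity) v

lemma WW_mem (e : ι → ι → ℕ) (o : ι → ℕ) {V : Finset ι} {v : ι} (h : v ∈ V) :
    WW e o V v = zz * (o v + ∑ u ∈ V.erase v, (e v u : ℝ) * WW e o (V.erase v) u) :=
  W_mem h

/-- the induction hypothesis -/
def Good (ι : Type*) [DecidableEq ι] (n : ℕ) : Prop :=
  ∀ (e : ι → ι → ℕ) (o : ι → ℕ) (V : Finset ι) (v : ι) (k : ℤ),
    V.card < n → Net e o V → v ∈ V → cc e {v} V + o v ≤ 2 →
    (∀ F ⊆ V, v ∈ F → del e o V F ≤ k) → ww k ≤ WW e o V v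

lemma cc_erase (e : ι → ι → ℕ) {V : Finset ι} {v : ι} (X : Finset ι) (h : v ∈ V) :
    cc e X V = cc e X {v} + cc e X (V.erase v) := by
  rw [cc_sdiff_right e X (Finset.singleton_subset_iff.2 h), Finset.sdiff_singleton_eq_erase]

lemma del_single {e : ι → ι → ℕ} (hi : ∀ x, e x x = 0) (o : ι → ℕ) (V : Finset ι) (v : ι) :
    del e o V {v} = 3 - 2 * o v - 2 * cc e {v} V := by
  simp [del, hi]

lemma cc_ge_of_mem (e : ι → ι → ℕ) {V : Finset ι} (x : ι) {y : ι} (h : y ∈ V) :
    (e x y : ℤ) ≤ cc e {x} V := by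
  rw [← cc_single_single e x y]
  exact cc_mono_right e (Finset.singleton_subset_iff.2 h)

/-- degree of a vertex in a subset missing a neighbour -/
lemma Net.deg_two {e : ι → ι → ℕ} {o : ι → ℕ} {V B : Finset ι} (h : Net e o V) (hB : B ⊆ V)
    {y x : ι} (hy : y ∈ V) (hx : x ∈ V) (hxB : x ∉ B) (hxy : e x y ≠ 0) :
    cc e {y} B + o y ≤ 2 := by
  have h1 := h.deg y hy
  have h2 := cc_sdiff_right e {y} hB
  have h3 : (e y x : ℤ) ≤ cc e {y} (V \ B) := cc_ge_of_mem e y (by simp [hx, hxB])
  have h4 : 1 ≤ (e y x : ℤ) := by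
    rw [h.symm]
    omega
  linarith

/-- children of a start vertex -/
lemma child_bound {e : ι → ι → ℕ} {o : ι → ℕ} {V : Finset ι} (hn : Net e o V)
    (IH : Good ι V.card) {v : ι} (hv : v ∈ V) {k : ℤ}
    (hα : ∀ F ⊆ V, v ∈ F → del e o V F ≤ k) {u : ι} (hu : u ∈ V.erase v) (huv : e v u ≠ 0) :
    ww (k - 3 + 2 * (cc e {v} V + o v)) ≤ WW e o (V.erase v) u := by
  have huV : u ∈ V := Finset.mem_of_mem_erase hu
  refine IH e o (V.erase v) u _ (Finset.card_erase_lt_of_mem hv)
    (hn.sub (Finset.erase_subset _ _)) hu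
    (hn.deg_two (Finset.erase_subset _ _) huV hv (Finset.notMem_erase v V) huv) ?_
  intro F hF huF
  have hFV : F ⊆ V := hF.trans (Finset.erase_subset _ _)
  have hvF : v ∉ F := fun h => Finset.notMem_erase v V (hF h)
  have hd : Disjoint {v} F := by simpa using hvF
  have h1 := del_union hn.symm o V hd
  have h2 := hα ({v} ∪ F) (Finset.union_subset (by simpa using hv) hFV) (by simp)
  have h3 := del_sdiff e o F (Finset.singleton_subset_iff.2 hv)
  rw [Finset.sdiff_singleton_eq_erase] at h3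
  have h4 := del_single hn.irr o V v
  have h5 := cc_comm hn.symm {v} F
  linarith

/-- first step estimate -/
lemma slot_bound {e : ι → ι → ℕ} {o : ι → ℕ} {V : Finset ι} (hn : Net e o V)
    (IH : Good ι V.card) {v : ι} (hv : v ∈ V) {k : ℤ}
    (hα : ∀ F ⊆ V, v ∈ F → del e o V F ≤ k) :
    zz * (o v + ((cc e {v} V : ℤ) : ℝ) * ww (k - 3 + 2 * (cc e {v} V + o v))) ≤ WW e o V v := by
  rw [WW_mem e o hv]
  refine mul_le_mul_of_nonneg_left (add_le_add_right ?_ _) zz_pos.le
  have h1 : ((cc e {v} V : ℤ) : ℝ) = ∑ u ∈ V.erase v, (e v u : ℝ) := by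
    rw [cc_erase e {v} hv, cc_self_single hn.irr, zero_add, cc_single_left]
    push_cast
    rfl
  rw [h1, Finset.sum_mul]
  refine Finset.sum_le_sum fun u hu => ?_
  by_cases h : e v u = 0
  · simp [h]
  · exact mul_le_mul_of_nonneg_left (child_bound hn IH hv hα hu h) (by positivity)

/-- everything except two level neighbours and `k ∈ {0,1,2}` -/
lemma small_cases {e : ι → ι → ℕ} {o : ι → ℕ} {V : Finset ι} (hn : Net e o V)
    (IH : Good ι V.card) {v : ι} (hv : v ∈ V) (hm : cc e {v} V + o v ≤ 2) {k : ℤ}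
    (hα : ∀ F ⊆ V, v ∈ F → del e o V F ≤ k)
    (hc : ¬ (cc e {v} V = 2 ∧ o v = 0 ∧ (k = 0 ∨ k = 1 ∨ k = 2))) :
    ww k ≤ WW e o V v := by
  have hs := slot_bound hn IH hv hα
  have hd := cc_nonneg e {v} V
  have h1 := hα {v} (by simpa using hv) (by simp)
  rw [del_single hn.irr] at h1
  have z1 := zz_lo
  have z2 := zz_hi
  have z3 := zz_sq
  generalize hdd : cc e {v} V = d at *
  by_cases hk3 : 3 ≤ k
  · rw [ww_big hk3]; exact WW_nonneg _ _ _ _
  have hcases : (d = 0 ∧ o v = 1) ∨ (d = 1 ∧ o v = 0) ∨ (d = 0 ∧ o v = 2) ∨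
      (d = 1 ∧ o v = 1) ∨ (d = 2 ∧ o v = 0) := by omega
  refine le_trans ?_ hs
  rcases hcases with ⟨rfl, h⟩ | ⟨rfl, h⟩ | ⟨rfl, h⟩ | ⟨rfl, h⟩ | ⟨rfl, h⟩
  · rw [h] at h1 ⊢
    have : k = 1 ∨ k = 2 := by push_cast at h1; omega
    rcases this with rfl | rfl
    · simp [ww_one]
    · simp only [ww_two]
      push_cast
      nlinarith
  · rw [h] at h1 ⊢
    have : k = 1 ∨ k = 2 := by push_cast at h1; omega
    rcases this with rfl | rfl
    · norm_num [ww_one, ww_zero]
    · norm_num [ww_two, ww_one]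
  · rw [h] at h1 ⊢
    have := ww_le k
    push_cast
    linarith
  · rw [h] at h1 ⊢
    have : k = -1 ∨ k = 0 ∨ k = 1 ∨ k = 2 := by push_cast at h1; omega
    rcases this with rfl | rfl | rfl | rfl
    · norm_num [ww_zero]
      rw [ww_neg (by norm_num)]
      linarith
    · norm_num [ww_zero, ww_one]
      nlinarith
    · norm_num [ww_one, ww_two]
      nlinarith
    · norm_num [ww_two]
      rw [ww_big (by norm_num)]
      nlinarith
  · rw [h] at h1 ⊢
    have : k = -1 := by push_cast at h1; omega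
    subst this
    norm_num [ww_zero]
    rw [ww_neg (by norm_num)]
    linarith

/-- the `α`-step: a proper maximiser containing `v` -/
lemma alpha_step {e : ι → ι → ℕ} {o : ι → ℕ} {V : Finset ι} (hn : Net e o V)
    (IH : Good ι V.card) {v : ι} (hm : cc e {v} V + o v ≤ 2) {k : ℤ}
    (hα : ∀ F ⊆ V, v ∈ F → del e o V F ≤ k)
    {R : Finset ι} (hR : R ⊆ V) (hRV : R ≠ V) (hvR : v ∈ R) (hk : del e o V R = k) :
    ww k ≤ WW e o V v := by
  have hcard : R.card < V.card := Finset.card_lt_card (lt_of_le_of_ne hR hRV)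
  have hcard' : (V \ R).card < V.card :=
    Finset.card_lt_card (Finset.sdiff_ssubset hR ⟨v, hvR⟩)
  let oR : ι → ℕ := fun x => o x + ∑ y ∈ V \ R, e x y
  have hoR : ∀ x, (oR x : ℤ) = o x + cc e {x} (V \ R) := by
    intro x
    rw [cc_single_left]
    simp only [oR]
    push_cast
    rfl
  have hooR : ∀ F, oo oR F = oo o F + cc e F (V \ R) := by
    intro F
    rw [cc_eq_sum_single]
    unfold oo
    rw [← Finset.sum_add_distrib]
    exact Finset.sum_congr rfl fun x _ => hoR x
  have h1 : ww k ≤ WW e oR R v := by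
    refine IH e oR R v k hcard (hn.restrict hR oR fun x _ => (hoR x).le) hvR ?_ ?_
    · rw [hoR]
      have := cc_sdiff_right e {v} hR
      linarith
    · intro F hF hvF
      have h2 := hα F (hF.trans hR) hvF
      have h3 := cc_sdiff_right e F hR
      unfold del at h2 ⊢
      rw [hooR]
      linarith
  refine h1.trans ?_
  have h2 := W_restrict (ω := fun _ => zz) (e := e) (o := fun x => (o x : ℝ))
    (fun _ => zz_pos.le) R (V \ R) Finset.disjoint_sdiff (fun _ _ => by positivity)
    (fun x => (oR x : ℝ)) ?_ v hvR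
  · rw [Finset.union_sdiff_of_subset hR] at h2
    exact h2
  · intro x hx
    simp only [oR]
    push_cast
    refine add_le_add_right (Finset.sum_le_sum fun y hy => ?_) _
    by_cases hxy : e x y = 0
    · simp [hxy]
    · have hyV : y ∈ V := (Finset.mem_sdiff.1 hy).1
      have : ww 0 ≤ WW e o (V \ R) y := by
        refine IH e o (V \ R) y 0 hcard' (hn.sub Finset.sdiff_subset) hy
          (hn.deg_two Finset.sdiff_subset hyV (hR hx) (by simp [hx]) hxy) ?_
        intro F hF _
        have hd : Disjoint R F := by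
          rw [Finset.disjoint_left]
          intro a ha haF
          exact (Finset.mem_sdiff.1 (hF haF)).2 ha
        have h3 := del_union hn.symm o V hd
        have h4 := hα (R ∪ F) (Finset.union_subset hR (hF.trans Finset.sdiff_subset))
          (Finset.mem_union_left _ hvR)
        have h5 := del_sdiff e o F hR
        have h6 := cc_comm hn.symm R F
        linarith
      rw [ww_zero] at this
      calc (e x y : ℝ) = e x y * 1 := by ring
        _ ≤ e x y * WW e o (V \ R) y := mul_le_mul_of_nonneg_left this (by positivity)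

/-- the `β`-step: a nonempty set avoiding `v` with nonnegative `δ` can be deleted -/
lemma beta_step {e : ι → ι → ℕ} {o : ι → ℕ} {V : Finset ι} (hn : Net e o V)
    (IH : Good ι V.card) {v : ι} (hv : v ∈ V) (hm : cc e {v} V + o v ≤ 2) {k : ℤ}
    (hα : ∀ F ⊆ V, v ∈ F → del e o V F ≤ k)
    {R : Finset ι} (hR : R ⊆ V) (hRne : R.Nonempty) (hvR : v ∉ R) (hk : 0 ≤ del e o V R) :
    ww k ≤ WW e o V v := by
  have hcard' : (V \ R).card < V.card := Finset.card_lt_card (Finset.sdiff_ssubset hR hRne)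
  refine le_trans ?_ (WW_mono e o (Finset.sdiff_subset (s := V) (t := R)) v)
  refine IH e o (V \ R) v k hcard' (hn.sub Finset.sdiff_subset) (by simp [hv, hvR]) ?_ ?_
  · have := cc_mono_right e (X := {v}) (Finset.sdiff_subset (s := V) (t := R))
    linarith
  · intro F hF hvF
    have hd : Disjoint R F := by
      rw [Finset.disjoint_left]
      intro a ha haF
      exact (Finset.mem_sdiff.1 (hF haF)).2 ha
    have h3 := del_union hn.symm o V hd
    have h4 := hα (R ∪ F) (Finset.union_subset hR (hF.trans Finset.sdiff_subset))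
      (Finset.mem_union_right _ hvF)
    have h5 := del_sdiff e o F hR
    have h6 := cc_comm hn.symm R F
    linarith

end Pool.Agent.A05699
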