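import Pool.Agent.Lib.MP_a05699_co.Steps

set_option autoImplicit false
set_option linter.unusedSectionVars false

namespace Pool.Agent.A05699

variable {ι : Type*} [DecidableEq ι]

/-- suppressing the vertex `x` -/
def supE (e : ι → ι → ℕ) (x : ι) (a b : ι) : ℕ := if a = b then 0 else e a b + e a x * e x b

def supO (e : ι → ι → ℕ) (o : ι → ℕ) (x : ι) (a : ι) : ℕ := o a + e a x * o x

/-- deleting the edge `xy` -/
def delE (e : ι → ι → ℕ) (x y : ι) (a b : ι) : ℕ :=
  if (a = x ∧ b = y) ∨ (a = y ∧ b = x) then 0 else e a b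

lemma delE_symm {e : ι → ι → ℕ} (hs : ∀ x y, e x y = e y x) (x y a b : ι) :
    delE e x y a b = delE e x y b a := by
  unfold delE
  by_cases h : (a = x ∧ b = y) ∨ (a = y ∧ b = x)
  · have h' : (b = x ∧ a = y) ∨ (b = y ∧ a = x) := by tauto
    rw [if_pos h, if_pos h']
  · have h' : ¬ ((b = x ∧ a = y) ∨ (b = y ∧ a = x)) := by tauto
    rw [if_neg h, if_neg h', hs]

lemma delE_irr {e : ι → ι → ℕ} (hi : ∀ x, e x x = 0) (x y a : ι) :
    delE e x y a a = 0 := by
  unfold delE
  simp [hi]

lemma supE_symm {e : ι → ι → ℕ} (hs : ∀ x y, e x y = e y x) (x a b : ι) :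
    supE e x a b = supE e x b a := by
  unfold supE
  by_cases h : a = b
  · simp [h]
  · have h' : b ≠ a := fun h' => h h'.symm
    rw [if_neg h, if_neg h', hs a b, hs a x, hs x b]
    ring

/-- the suppression inequality -/
lemma sup_W {ω : ι → ℝ} (hω : ∀ x, 0 ≤ ω x) {e : ι → ι → ℕ} (hs : ∀ x y, e x y = e y x)
    (o : ι → ℕ) {x : ι} (hx : ω x = 1) (V : Finset ι) (hxV : x ∈ V)
    (hd : cc e {x} (V.erase x) + o x ≤ 2) (u : ι) (hu : u ∈ V.erase x) :
    W ω (supE e x) (fun a => (supO e o x a : ℝ)) (V.erase x) u ≤
      W ω e (fun a => (o a : ℝ)) V u := by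
  induction V using Finset.strongInduction generalizing u with
  | H V ih =>
    have huV : u ∈ V := Finset.mem_of_mem_erase hu
    have hux : u ≠ x := Finset.ne_of_mem_erase hu
    have hxVu : x ∈ V.erase u := Finset.mem_erase.2 ⟨hux.symm, hxV⟩
    have hcomm : (V.erase x).erase u = (V.erase u).erase x := Finset.erase_right_comm
    rw [W_mem hu, W_mem huV, hcomm]
    refine mul_le_mul_of_nonneg_left ?_ (hω u)
    rw [← Finset.add_sum_erase _ _ hxVu, W_mem hxVu, hx, one_mul]
    have hsplit : ((supO e o x u : ℕ) : ℝ) = (o u : ℝ) + (e u x : ℝ) * (o x : ℝ) := by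
      unfold supO
      push_cast
      ring
    rw [hsplit, mul_add, Finset.mul_sum, add_assoc, add_assoc,
      ← Finset.sum_add_distrib]
    refine add_le_add_right (add_le_add_right (Finset.sum_le_sum fun b hb => ?_) _) _
    have hbx : b ≠ x := Finset.ne_of_mem_erase hb
    have hbu : b ≠ u := Finset.ne_of_mem_erase (Finset.mem_of_mem_erase hb)
    have hbV : b ∈ V := Finset.mem_of_mem_erase (Finset.mem_of_mem_erase hb)
    have h1 : W ω (supE e x) (fun a => (supO e o x a : ℝ)) ((V.erase u).erase x) b ≤
        W ω e (fun a => (o a : ℝ)) (V.erase u) b := by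
      refine ih _ (Finset.erase_ssubset huV) hxVu ?_ b hb
      have := cc_mono_right e (X := {x})
        (Finset.erase_subset_erase x (Finset.erase_subset u V))
      linarith
    have h2 : (e u x : ℝ) * (e x b : ℝ) *
          W ω (supE e x) (fun a => (supO e o x a : ℝ)) ((V.erase u).erase x) b =
        (e u x : ℝ) * (e x b : ℝ) * W ω e (fun a => (o a : ℝ)) ((V.erase u).erase x) b := by
      by_cases h3 : e u x = 0
      · simp [h3]
      by_cases h4 : e x b = 0
      · simp [h4]
      -- all other slots of `x` are unused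
      have hub : ({u, b} : Finset ι) ⊆ V.erase x := by
        intro a ha
        rw [Finset.mem_insert, Finset.mem_singleton] at ha
        rcases ha with rfl | rfl
        · exact hu
        · exact Finset.mem_erase.2 ⟨hbx, hbV⟩
      have h5 := cc_sdiff_right e {x} hub
      have h6 : cc e {x} {u, b} = e x u + e x b := by
        rw [cc_single_left, Finset.sum_pair hbu.symm]
      have h7 : 0 ≤ cc e {x} (V.erase x \ {u, b}) := cc_nonneg _ _ _
      have h8 : (1 : ℤ) ≤ e x u := by rw [hs]; omega
      have h9 : (1 : ℤ) ≤ e x b := by omega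
      have h10 : (0 : ℤ) ≤ o x := by positivity
      have hox : o x = 0 := by
        have : (o x : ℤ) = 0 := by linarith
        exact_mod_cast this
      have hother : ∀ y ∈ V, y ≠ x → y ≠ u → y ≠ b → e x y = 0 := by
        intro y hy h11 h12 h13
        have h14 : (e x y : ℤ) ≤ cc e {x} (V.erase x \ {u, b}) :=
          cc_ge_of_mem e x (by simp [hy, h11, h12, h13])
        have h15 : (0 : ℤ) ≤ e x y := by positivity
        have : (e x y : ℤ) = 0 := by linarith
        exact_mod_cast this
      congr 1
      refine W_congr _ (fun _ _ => rfl) ?_ ?_ b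
      · intro c hc d hd' hcd
        unfold supE
        rw [if_neg hcd]
        have hcx : c ≠ x := Finset.ne_of_mem_erase hc
        have hcu : c ≠ u := Finset.ne_of_mem_erase (Finset.mem_of_mem_erase hc)
        have hcV : c ∈ V := Finset.mem_of_mem_erase (Finset.mem_of_mem_erase hc)
        have hdx : d ≠ x := Finset.ne_of_mem_erase hd'
        have hdu : d ≠ u := Finset.ne_of_mem_erase (Finset.mem_of_mem_erase hd')
        have hdV : d ∈ V := Finset.mem_of_mem_erase (Finset.mem_of_mem_erase hd')
        by_cases hcb : c = b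
        · have : d ≠ b := fun h => hcd (hcb.trans h.symm)
          rw [hother d hdV hdx hdu this]
          simp
        · rw [hs c x, hother c hcV hcx hcu hcb]
          simp
      · intro c _
        unfold supO
        simp [hox]
    have h3 : ((supE e x u b : ℕ) : ℝ) = (e u b : ℝ) + (e u x : ℝ) * (e x b : ℝ) := by
      unfold supE
      rw [if_neg hbu.symm]
      push_cast
      ring
    rw [h3, add_mul, h2]
    have h4 : (e u b : ℝ) *
          W ω (supE e x) (fun a => (supO e o x a : ℝ)) ((V.erase u).erase x) b ≤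
        (e u b : ℝ) * W ω e (fun a => (o a : ℝ)) (V.erase u) b :=
      mul_le_mul_of_nonneg_left h1 (by positivity)
    linarith

end Pool.Agent.A05699
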