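import Pool.Agent.Lib.MP_a05699_co.Cayley

set_option autoImplicit false
set_option linter.unusedSectionVars false

namespace Pool.Agent.A05699

open Filter Topology

variable {Γ : Type*} [Group Γ] [DecidableEq Γ]

/-- functions with prescribed increments along `A` -/
def HSet (A : Subgroup Γ) (ℓ : A → ℝ) : Set (Γ → ℝ) :=
  {h | ∀ (a : A) (g : Γ), h ((a : Γ) * g) = ℓ a + h g}

/-- the coset representative -/
noncomputable def rp {A : Subgroup Γ} (q : Γ ⧸ A) : Γ := (Quotient.out q)⁻¹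

lemma rp_mem {A : Subgroup Γ} (g : Γ) : g * (rp ((g⁻¹ : Γ) : Γ ⧸ A))⁻¹ ∈ A := by
  unfold rp
  have h : (((g⁻¹ : Γ) : Γ ⧸ A)) = ((Quotient.out ((g⁻¹ : Γ) : Γ ⧸ A) : Γ) : Γ ⧸ A) :=
    (QuotientGroup.out_eq' _).symm
  have h2 := QuotientGroup.eq.1 h
  simpa using h2

lemma rp_coe {A : Subgroup Γ} (q : Γ ⧸ A) : (((rp q)⁻¹ : Γ) : Γ ⧸ A) = q := by
  unfold rp
  rw [inv_inv]
  exact QuotientGroup.out_eq' q

lemma inv_fun {A : Subgroup Γ} {α : Type*} {f : Γ → α} (hf : ∀ (a : A) (g : Γ), f (a * g) = f g)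
    (g : Γ) : f g = f (rp ((g⁻¹ : Γ) : Γ ⧸ A)) := by
  have h := hf ⟨_, rp_mem (A := A) g⟩ (rp ((g⁻¹ : Γ) : Γ ⧸ A))
  rw [← h]
  congr 1
  simp

variable {A : Subgroup Γ} [Fintype (Γ ⧸ A)]

lemma sum_shift {f : Γ → ℝ} (hf : ∀ (a : A) (g : Γ), f (a * g) = f g) (s : Γ) :
    ∑ q : Γ ⧸ A, f (rp q * s) = ∑ q : Γ ⧸ A, f (rp q) := by
  have h : ∀ q : Γ ⧸ A, f (rp q * s) = f (rp (s⁻¹ • q)) := by
    intro q
    rw [inv_fun hf (rp q * s)]
    congr 2
    rw [mul_inv_rev]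
    conv_rhs => rw [← rp_coe q]
    rfl
  rw [Finset.sum_congr rfl (fun q _ => h q)]
  exact Equiv.sum_comp (MulAction.toPerm s⁻¹) (fun q : Γ ⧸ A => f (rp q))

/-- total variation -/
noncomputable def TV (A : Subgroup Γ) [Fintype (Γ ⧸ A)] (S : Finset Γ) (h : Γ → ℝ) : ℝ :=
  ∑ q : Γ ⧸ A, ∑ s ∈ S, max (h (rp q * s) - h (rp q)) 0

lemma TV_nonneg (S : Finset Γ) (h : Γ → ℝ) : 0 ≤ TV A S h := by
  unfold TV
  exact Finset.sum_nonneg fun q _ => Finset.sum_nonneg fun s _ => le_max_right _ _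

lemma diff_inv {ℓ : A → ℝ} {h : Γ → ℝ} (hh : h ∈ HSet A ℓ) (s : Γ) (a : A) (g : Γ) :
    h ((a : Γ) * g * s) - h ((a : Γ) * g) = h (g * s) - h g := by
  have h1 := hh a g
  have h2 := hh a (g * s)
  rw [mul_assoc, h2, h1]
  ring

lemma diff_le_TV {S : Finset Γ} {ℓ : A → ℝ} {h : Γ → ℝ} (hh : h ∈ HSet A ℓ) {s : Γ}
    (hs : s ∈ S) (g : Γ) : h (g * s) - h g ≤ TV A S h := by
  have h1 := inv_fun (A := A) (f := fun g => h (g * s) - h g)
    (fun a g => diff_inv hh s a g) g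
  rw [h1]
  unfold TV
  set q := ((g⁻¹ : Γ) : Γ ⧸ A)
  calc h (rp q * s) - h (rp q) ≤ max (h (rp q * s) - h (rp q)) 0 := le_max_left _ _
    _ ≤ ∑ s ∈ S, max (h (rp q * s) - h (rp q)) 0 :=
        Finset.single_le_sum (f := fun s => max (h (rp q * s) - h (rp q)) 0)
          (fun _ _ => le_max_right _ _) hs
    _ ≤ _ := Finset.single_le_sum
          (f := fun q : Γ ⧸ A => ∑ s ∈ S, max (h (rp q * s) - h (rp q)) 0)
          (fun _ _ => Finset.sum_nonneg fun _ _ => le_max_right _ _) (Finset.mem_univ q)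

lemma exists_bound {S : Finset Γ} (hS : ∀ s ∈ S, s⁻¹ ∈ S)
    (hgen : Subgroup.closure (S : Set Γ) = ⊤) (ℓ : A → ℝ) (g : Γ) :
    ∃ M : ℝ, 0 ≤ M ∧ ∀ h ∈ HSet A ℓ, ∀ g0 : Γ, |h (g0 * g) - h g0| ≤ M * TV A S h := by
  have hg : g ∈ Subgroup.closure (S : Set Γ) := by rw [hgen]; trivial
  induction hg using Subgroup.closure_induction with
  | mem s hs =>
    refine ⟨1, zero_le_one, fun h hh g0 => ?_⟩
    rw [one_mul, abs_le]
    constructor
    · have := diff_le_TV hh (hS s hs) (g0 * s)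
      rw [mul_assoc, mul_inv_cancel, mul_one] at this
      linarith
    · exact diff_le_TV hh hs g0
  | one => exact ⟨0, le_refl _, fun h _ g0 => by simp⟩
  | mul a b _ _ iha ihb =>
    obtain ⟨M1, h1, h2⟩ := iha
    obtain ⟨M2, h3, h4⟩ := ihb
    refine ⟨M1 + M2, add_nonneg h1 h3, fun h hh g0 => ?_⟩
    have h5 := h2 h hh g0
    have h6 := h4 h hh (g0 * a)
    rw [← mul_assoc]
    calc |h (g0 * a * b) - h g0| = |(h (g0 * a * b) - h (g0 * a)) + (h (g0 * a) - h g0)| := by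
          congr 1; ring
      _ ≤ |h (g0 * a * b) - h (g0 * a)| + |h (g0 * a) - h g0| := abs_add_le _ _
      _ ≤ _ := by rw [add_mul]; linarith
  | inv a _ iha =>
    obtain ⟨M1, h1, h2⟩ := iha
    refine ⟨M1, h1, fun h hh g0 => ?_⟩
    have h5 := h2 h hh (g0 * a⁻¹)
    rw [mul_assoc, inv_mul_cancel, mul_one, abs_sub_comm] at h5
    exact h5

/-- the function with given values on representatives -/
noncomputable def hx (ℓ : A → ℝ) (x : Γ ⧸ A → ℝ) (g : Γ) : ℝ :=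
  ℓ ⟨_, rp_mem (A := A) g⟩ + x ((g⁻¹ : Γ) : Γ ⧸ A)

lemma coe_inv_mul (a : A) (g : Γ) : ((((a : Γ) * g)⁻¹ : Γ) : Γ ⧸ A) = ((g⁻¹ : Γ) : Γ ⧸ A) := by
  rw [QuotientGroup.eq]
  simp

lemma hx_mem {ℓ : A → ℝ} (hℓ : ∀ a b, ℓ (a * b) = ℓ a + ℓ b) (x : Γ ⧸ A → ℝ) :
    hx ℓ x ∈ HSet A ℓ := by
  intro a g
  unfold hx
  have h1 : x ((((a : Γ) * g)⁻¹ : Γ) : Γ ⧸ A) = x ((g⁻¹ : Γ) : Γ ⧸ A) := by
    rw [coe_inv_mul]
  rw [h1, ← add_assoc, ← hℓ]
  congr 2
  apply Subtype.ext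
  change (a : Γ) * g * (rp ((((a : Γ) * g)⁻¹ : Γ) : Γ ⧸ A))⁻¹ =
    (a : Γ) * (g * (rp ((g⁻¹ : Γ) : Γ ⧸ A))⁻¹)
  rw [coe_inv_mul, mul_assoc]

lemma hx_of_mem {ℓ : A → ℝ} {h : Γ → ℝ} (hh : h ∈ HSet A ℓ) :
    hx ℓ (fun q => h (rp q)) = h := by
  funext g
  unfold hx
  have h1 := hh ⟨_, rp_mem (A := A) g⟩ (rp ((g⁻¹ : Γ) : Γ ⧸ A))
  rw [← h1]
  congr 1
  simp

lemma continuous_TV (S : Finset Γ) (ℓ : A → ℝ) : Continuous (fun x => TV A S (hx ℓ x)) := by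
  unfold TV hx
  fun_prop

/-- a minimiser of the total variation exists -/
lemma exists_min {S : Finset Γ} (hS : ∀ s ∈ S, s⁻¹ ∈ S)
    (hgen : Subgroup.closure (S : Set Γ) = ⊤) {ℓ : A → ℝ} (hℓ : ∀ a b, ℓ (a * b) = ℓ a + ℓ b) :
    ∃ h ∈ HSet A ℓ, ∀ h' ∈ HSet A ℓ, TV A S h ≤ TV A S h' := by
  choose M hM0 hM using fun g => exists_bound (A := A) hS hgen ℓ g
  set T0 := TV A S (hx ℓ 0) with hT0
  set C := ∑ q : Γ ⧸ A, M (rp q) * T0 with hC
  have hT00 : 0 ≤ T0 := TV_nonneg _ _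
  have hK : IsCompact (Set.pi Set.univ (fun _ : Γ ⧸ A => Set.Icc (-C) C)) :=
    isCompact_univ_pi fun _ => isCompact_Icc
  have hC0 : 0 ≤ C := Finset.sum_nonneg fun q _ => mul_nonneg (hM0 _) hT00
  have h0K : (0 : Γ ⧸ A → ℝ) ∈ Set.pi Set.univ (fun _ : Γ ⧸ A => Set.Icc (-C) C) := by
    intro q _
    exact ⟨by simpa using hC0, by simpa using hC0⟩
  obtain ⟨x, hxK, hxmin⟩ := hK.exists_isMinOn ⟨0, h0K⟩ (continuous_TV S ℓ).continuousOn
  refine ⟨hx ℓ x, hx_mem hℓ x, fun h' hh' => ?_⟩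
  have hmin : ∀ y ∈ Set.pi Set.univ (fun _ : Γ ⧸ A => Set.Icc (-C) C),
      TV A S (hx ℓ x) ≤ TV A S (hx ℓ y) := fun y hy => hxmin hy
  by_cases hle : TV A S h' ≤ T0
  · set h2 : Γ → ℝ := fun g => h' g - h' 1 with hh2
    have hh2m : h2 ∈ HSet A ℓ := by
      intro a g
      simp only [hh2]
      rw [hh' a g]
      ring
    have hTV : TV A S h2 = TV A S h' := by
      unfold TV
      simp only [hh2]
      refine Finset.sum_congr rfl fun q _ => Finset.sum_congr rfl fun s _ => ?_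
      congr 1
      ring
    rw [← hTV, ← hx_of_mem hh2m]
    refine hmin _ ?_
    intro q _
    have h3 := hM (rp q) h2 hh2m 1
    rw [one_mul] at h3
    have h4 : h2 1 = 0 := by simp [hh2]
    rw [h4, sub_zero, hTV] at h3
    have h5 : M (rp q) * TV A S h' ≤ C := by
      calc M (rp q) * TV A S h' ≤ M (rp q) * T0 := mul_le_mul_of_nonneg_left hle (hM0 _)
        _ ≤ C := Finset.single_le_sum (f := fun q : Γ ⧸ A => M (rp q) * T0)
            (fun _ _ => mul_nonneg (hM0 _) hT00) (Finset.mem_univ q)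
    have h6 := abs_le.1 (h3.trans h5)
    exact ⟨h6.1, h6.2⟩
  · exact (hmin 0 h0K).trans (not_le.1 hle).le

/-! ### Consequences of minimality -/

/-- indicator of `A F` -/
noncomputable def ind (A : Subgroup Γ) (F : Finset Γ) (g : Γ) : ℝ :=
  open Classical in if ∃ f ∈ F, g * f⁻¹ ∈ A then 1 else 0

lemma ind_inv (F : Finset Γ) (a : A) (g : Γ) : ind A F ((a : Γ) * g) = ind A F g := by
  unfold ind
  congr 1
  apply propext
  refine exists_congr fun f => and_congr_right fun _ => ?_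
  rw [mul_assoc]
  exact Subgroup.mul_mem_cancel_left A a.2

lemma ind_eq_one {F : Finset Γ} {g : Γ} (h : g ∈ F) : ind A F g = 1 := by
  unfold ind
  rw [if_pos ⟨g, h, by simp⟩]

lemma ind_zero_or_one (F : Finset Γ) (g : Γ) : ind A F g = 0 ∨ ind A F g = 1 := by
  unfold ind
  split_ifs <;> simp

/-- injectivity on level sets -/
lemma level_inj {ℓ : A → ℝ} (hℓ : ∀ a b, ℓ (a * b) = ℓ a + ℓ b) (hinj : Function.Injective ℓ)
    {h : Γ → ℝ} (hh : h ∈ HSet A ℓ) {g g' : Γ} (hgg : h g = h g') (hA : g * g'⁻¹ ∈ A) :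
    g = g' := by
  have h1 := hh ⟨_, hA⟩ g'
  have h2 : ((⟨g * g'⁻¹, hA⟩ : A) : Γ) * g' = g := by simp
  rw [h2] at h1
  have h3 : ℓ ⟨_, hA⟩ = 0 := by linarith
  have h4 : ℓ 1 = 0 := by
    have := hℓ 1 1
    rw [mul_one] at this
    linarith
  have h5 : (⟨g * g'⁻¹, hA⟩ : A) = 1 := hinj (h3.trans h4.symm)
  have h6 : g * g'⁻¹ = 1 := congrArg Subtype.val h5
  exact mul_inv_eq_one.1 h6

lemma level_finite {ℓ : A → ℝ} (hℓ : ∀ a b, ℓ (a * b) = ℓ a + ℓ b)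
    (hinj : Function.Injective ℓ)
    {h : Γ → ℝ} (hh : h ∈ HSet A ℓ) (c : ℝ) : {g | h g = c}.Finite := by
  refine Set.Finite.of_finite_image (f := fun g => ((g⁻¹ : Γ) : Γ ⧸ A)) (Set.toFinite _) ?_
  intro g hg g' hg' hgg
  have h1 := QuotientGroup.eq.1 hgg
  rw [inv_inv] at h1
  exact level_inj hℓ hinj hh (hg.trans hg'.symm) h1

lemma level_card {ℓ : A → ℝ} (hℓ : ∀ a b, ℓ (a * b) = ℓ a + ℓ b)
    (hinj : Function.Injective ℓ)
    {h : Γ → ℝ} (hh : h ∈ HSet A ℓ) {c : ℝ} {V : Finset Γ} (hV : ∀ g ∈ V, h g = c) :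
    V.card ≤ Fintype.card (Γ ⧸ A) := by
  rw [← Finset.card_univ]
  refine Finset.card_le_card_of_injOn (fun g => ((g⁻¹ : Γ) : Γ ⧸ A)) (fun _ _ => Finset.mem_univ _)
    ?_
  intro g hg g' hg' hgg
  have h1 := QuotientGroup.eq.1 hgg
  rw [inv_inv] at h1
  exact level_inj hℓ hinj hh ((hV g hg).trans (hV g' hg').symm) h1

lemma ind_level {ℓ : A → ℝ} (hℓ : ∀ a b, ℓ (a * b) = ℓ a + ℓ b)
    (hinj : Function.Injective ℓ)
    {h : Γ → ℝ} (hh : h ∈ HSet A ℓ) {c : ℝ} {F : Finset Γ} (hF : ∀ g ∈ F, h g = c) {g : Γ}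
    (hg : h g = c) : ind A F g = if g ∈ F then 1 else 0 := by
  by_cases hgF : g ∈ F
  · rw [if_pos hgF, ind_eq_one hgF]
  · rw [if_neg hgF]
    unfold ind
    rw [if_neg]
    rintro ⟨f, hf, hA⟩
    exact hgF (level_inj hℓ hinj hh (hg.trans (hF f hf).symm) hA ▸ hf)

/-- sums over cosets weighted by the indicator -/
lemma sum_ind {ℓ : A → ℝ} (hℓ : ∀ a b, ℓ (a * b) = ℓ a + ℓ b)
    (hinj : Function.Injective ℓ)
    {h : Γ → ℝ} (hh : h ∈ HSet A ℓ) {c : ℝ} {F : Finset Γ} (hF : ∀ g ∈ F, h g = c)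
    {f : Γ → ℝ} (hf : ∀ (a : A) (g : Γ), f (a * g) = f g) :
    ∑ q : Γ ⧸ A, ind A F (rp q) * f (rp q) = ∑ g ∈ F, f g := by
  classical
  have h1 : ∀ q : Γ ⧸ A, ind A F (rp q) * f (rp q) =
      ∑ g ∈ F, if ((g⁻¹ : Γ) : Γ ⧸ A) = q then f g else 0 := by
    intro q
    by_cases hq : ∃ g ∈ F, ((g⁻¹ : Γ) : Γ ⧸ A) = q
    · obtain ⟨g, hg, rfl⟩ := hq
      rw [Finset.sum_eq_single g]
      · rw [if_pos rfl, inv_fun hf g, ← inv_fun (ind_inv F) g, ind_eq_one hg, one_mul]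
      · intro b hb hbg
        rw [if_neg]
        intro hbq
        apply hbg
        have h1 := QuotientGroup.eq.1 hbq
        rw [inv_inv] at h1
        exact level_inj hℓ hinj hh ((hF b hb).trans (hF g hg).symm) h1
      · intro hgn
        exact absurd hg hgn
    · rw [Finset.sum_eq_zero]
      · have : ind A F (rp q) = 0 := by
          unfold ind
          rw [if_neg]
          rintro ⟨g, hg, hA⟩
          apply hq
          refine ⟨g, hg, ?_⟩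
          rw [← rp_coe q, QuotientGroup.eq, inv_inv]
          have := A.inv_mem hA
          simpa using this
        rw [this, zero_mul]
      · intro g hg
        rw [if_neg (fun hgq => hq ⟨g, hg, hgq⟩)]
  rw [Finset.sum_congr rfl fun q _ => h1 q, Finset.sum_comm]
  refine Finset.sum_congr rfl fun g _ => ?_
  simp

/-- one-sided derivative of `max (D - ε j) 0` -/
lemma ev_max (D j : ℝ) (hj : j = -1 ∨ j = 0 ∨ j = 1) :
    ∀ᶠ ε in 𝓝[>] (0 : ℝ), max (D - ε * j) 0 =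
      max D 0 + ε * ((if 0 < D then -j else 0) + (if D = 0 then max (-j) 0 else 0)) := by
  rcases lt_trichotomy D 0 with hD | hD | hD
  · have h1 : ∀ᶠ ε in 𝓝[>] (0 : ℝ), ε ∈ Set.Ioo (0 : ℝ) (-D) :=
      Ioo_mem_nhdsGT (by linarith)
    filter_upwards [h1] with ε hε
    rw [if_neg (not_lt.2 hD.le), if_neg hD.ne, max_eq_right hD.le]
    rw [max_eq_right]
    · ring
    · rcases hj with rfl | rfl | rfl <;> nlinarith [hε.1, hε.2]
  · subst hD
    filter_upwards [self_mem_nhdsWithin] with ε hε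
    have hε' : (0 : ℝ) < ε := hε
    rw [if_neg (lt_irrefl _), if_pos rfl, max_self]
    rcases hj with rfl | rfl | rfl
    · rw [max_eq_left (by linarith), max_eq_left (by norm_num)]; ring
    · simp
    · rw [max_eq_right (by linarith), max_eq_right (by norm_num)]; ring
  · have h1 : ∀ᶠ ε in 𝓝[>] (0 : ℝ), ε ∈ Set.Ioo (0 : ℝ) D := Ioo_mem_nhdsGT hD
    filter_upwards [h1] with ε hε
    rw [if_pos hD, if_neg hD.ne', max_eq_left hD.le]
    rw [max_eq_left]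
    · ring
    · rcases hj with rfl | rfl | rfl <;> nlinarith [hε.1, hε.2]

/-- first order optimality -/
lemma first_order {S : Finset Γ} {ℓ : A → ℝ} {h : Γ → ℝ} (hh : h ∈ HSet A ℓ)
    (hmin : ∀ h' ∈ HSet A ℓ, TV A S h ≤ TV A S h') (F : Finset Γ) :
    0 ≤ ∑ q : Γ ⧸ A, ∑ s ∈ S,
      ((if 0 < h (rp q * s) - h (rp q) then -(ind A F (rp q * s) - ind A F (rp q)) else 0) +
      (if h (rp q * s) - h (rp q) = 0 then
        max (-(ind A F (rp q * s) - ind A F (rp q))) 0 else 0)) := by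
  have hev : ∀ᶠ ε in 𝓝[>] (0 : ℝ), ∀ q : Γ ⧸ A, ∀ s ∈ S,
      max ((h (rp q * s) - h (rp q)) - ε * (ind A F (rp q * s) - ind A F (rp q))) 0 =
      max (h (rp q * s) - h (rp q)) 0 + ε *
      ((if 0 < h (rp q * s) - h (rp q) then -(ind A F (rp q * s) - ind A F (rp q)) else 0) +
      (if h (rp q * s) - h (rp q) = 0 then
        max (-(ind A F (rp q * s) - ind A F (rp q))) 0 else 0)) := by
    rw [Filter.eventually_all]
    intro q
    rw [Filter.eventually_all_finset]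
    intro s _
    refine ev_max _ _ ?_
    rcases ind_zero_or_one (A := A) F (rp q * s) with h1 | h1 <;>
    rcases ind_zero_or_one (A := A) F (rp q) with h2 | h2 <;> rw [h1, h2] <;> norm_num
  obtain ⟨ε, hε, hε0⟩ := (hev.and self_mem_nhdsWithin).exists
  have hε0' : (0 : ℝ) < ε := hε0
  have hm : (fun g => h g - ε * ind A F g) ∈ HSet A ℓ := by
    intro a g
    simp only
    rw [hh a g, ind_inv]
    ring
  have h1 := hmin _ hm
  have h2 : TV A S (fun g => h g - ε * ind A F g) = TV A S h + ε *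
      ∑ q : Γ ⧸ A, ∑ s ∈ S,
      ((if 0 < h (rp q * s) - h (rp q) then -(ind A F (rp q * s) - ind A F (rp q)) else 0) +
      (if h (rp q * s) - h (rp q) = 0 then
        max (-(ind A F (rp q * s) - ind A F (rp q))) 0 else 0)) := by
    unfold TV
    rw [Finset.mul_sum, ← Finset.sum_add_distrib]
    refine Finset.sum_congr rfl fun q _ => ?_
    rw [Finset.mul_sum, ← Finset.sum_add_distrib]
    refine Finset.sum_congr rfl fun s hs => ?_
    rw [← hε q s hs]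
    congr 1
    ring
  rw [h2] at h1
  by_contra hneg
  push Not at hneg
  have := mul_neg_of_pos_of_neg hε0' hneg
  linarith

end Pool.Agent.A05699
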